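import Pool.Agent.N155.L.SDefs
import Pool.Agent.N155.Der

/-! The derivatives of algebraic functions at generic points. -/

set_option autoImplicit false

open Filter Topology MvPolynomial

namespace Pool.Agent.N155

open Pool.Agent.W602.GT Pool.Agent.TH143.GT

variable {K : Type} [Field K] [Algebra ℂ K]

theorem pderiv_rename_castSucc (g : MvPolynomial (Fin 2) ℂ) :
    pderiv 2 (rename (Fin.castSucc : Fin 2 → Fin 3) g) = 0 := by
  induction g using MvPolynomial.induction_on with
  | C a => rw [rename_C, pderiv_C]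
  | add p q hp hq => rw [map_add, map_add, hp, hq, add_zero]
  | mul_X p i hp =>
    rw [map_mul, rename_X, Derivation.leibniz, hp, smul_zero, add_zero, pderiv_X_of_ne, smul_zero]
    fin_cases i <;> decide

/-- a separable relation -/
theorem exists_rel {x : Fin 2 → K} (hx : IsTranscendenceBasis ℂ x) (k : K) :
    ∃ G : MvPolynomial (Fin 3) ℂ, aeval ![x 0, x 1, k] G = 0 ∧
      aeval ![x 0, x 1, k] (pderiv 2 G) ≠ 0 := by
  classical
  let ψ : MvPolynomial (Fin 2) ℂ →ₐ[ℂ] K := aeval x
  let ev : Polynomial (MvPolynomial (Fin 2) ℂ) →+* K := Polynomial.eval₂RingHom ψ.toRingHom k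
  have halg : ∃ p : Polynomial (MvPolynomial (Fin 2) ℂ), p ≠ 0 ∧ ev p = 0 := by
    have h1 : Algebra.IsAlgebraic (Algebra.adjoin ℂ (Set.range x)) K := hx.isAlgebraic
    obtain ⟨p, hp0, hp⟩ := h1.isAlgebraic k
    let e := hx.1.aevalEquiv.symm
    refine ⟨p.map e.toAlgHom.toRingHom, ?_, ?_⟩
    · rw [Ne, Polynomial.map_eq_zero_iff]
      · exact hp0
      · exact e.injective
    · change Polynomial.eval₂ ψ.toRingHom k (p.map e.toAlgHom.toRingHom) = 0
      rw [Polynomial.eval₂_map]
      have h2 : ψ.toRingHom.comp e.toAlgHom.toRingHom =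
          algebraMap (Algebra.adjoin ℂ (Set.range x)) K := by
        apply RingHom.ext
        intro a
        have h3 := hx.1.algebraMap_aevalEquiv (e a)
        rw [AlgEquiv.apply_symm_apply] at h3
        exact h3.symm
      rw [h2]
      exact hp
  have hex : ∃ d : ℕ, ∃ p : Polynomial (MvPolynomial (Fin 2) ℂ), p ≠ 0 ∧ ev p = 0 ∧
      p.natDegree = d := by
    obtain ⟨p, h1, h2⟩ := halg
    exact ⟨_, p, h1, h2, rfl⟩
  obtain ⟨p, hp0, hp, hpd⟩ := Nat.find_spec hex
  have hmin : ∀ q : Polynomial (MvPolynomial (Fin 2) ℂ), q ≠ 0 → ev q = 0 →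
      p.natDegree ≤ q.natDegree := by
    intro q hq0 hq
    rw [hpd]
    exact Nat.find_min' hex ⟨q, hq0, hq, rfl⟩
  have hdeg : p.natDegree ≠ 0 := by
    intro h0
    rw [Polynomial.eq_C_of_natDegree_eq_zero h0] at hp hp0
    have h1 : ψ (p.coeff 0) = 0 := by
      have : ev (Polynomial.C (p.coeff 0)) = ψ (p.coeff 0) := Polynomial.eval₂_C _ _
      rw [← this]
      exact hp
    apply hp0
    rw [(injective_iff_map_eq_zero _).1 hx.1 _ h1, Polynomial.C_0]
  have hder : ev (Polynomial.derivative p) ≠ 0 := by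
    intro h0
    have h1 : Polynomial.derivative p ≠ 0 := by
      intro h2
      exact hdeg (Polynomial.derivative_eq_zero.1 h2)
    have h2 := hmin _ h1 h0
    have h3 := Polynomial.natDegree_derivative_lt hdeg
    omega
  let Θ : Polynomial (MvPolynomial (Fin 2) ℂ) →+* MvPolynomial (Fin 3) ℂ :=
    Polynomial.eval₂RingHom (rename (Fin.castSucc : Fin 2 → Fin 3)).toRingHom (X 2)
  have hΘ : ∀ q, aeval ![x 0, x 1, k] (Θ q) = ev q := by
    intro q
    have h1 : (aeval ![x 0, x 1, k] : MvPolynomial (Fin 3) ℂ →ₐ[ℂ] K).toRingHom.comp Θ = ev := by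
      apply Polynomial.ringHom_ext
      · intro a
        change aeval ![x 0, x 1, k] (Θ (Polynomial.C a)) = ev (Polynomial.C a)
        have e1 : Θ (Polynomial.C a) = rename (Fin.castSucc : Fin 2 → Fin 3) a :=
          Polynomial.eval₂_C _ _
        have e2 : ev (Polynomial.C a) = ψ a := Polynomial.eval₂_C _ _
        rw [e1, e2, aeval_rename]
        congr 1
        congr 1
        funext i
        fin_cases i <;> rfl
      · change aeval ![x 0, x 1, k] (Θ Polynomial.X) = ev Polynomial.X
        have e1 : Θ Polynomial.X = X 2 := Polynomial.eval₂_X _ _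
        have e2 : ev Polynomial.X = k := Polynomial.eval₂_X _ _
        rw [e1, e2, aeval_X]
        rfl
    exact congrArg (fun f => f q) (congrArg (fun f : _ →+* K => (f : _ → K)) h1)
  have hd : ∀ q, pderiv 2 (Θ q) = Θ (Polynomial.derivative q) := by
    intro q
    induction q using Polynomial.induction_on' with
    | add p q hp hq => rw [map_add, map_add, hp, hq, map_add, map_add]
    | monomial n a =>
      have e1 : ∀ (n : ℕ) (a : MvPolynomial (Fin 2) ℂ), Θ (Polynomial.monomial n a) =
          rename (Fin.castSucc : Fin 2 → Fin 3) a * X 2 ^ n := fun n a =>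
        Polynomial.eval₂_monomial _ _
      rw [Polynomial.derivative_monomial, e1, e1, Derivation.leibniz, pderiv_rename_castSucc,
        smul_zero, add_zero, Derivation.leibniz_pow, pderiv_X_self, map_mul, map_natCast]
      simp only [smul_eq_mul, nsmul_eq_mul, mul_one]
      ring
  refine ⟨Θ p, ?_, ?_⟩
  · rw [hΘ]
    exact hp
  · rw [hd, hΘ]
    exact hder

/-- a derivation of the value of a polynomial -/
theorem der_aeval (D : Derivation ℂ K K) {m : ℕ} (v : Fin m → K) (G : MvPolynomial (Fin m) ℂ) :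
    D (aeval v G) = ∑ i, aeval v (pderiv i G) * D (v i) := by
  induction G using MvPolynomial.induction_on with
  | C a => simp
  | add p q hp hq =>
    rw [map_add, map_add, hp, hq, ← Finset.sum_add_distrib]
    refine Finset.sum_congr rfl fun i _ => ?_
    rw [map_add, map_add, add_mul]
  | mul_X p j hp =>
    rw [map_mul, aeval_X, Derivation.leibniz, hp]
    have h1 : ∀ i, aeval v (pderiv i (p * X j)) * D (v i) =
        v j * (aeval v (pderiv i p) * D (v i)) + aeval v p * (if i = j then D (v j) else 0) := by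
      intro i
      rw [Derivation.leibniz, map_add, smul_eq_mul, smul_eq_mul, map_mul, map_mul, aeval_X]
      by_cases h : i = j
      · subst h
        rw [pderiv_X_self, map_one, if_pos rfl]
        ring
      · rw [pderiv_X_of_ne (Ne.symm h), map_zero, if_neg h]
        ring
    simp only [h1]
    rw [Finset.sum_add_distrib, ← Finset.mul_sum, ← Finset.mul_sum, Finset.sum_ite_eq',
      if_pos (Finset.mem_univ j)]
    simp only [smul_eq_mul]
    ring

/-- the derivative of the value of a polynomial -/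
theorem hasFDerivAt_eval {E : Type*} [NormedAddCommGroup E] [NormedSpace ℂ E] {m : ℕ}
    {v : E → Fin m → ℂ} {v' : Fin m → E →L[ℂ] ℂ} {p : E}
    (h : ∀ i, HasFDerivAt (fun q => v q i) (v' i) p) (G : MvPolynomial (Fin m) ℂ) :
    HasFDerivAt (fun q => eval (v q) G) (∑ i, eval (v p) (pderiv i G) • v' i) p := by
  have hsum : ∀ (L : Fin m → E →L[ℂ] ℂ) (q : E), (∑ i, L i) q = ∑ i, L i q := fun L q => by
    rw [ContinuousLinearMap.sum_apply]
  induction G using MvPolynomial.induction_on with
  | C a =>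
    simp only [eval_C]
    refine (hasFDerivAt_const a p).congr_fderiv ?_
    ext q
    rw [hsum]
    simp
  | add f g hf hg =>
    simp only [map_add]
    refine (hf.add hg).congr_fderiv ?_
    ext q
    rw [hsum]
    change (∑ i, eval (v p) (pderiv i f) • v' i) q + (∑ i, eval (v p) (pderiv i g) • v' i) q =
      ∑ i, (eval (v p) (pderiv i f) + eval (v p) (pderiv i g)) * v' i q
    rw [hsum, hsum, ← Finset.sum_add_distrib]
    refine Finset.sum_congr rfl fun i _ => ?_
    change eval (v p) (pderiv i f) * v' i q + eval (v p) (pderiv i g) * v' i q = _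
    ring
  | mul_X f j hf =>
    simp only [map_mul, eval_X]
    refine (hf.mul (h j)).congr_fderiv ?_
    ext q
    rw [hsum]
    change eval (v p) f * v' j q + v p j * (∑ i, eval (v p) (pderiv i f) • v' i) q =
      ∑ i, eval (v p) (pderiv i (f * X j)) * v' i q
    rw [hsum]
    have h2 : ∀ i, eval (v p) (pderiv i (f * X j)) * v' i q =
        v p j * (eval (v p) (pderiv i f) * v' i q) +
          (if i = j then eval (v p) f * v' j q else 0) := by
      intro i
      rw [Derivation.leibniz, map_add, smul_eq_mul, smul_eq_mul, map_mul, map_mul, eval_X]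
      by_cases h : i = j
      · subst h
        rw [pderiv_X_self, map_one, if_pos rfl]
        ring
      · rw [pderiv_X_of_ne (Ne.symm h), map_zero, if_neg h]
        ring
    simp only [h2]
    rw [Finset.sum_add_distrib, ← Finset.mul_sum, Finset.sum_ite_eq', if_pos (Finset.mem_univ j),
      add_comm]
    rfl

variable {n : ℕ} {y : Fin (n + 1) → K} {u : Fin (n + 1) → ℂ}

theorem val_mul'' {L : Type} [Field L] [Algebra ℂ L] {v : Fin (n + 1) → L}
    (G H : MvPolynomial (Fin (n + 1)) ℂ) : val v (G * H) = val v G * val v H := map_mul _ _ _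

theorem val_add'' {L : Type} [Field L] [Algebra ℂ L] {v : Fin (n + 1) → L}
    (G H : MvPolynomial (Fin (n + 1)) ℂ) : val v (G + H) = val v G + val v H := map_add _ _ _

theorem ValAt.add {k l : K} {c d : ℂ} (h1 : ValAt y k u c) (h2 : ValAt y l u d) :
    ValAt y (k + l) u (c + d) := by
  obtain ⟨d1, A1, B1, hA1, hB1, hn1, he1, hv1, hc1⟩ := h1
  obtain ⟨d2, A2, B2, hA2, hB2, hn2, he2, hv2, hc2⟩ := h2
  refine ⟨d1 + d2, A1 * B2 + B1 * A2, B1 * B2, (hA1.mul hB2).add (hB1.mul hA2), hB1.mul hB2, ?_, ?_,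
    ?_, ?_⟩
  · rw [val_mul'']
    exact mul_ne_zero hn1 hn2
  · rw [he1, he2, div_add_div _ _ hn1 hn2, val_add'', val_mul'', val_mul'', val_mul'']
  · rw [val_mul'']
    exact mul_ne_zero hv1 hv2
  · rw [hc1, hc2, div_add_div _ _ hv1 hv2, val_add'', val_mul'', val_mul'', val_mul'']

theorem ValAt.mul {k l : K} {c d : ℂ} (h1 : ValAt y k u c) (h2 : ValAt y l u d) :
    ValAt y (k * l) u (c * d) := by
  obtain ⟨d1, A1, B1, hA1, hB1, hn1, he1, hv1, hc1⟩ := h1
  obtain ⟨d2, A2, B2, hA2, hB2, hn2, he2, hv2, hc2⟩ := h2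
  refine ⟨d1 + d2, A1 * A2, B1 * B2, hA1.mul hA2, hB1.mul hB2, ?_, ?_, ?_, ?_⟩
  · rw [val_mul'']
    exact mul_ne_zero hn1 hn2
  · rw [he1, he2, div_mul_div_comm, val_mul'', val_mul'']
  · rw [val_mul'']
    exact mul_ne_zero hv1 hv2
  · rw [hc1, hc2, div_mul_div_comm, val_mul'', val_mul'']

theorem ValAt.const (c : ℂ) : ValAt y (algebraMap ℂ K c) u c := by
  refine ⟨0, C c, 1, isHomogeneous_C _ c, isHomogeneous_one _ _, ?_, ?_, ?_, ?_⟩
  · unfold val
    rw [map_one]
    exact one_ne_zero
  · unfold val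
    rw [aeval_C, map_one, div_one]
  · unfold val
    rw [map_one]
    exact one_ne_zero
  · unfold val
    rw [aeval_C, map_one, div_one]
    rfl

theorem ValAt.poly {m : ℕ} {v : Fin m → K} {a : Fin m → ℂ} (h : ∀ i, ValAt y (v i) u (a i))
    (G : MvPolynomial (Fin m) ℂ) : ValAt y (aeval v G) u (eval a G) := by
  induction G using MvPolynomial.induction_on with
  | C c =>
    rw [aeval_C, eval_C]
    exact ValAt.const c
  | add f g hf hg =>
    rw [map_add, map_add]
    exact hf.add hg
  | mul_X f j hf =>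
    rw [map_mul, map_mul, aeval_X, eval_X]
    exact hf.mul (h j)

theorem ValAt.unique (hu : u ∈ VarPts ℂ y) {k : K} {c d : ℂ} (h1 : ValAt y k u c)
    (h2 : ValAt y k u d) : c = d := by
  obtain ⟨d1, A1, B1, hA1, hB1, hn1, he1, hv1, hc1⟩ := h1
  obtain ⟨d2, A2, B2, hA2, hB2, hn2, he2, hv2, hc2⟩ := h2
  rw [hc1, hc2, div_eq_div_iff hv1 hv2]
  have h3 := he1.symm.trans he2
  rw [div_eq_div_iff hn1 hn2] at h3
  have h4 := hu.2 (A1 * B2 - A2 * B1) ⟨d1 + d2, (hA1.mul hB2).sub (by
    have := hA2.mul hB1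
    rwa [add_comm d2 d1] at this)⟩ (by
      unfold val at h3 ⊢
      rw [map_sub, map_mul, map_mul, h3, sub_self])
  unfold val at h4 ⊢
  rw [map_sub, map_mul, map_mul, sub_eq_zero] at h4
  exact h4

/-- **The derivatives of an algebraic function.** -/
theorem exists_gen {x : Fin 2 → K} {E : Fin 2 → Derivation ℂ K K} (hx : Dual x E) (k : K) :
    ∃ s : K, s ≠ 0 ∧ ∀ (u : Fin (n + 1) → ℂ) (a : ℂ × ℂ) (cs : ℂ) (e : Fin 2 → ℂ)
      (τ : ℂ × ℂ → ℂ) (τ' : ℂ × ℂ →L[ℂ] ℂ), u ∈ VarPts ℂ y → ValAt y k u (τ a) →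
      ValAt y s u cs → cs ≠ 0 → ValAt y (x 0) u a.1 → ValAt y (x 1) u a.2 →
      (∀ l, ValAt y (E l k) u (e l)) → HasFDerivAt τ τ' a →
      (∀ᶠ p in 𝓝 a, ∃ u' ∈ VarPts ℂ y, ValAt y (x 0) u' p.1 ∧ ValAt y (x 1) u' p.2 ∧
        ValAt y k u' (τ p)) → τ' (1, 0) = e 0 ∧ τ' (0, 1) = e 1 := by
  obtain ⟨G, hG, hGs⟩ := exists_rel hx.1 k
  refine ⟨_, hGs, ?_⟩
  intro u a cs e τ τ' hu hk hs hcs h0 h1 he hτ hnear
  set v : Fin 3 → K := ![x 0, x 1, k] with hv
  let w : ℂ × ℂ → Fin 3 → ℂ := fun p => ![p.1, p.2, τ p]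
  have hw : ∀ i, ValAt y (v i) u (w a i) := by
    intro i
    fin_cases i
    · exact h0
    · exact h1
    · exact hk
  have hcs' : cs = eval (w a) (pderiv 2 G) := hs.unique hu (ValAt.poly hw _)
  -- the relation along the surface
  have hrel : (fun p => eval (w p) G) =ᶠ[𝓝 a] fun _ => (0 : ℂ) := by
    filter_upwards [hnear] with p hp
    obtain ⟨u', hu', k0, k1, k2⟩ := hp
    have hw' : ∀ i, ValAt y (v i) u' (w p i) := by
      intro i
      fin_cases i
      · exact k0
      · exact k1
      · exact k2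
    have h3 := ValAt.poly hw' G
    rw [hG] at h3
    have h4 : ValAt y (0 : K) u' 0 := by
      have := ValAt.const (y := y) (u := u') (0 : ℂ)
      rwa [map_zero] at this
    exact h3.unique hu' h4
  let v' : Fin 3 → (ℂ × ℂ →L[ℂ] ℂ) :=
    ![ContinuousLinearMap.fst ℂ ℂ ℂ, ContinuousLinearMap.snd ℂ ℂ ℂ, τ']
  have hwd : ∀ i, HasFDerivAt (fun p => w p i) (v' i) a := by
    intro i
    fin_cases i
    · exact hasFDerivAt_fst
    · exact hasFDerivAt_snd
    · exact hτ
  have h3 := hasFDerivAt_eval hwd G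
  have h4 := h3.unique ((hasFDerivAt_const (0 : ℂ) a).congr_of_eventuallyEq hrel)
  rw [Fin.sum_univ_three] at h4
  -- the relation in the field
  have hK : ∀ l, ValAt y (E l (aeval v G)) u (eval (w a) (pderiv 0 G) * (if l = 0 then 1 else 0) +
      eval (w a) (pderiv 1 G) * (if l = 1 then 1 else 0) + eval (w a) (pderiv 2 G) * e l) := by
    intro l
    rw [der_aeval, Fin.sum_univ_three]
    refine ((ValAt.poly hw _).mul ?_).add ((ValAt.poly hw _).mul ?_) |>.add
      ((ValAt.poly hw _).mul (he l))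
    · have := hx.2 l 0
      change ValAt y (E l (x 0)) u _
      rw [this]
      have h5 := ValAt.const (y := y) (u := u) (if l = 0 then (1 : ℂ) else 0)
      split_ifs at h5 ⊢
      · rwa [map_one] at h5
      · rwa [map_zero] at h5
    · have := hx.2 l 1
      change ValAt y (E l (x 1)) u _
      rw [this]
      have h5 := ValAt.const (y := y) (u := u) (if l = 1 then (1 : ℂ) else 0)
      split_ifs at h5 ⊢
      · rwa [map_one] at h5
      · rwa [map_zero] at h5
  have hK0 : ∀ l, eval (w a) (pderiv 0 G) * (if l = 0 then 1 else 0) +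
      eval (w a) (pderiv 1 G) * (if l = 1 then 1 else 0) + eval (w a) (pderiv 2 G) * e l = 0 := by
    intro l
    have h5 := hK l
    rw [hG, map_zero] at h5
    have h6 : ValAt y (0 : K) u 0 := by
      have := ValAt.const (y := y) (u := u) (0 : ℂ)
      rwa [map_zero] at this
    exact h5.unique hu h6
  rw [← hcs'] at hK0 h4
  have e0 := hK0 0
  have e1 := hK0 1
  have f0 := congrArg (fun L : ℂ × ℂ →L[ℂ] ℂ => L (1, 0)) h4
  have f1 := congrArg (fun L : ℂ × ℂ →L[ℂ] ℂ => L (0, 1)) h4
  simp only [v', Matrix.cons_val_zero, Matrix.cons_val_one, Matrix.cons_val,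
    _root_.add_apply, _root_.smul_apply, ContinuousLinearMap.coe_fst',
    ContinuousLinearMap.coe_snd', smul_eq_mul, _root_.zero_apply, mul_one, mul_zero,
    add_zero, zero_add] at f0 f1
  rw [if_pos rfl, if_neg (by decide)] at e0
  rw [if_neg (by decide), if_pos rfl] at e1
  constructor
  · apply mul_left_cancel₀ hcs
    linear_combination f0 - e0
  · apply mul_left_cancel₀ hcs
    linear_combination f1 - e1

end Pool.Agent.N155
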