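import Pool.Agent.N155.L.SDefs

/-!
Pluricanonically embedded surfaces, curves in them whose derivative is bounded below, and
algebraically degenerate curves.
-/

set_option autoImplicit false

open Filter Topology FF LinearAlgebra.Projectivization Pool.Agent.W602.GT Pool.Agent.TH143.GT

namespace Pool.Agent.N155

variable {n : ℕ} {K : Type} [Field K] [Algebra ℂ K]

/-- The smooth projective surface with function field `K` and generic point `y` is embedded by the
`N`-canonical forms `ω 0`, ..., `ω n`, which generate the `N`-canonical sheaf: they are regular,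
`(ω 0 : ⋯ : ω n) = (y 0 : ⋯ : y n)`, and `ω i` has no zeros where the coordinate `y i` does not
vanish, that is, `ω i` has the value of order zero on the derivations dual to affine coordinates
`y j / y i`, `y k / y i` at all prime divisors with centre in `y i ≠ 0` at which these derivations
are regular. (So the canonical bundle is ample.) -/
structure Pluricanonical (N : ℕ) (ω : Fin (n + 1) → (Fin 2 → Derivation ℂ K K) → K)
    (y : Fin (n + 1) → K) : Prop where
  pos : 0 < N
  form : ∀ l, IsPluri N (ω l)
  ne : ∃ l D, ω l D ≠ 0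
  reg : ∀ v : Place ℂ K, Divisorial 2 v → ∀ l, RegAt v (ω l)
  ratio : ∀ l m D, ω l D * y m = ω m D * y l
  gen : ∀ v : Place ℂ K, Divisorial 2 v → ∀ (i j k : Fin (n + 1)) (E : Fin 2 → Derivation ℂ K K),
    y i ≠ 0 → (∀ l, v.Reg (y l / y i)) → Dual ![y j / y i, y k / y i] E → (∀ l, DerReg v (E l)) →
    v.ord (ω i E) = 0

/-- The derivative of the curve `f` in projective space is nowhere smaller than some positive
constant, with respect to the Fubini-Study metric: in local homogeneous coordinates `g`, the maximum
of the numbers `|g i * (g j)' - g j * (g i)'| / ‖g‖ ^ 2` is at least `c`. -/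
def DerBelow (f : ℂ → ℙ ℂ (Fin (n + 1) → ℂ)) : Prop :=
  ∃ c : ℝ, 0 < c ∧ ∀ (V : Set ℂ) (g : ℂ → Fin (n + 1) → ℂ), IsOpen V → DifferentiableOn ℂ g V →
    (∀ w ∈ V, ∃ h : g w ≠ 0, f w = Projectivization.mk ℂ (g w) h) →
    ∀ z ∈ V, ∃ i j, c * ∑ k, ‖g z k‖ ^ 2 ≤
      ‖g z i * deriv (fun w => g w j) z - g z j * deriv (fun w => g w i) z‖

/-- The curve `f` in the projective variety with generic point `y` is algebraically degenerate: it is
contained in a hypersurface which does not contain the variety. -/
def Degenerate (y : Fin (n + 1) → K) (f : ℂ → ℙ ℂ (Fin (n + 1) → ℂ)) : Prop :=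
  ∃ G : MvPolynomial (Fin (n + 1)) ℂ, IsForm G ∧ val y G ≠ 0 ∧ ∀ z, val (f z).rep G = 0

end Pool.Agent.N155
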