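import Pool.Agent.N155.A.Chd
import Pool.Agent.N155.A.PDefs
import Pool.Agent.N155.L.Ana

/-! Pluricanonically embedded surfaces, and their charts. -/

set_option autoImplicit false

open Filter Topology Metric Set MvPolynomial

namespace Pool.Agent.N155

open FF Pool.Agent.Y190.OP Pool.Agent.W602.GT Pool.Agent.TH143.GT

variable {n : ℕ} {K : Type} [Field K] [Algebra ℂ K]

variable {ι : Type} {F : ι → MvPolynomial (Fin (n + 1)) ℂ} {y : Fin (n + 1) → K}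

theorem Cht.mono {i j k : Fin (n + 1)} {E : Fin 2 → Derivation ℂ K K} {U : Set (ℂ × ℂ)}
    {Ψ : ℂ × ℂ → Fin (n + 1) → ℂ} {O O' : Set (Mat (n + 1))} (h : Cht y i j k E U Ψ O)
    (hO' : IsOpen O') (hsub : O' ⊆ O) : Cht y i j k E U Ψ O' where
  yi := h.yi
  dual := h.dual
  Oo := hO'
  nz := fun M hM => h.nz M (hsub hM)
  Uo := h.Uo
  an := h.an
  mem := h.mem
  Ψi := h.Ψi
  Ψj := h.Ψj
  Ψk := h.Ψk
  graph := fun M hM => h.graph M ⟨hsub hM.1, hM.2⟩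

theorem Pluricanonical.ne' {N : ℕ} {ω : Fin (n + 1) → (Fin 2 → Derivation ℂ K K) → K}
    (hω : Pluricanonical N ω y) {i : Fin (n + 1)} (hi : y i ≠ 0) {x : Fin 2 → K}
    {E : Fin 2 → Derivation ℂ K K} (hx : Dual x E) : ω i E ≠ 0 := by
  obtain ⟨l, D, hD⟩ := hω.ne
  apply pluri_ne (hω.form i) hx (D := D)
  intro h0
  have h1 := hω.ratio l i D
  rw [h0, zero_mul] at h1
  exact mul_ne_zero hD hi h1

/-- a chart with bounds -/
structure Chb (y : Fin (n + 1) → K) (R : ∀ h : K, Frac y h)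
    (ω : Fin (n + 1) → (Fin 2 → Derivation ℂ K K) → K) where
  i : Fin (n + 1)
  j : Fin (n + 1)
  k : Fin (n + 1)
  E : Fin 2 → Derivation ℂ K K
  U : Set (ℂ × ℂ)
  Ψ : ℂ × ℂ → Fin (n + 1) → ℂ
  O : Set (Mat (n + 1))
  C : ℝ
  cht : Cht y i j k E U Ψ O
  C0 : 0 ≤ C
  bq : ∀ l, ∀ M ∈ O ∩ TX y, good R (ω l E) M → ‖ev R (ω l E) M‖ ≤ C
  bi : ∀ M ∈ O ∩ TX y, good R (ω i E)⁻¹ M → ‖ev R (ω i E)⁻¹ M‖ ≤ C
  lip : ∀ r, ∀ M ∈ O, ∀ M' ∈ O, ‖qv (X r) (X i) M - qv (X r) (X i) M'‖ ≤ C * ‖M - M'‖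

theorem exists_chb (hX : SmoothSurface F y) (R : ∀ h : K, Frac y h) {N : ℕ}
    {ω : Fin (n + 1) → (Fin 2 → Derivation ℂ K K) → K} (hω : Pluricanonical N ω y) {M0 : Mat (n + 1)}
    (hM0 : M0 ∈ TX y) : ∃ c : Chb y R ω, M0 ∈ c.O := by
  classical
  obtain ⟨i, j, k, E, U, Ψ, O, hM0O, hc, hq⟩ := exists_cht hX R hM0
  have h1 : ∀ l, ∃ O' ∈ 𝓝 M0, ∃ C : ℝ, ∀ M ∈ O' ∩ TX y, good R (ω l E) M →
      ‖ev R (ω l E) M‖ ≤ C := fun l => hq _ fun v hv _ hE => hω.reg v hv l E hE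
  choose O1 hO1 C1 hC1 using h1
  obtain ⟨O2, hO2, C2, hC2⟩ := hq (ω i E)⁻¹ fun v hv hr hE => by
    right
    rw [v.ord_inv, hω.gen v hv i j k E hc.yi hr hc.dual hE]
    exact (neg_zero (G := ℤ)).ge
  have h3 : ∀ r : Fin (n + 1), ∃ (C : ℝ) (O : Set (Mat (n + 1))), 0 ≤ C ∧ O ∈ 𝓝 M0 ∧
      ∀ M ∈ O, ∀ M' ∈ O, ‖qv (X r) (X i) M - qv (X r) (X i) M'‖ ≤ C * ‖M - M'‖ :=
    fun r => lip_qv (hc.nz M0 hM0O)
  choose C3 O3 hC3 hO3 hL3 using h3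
  obtain ⟨O', hsub, hO', hM0O'⟩ := _root_.mem_nhds_iff.1 (inter_mem (inter_mem
    (hc.Oo.mem_nhds hM0O) ((iInter_mem (s := O1)).2 hO1)) (inter_mem hO2
      ((iInter_mem (s := O3)).2 hO3)))
  set C : ℝ := (∑ l, |C1 l|) + |C2| + ∑ r, C3 r with hC
  have s1 : ∀ l, |C1 l| ≤ ∑ l, |C1 l| := fun l =>
    Finset.single_le_sum (f := fun l => |C1 l|) (fun _ _ => abs_nonneg _) (Finset.mem_univ l)
  have s3 : ∀ l, C3 l ≤ ∑ l, C3 l := fun l =>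
    Finset.single_le_sum (f := fun l => C3 l) (fun _ _ => hC3 _) (Finset.mem_univ l)
  have t1 : 0 ≤ ∑ l, |C1 l| := Finset.sum_nonneg fun _ _ => abs_nonneg _
  have t3 : 0 ≤ ∑ l, C3 l := Finset.sum_nonneg fun _ _ => hC3 _
  have t2 := abs_nonneg C2
  refine ⟨{ i := i, j := j, k := k, E := E, U := U, Ψ := Ψ, O := O', C := C,
            cht := hc.mono hO' fun M hM => (hsub hM).1.1
            C0 := by positivity
            bq := fun l M hM hg => ?_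
            bi := fun M hM hg => ?_
            lip := fun r M hM M' hM' => ?_ }, hM0O'⟩
  · have h4 := hC1 l M ⟨mem_iInter.1 (hsub hM.1).1.2 l, hM.2⟩ hg
    have h5 := le_abs_self (C1 l)
    have h6 := s1 l
    linarith
  · have h4 := hC2 M ⟨(hsub hM.1).2.1, hM.2⟩ hg
    have h5 := le_abs_self C2
    linarith
  · have h4 := hL3 r M (mem_iInter.1 (hsub hM).2.2 r) M' (mem_iInter.1 (hsub hM').2.2 r)
    refine h4.trans (mul_le_mul_of_nonneg_right ?_ (norm_nonneg _))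
    have h6 := s3 r
    linarith

end Pool.Agent.N155
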