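import Pool.Agent.N155.A.Ule

/-! Exact trackings are affine. -/

set_option autoImplicit false

open Filter Topology Metric Set MvPolynomial

namespace Pool.Agent.N155

open Pool.Agent.Y190.OP

variable {N : ℕ} {T : Set (Mat N)} {c0 : ℝ} {𝒞 : (ℂ → Mat N) → Prop} {r c1 η δ : ℝ}
  {P Q : ℂ → Mat N}

/-- an exact tracking is Lipschitz -/
theorem Trs.lip (h : Cls T c0 𝒞) (hi : Inj r c1 𝒞) (hr : 0 < r) (hc1 : 0 < c1) (hP : 𝒞 P)
    (hQ : 𝒞 Q) {R : ℝ} {g : ℂ → ℂ} (ht : Trs η r 0 R P Q g) {z z' : ℂ}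
    (hz : z ∈ closedBall (0 : ℂ) R) (hz' : z' ∈ closedBall (0 : ℂ) R) (hzz : ‖z - z'‖ ≤ η) :
    ‖g z - g z'‖ ≤ 2 / c1 * ‖z - z'‖ := by
  have h1 := imp h hi hP hQ (ht.1 z hz) (ht.1 z' hz') ((ht.2 z hz z' hz' hzz).trans (by linarith))
  rw [div_mul_eq_mul_div, le_div_iff₀ hc1]
  linarith

theorem Trs.cont (h : Cls T c0 𝒞) (hi : Inj r c1 𝒞) (hr : 0 < r) (hc1 : 0 < c1) (hη : 0 < η)
    (hP : 𝒞 P) (hQ : 𝒞 Q) {R : ℝ} {g : ℂ → ℂ} (ht : Trs η r 0 R P Q g) :
    ContinuousOn g (closedBall 0 R) := by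
  intro z hz
  rw [ContinuousWithinAt, tendsto_iff_norm_sub_tendsto_zero]
  have h1 : Tendsto (fun w => 2 / c1 * ‖w - z‖) (𝓝[closedBall 0 R] z) (𝓝 0) := by
    have h2 : Continuous fun w : ℂ => 2 / c1 * ‖w - z‖ := by fun_prop
    have h3 := (h2.tendsto z).mono_left (nhdsWithin_le_nhds (s := closedBall 0 R))
    simpa using h3
  refine squeeze_zero' (Eventually.of_forall fun _ => norm_nonneg _) ?_ h1
  have h4 : ∀ᶠ w in 𝓝[closedBall 0 R] z, w ∈ closedBall z η :=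
    mem_nhdsWithin_of_mem_nhds (closedBall_mem_nhds z hη)
  filter_upwards [h4, self_mem_nhdsWithin] with w hw hw'
  rw [mem_closedBall, dist_eq_norm] at hw
  exact ht.lip h hi hr hc1 hP hQ hw' hz hw

theorem Trs.hol (h : Cls T c0 𝒞) (hi : Inj r c1 𝒞) (hr : 0 < r) (hc1 : 0 < c1) (hη : 0 < η)
    (hP : 𝒞 P) (hQ : 𝒞 Q) {R : ℝ} {g : ℂ → ℂ} (ht : Trs η r 0 R P Q g) :
    DifferentiableOn ℂ g (ball 0 R) :=
  hol_of_exact (h.hol _ hP) (h.hol _ hQ) (h.im hQ) isOpen_ball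
    ((ht.cont h hi hr hc1 hη hP hQ).mono ball_subset_closedBall) fun z hz =>
    sub_eq_zero.1 (norm_eq_zero.1 (le_antisymm (ht.1 z (ball_subset_closedBall hz))
      (norm_nonneg _)))

theorem Trs.deriv_le (h : Cls T c0 𝒞) (hi : Inj r c1 𝒞) (hr : 0 < r) (hc1 : 0 < c1) (hη : 0 < η)
    (hP : 𝒞 P) (hQ : 𝒞 Q) {R : ℝ} {g : ℂ → ℂ} (ht : Trs η r 0 R P Q g) {z : ℂ}
    (hz : z ∈ ball (0 : ℂ) R) : ‖deriv g z‖ ≤ 2 / c1 := by
  apply norm_deriv_le_of_lip' (by positivity)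
  filter_upwards [isOpen_ball.mem_nhds hz, closedBall_mem_nhds z hη] with w hw1 hw2
  rw [mem_closedBall, dist_eq_norm] at hw2
  exact ht.lip h hi hr hc1 hP hQ (ball_subset_closedBall hw1) (ball_subset_closedBall hz) hw2

/-- an exact tracking extends to all discs -/
theorem Trs.extend_all (h : Cls T c0 𝒞) (hi : Inj r c1 𝒞) (hr : 0 < r) (hc1 : 0 < c1)
    (hη : 0 < η) (hsm : 2 * η ≤ c1 * (r / 8)) {η0 : ℝ} (hηη : η < η0)
    (hule : ∀ H1 H2, 𝒞 H1 → 𝒞 H2 →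
      ∀ (b v : ℂ) (S : Set ℂ) (g : ℂ → ℂ), IsOpen S → b ∈ closure S → Tendsto g (𝓝[S] b) (𝓝 v) →
      (∀ z ∈ S, H1 z = H2 (g z)) → H1 b = H2 v →
      ∀ z ∈ ball b η0, ∃ w : ℂ, ‖w - v‖ ≤ r / 2 ∧ H1 z = H2 w)
    (hP : 𝒞 P) (hQ : 𝒞 Q) {R : ℝ} (hR : 0 < R) {g : ℂ → ℂ} (ht : Trs η r 0 R P Q g) (k : ℕ) :
    ∃ g' : ℂ → ℂ, (∀ z ∈ closedBall (0 : ℂ) R, g' z = g z) ∧ Trs η r 0 (R + k * η) P Q g' := by
  induction k with
  | zero =>
    refine ⟨g, fun z _ => rfl, ?_⟩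
    rwa [Nat.cast_zero, zero_mul, add_zero]
  | succ k ih =>
    obtain ⟨g1, hg1, ht1⟩ := ih
    set Rk : ℝ := R + k * η with hRk
    have hRk0 : 0 < Rk := by positivity
    have hcont := ht1.cont h hi hr hc1 hη hP hQ
    have hex : ∀ z ∈ closedBall (0 : ℂ) Rk, P z = Q (g1 z) := fun z hz =>
      sub_eq_zero.1 (norm_eq_zero.1 (le_antisymm (ht1.1 z hz) (norm_nonneg _)))
    obtain ⟨g2, hg2, ht2⟩ := ht1.extend h hi hr hc1 hη (by linarith) hP hQ hRk0.le (by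
      intro z hz1 hz2
      have hb := rp_mem hRk0.le z
      obtain ⟨w, hw1, hw2⟩ := hule P Q hP hQ (rp Rk z) (g1 (rp Rk z)) (ball 0 Rk) g1 isOpen_ball
        (by rw [closure_ball _ hRk0.ne']; exact hb)
        ((hcont _ hb).mono_left (nhdsWithin_mono _ ball_subset_closedBall))
        (fun w hw => hex w (ball_subset_closedBall hw)) (hex _ hb) z (by
          rw [mem_ball, dist_eq_norm]
          exact (rp_dist hRk0.le hη.le hz2).trans_lt hηη)
      refine ⟨w, hw1, ?_⟩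
      rw [hw2, sub_self, norm_zero])
    refine ⟨g2, fun z hz => ?_, ?_⟩
    · rw [hg2 z (closedBall_subset_closedBall (by
        have : 0 ≤ (k : ℝ) * η := by positivity
        linarith) hz), hg1 z hz]
    · have : R + ((k + 1 : ℕ) : ℝ) * η = Rk + η := by
        push_cast
        ring
      rwa [this]

theorem holP_aff {φ : ℂ → Mat N} (hφ : HolP univ φ) (α β : ℂ) :
    HolP univ (fun z => φ (α * z + β)) :=
  holP_comp hφ (g := fun z => α * z + β) (by fun_prop) (fun _ _ => mem_univ _)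

/-- **Exact trackings are affine.** -/
theorem Trs.affine (h : Cls T c0 𝒞) (hi : Inj r c1 𝒞) (hr : 0 < r) (hc1 : 0 < c1)
    (hη : 0 < η) (hsm : 2 * η ≤ c1 * (r / 8)) {η0 : ℝ} (hηη : η < η0)
    (hule : ∀ H1 H2, 𝒞 H1 → 𝒞 H2 →
      ∀ (b v : ℂ) (S : Set ℂ) (g : ℂ → ℂ), IsOpen S → b ∈ closure S → Tendsto g (𝓝[S] b) (𝓝 v) →
      (∀ z ∈ S, H1 z = H2 (g z)) → H1 b = H2 v →
      ∀ z ∈ ball b η0, ∃ w : ℂ, ‖w - v‖ ≤ r / 2 ∧ H1 z = H2 w)
    (hP : 𝒞 P) (hQ : 𝒞 Q) {R : ℝ} (hR : 0 < R) {g : ℂ → ℂ} (ht : Trs η r 0 R P Q g) :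
    ∃ α β : ℂ, (∀ z, P z = Q (α * z + β)) ∧ ∀ z ∈ ball (0 : ℂ) R, g z = α * z + β := by
  have h0 : (0 : ℂ) ∈ ball (0 : ℂ) R := mem_ball_self hR
  have hgd := ht.hol h hi hr hc1 hη hP hQ
  have hder : ∀ z ∈ ball (0 : ℂ) R, deriv g z = deriv g 0 := by
    intro z hz
    have hk : ∀ k : ℕ, 0 < k → ‖deriv g z - deriv g 0‖ ≤ 2 / c1 / (k * η) * ‖z - 0‖ := by
      intro k hk
      have hk' : (0 : ℝ) < k := by exact_mod_cast hk
      have hkη : 0 < (k : ℝ) * η := by positivity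
      obtain ⟨g', hg', ht'⟩ := ht.extend_all h hi hr hc1 hη hsm hηη hule hP hQ hR k
      have hgd' := ht'.hol h hi hr hc1 hη hP hQ
      have heq : ∀ w ∈ ball (0 : ℂ) R, deriv g w = deriv g' w := by
        intro w hw
        apply EventuallyEq.deriv_eq
        filter_upwards [isOpen_ball.mem_nhds hw] with v hv
        exact (hg' v (ball_subset_closedBall hv)).symm
      have hsub : ∀ w ∈ ball (0 : ℂ) R, ball w (k * η) ⊆ ball (0 : ℂ) (R + k * η) := by
        intro w hw v hv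
        rw [mem_ball_zero_iff] at hw ⊢
        rw [mem_ball, dist_eq_norm] at hv
        have := norm_add_le (v - w) w
        rw [sub_add_cancel] at this
        linarith
      have hdd : DifferentiableOn ℂ (deriv g') (ball 0 (R + k * η)) := hgd'.deriv isOpen_ball
      have hsub2 : ball (0 : ℂ) R ⊆ ball (0 : ℂ) (R + k * η) := ball_subset_ball (by linarith)
      have h2 : ∀ w ∈ ball (0 : ℂ) R, ‖deriv (deriv g') w‖ ≤ 2 / c1 / (k * η) := by
        intro w hw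
        have h3 : ∀ ρ : ℝ, 0 < ρ → ρ < k * η → ‖deriv (deriv g') w‖ ≤ 2 / c1 / ρ := by
          intro ρ hρ hρk
          have hcl : closedBall w ρ ⊆ ball (0 : ℂ) (R + k * η) :=
            (closedBall_subset_ball hρk).trans (hsub w hw)
          apply Complex.norm_deriv_le_of_forall_mem_sphere_norm_le hρ
          · exact (hdd.mono hcl).diffContOnCl_ball (subset_refl _)
          · intro v hv
            exact ht'.deriv_le h hi hr hc1 hη hP hQ (hcl (sphere_subset_closedBall hv))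
        have h4 : Tendsto (fun ρ : ℝ => 2 / c1 / ρ) (𝓝[<] (k * η)) (𝓝 (2 / c1 / (k * η))) := by
          apply Tendsto.mono_left _ nhdsWithin_le_nhds
          exact (tendsto_const_nhds.div tendsto_id hkη.ne')
        refine ge_of_tendsto h4 ?_
        have h5 : Ioo 0 ((k : ℝ) * η) ∈ 𝓝[<] ((k : ℝ) * η) := Ioo_mem_nhdsLT hkη
        filter_upwards [h5] with ρ hρ
        exact h3 ρ hρ.1 hρ.2
      rw [heq z hz, heq 0 h0]
      exact (convex_ball (0 : ℂ) R).norm_image_sub_le_of_norm_deriv_le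
        (fun w hw => (hdd w (hsub2 hw)).differentiableAt (isOpen_ball.mem_nhds (hsub2 hw)))
        (fun w hw => h2 w hw) h0 hz
    have h5 : Tendsto (fun k : ℕ => 2 / c1 / ((k : ℝ) * η) * ‖z - 0‖) atTop (𝓝 0) := by
      have h6 : Tendsto (fun k : ℕ => (k : ℝ) * η) atTop atTop :=
        tendsto_natCast_atTop_atTop.atTop_mul_const hη
      have h7 := (tendsto_const_nhds (x := 2 / c1)).div_atTop h6
      have h8 := h7.mul_const ‖z - 0‖
      rwa [zero_mul] at h8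
    have h6 : ‖deriv g z - deriv g 0‖ ≤ 0 := by
      refine ge_of_tendsto h5 ?_
      filter_upwards [eventually_gt_atTop 0] with k hk'
      exact hk k hk'
    exact sub_eq_zero.1 (norm_eq_zero.1 (le_antisymm h6 (norm_nonneg _)))
  have haff : ∀ z ∈ ball (0 : ℂ) R, g z = deriv g 0 * z + g 0 := by
    intro z hz
    have h1 := (convex_ball (0 : ℂ) R).norm_image_sub_le_of_norm_deriv_le
      (f := fun w => g w - deriv g 0 * w) (C := 0)
      (fun w hw => ((hgd w hw).differentiableAt (isOpen_ball.mem_nhds hw)).sub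
        (differentiableAt_id.const_mul _)) (fun w hw => by
          have h2 := (((hgd w hw).differentiableAt (isOpen_ball.mem_nhds hw)).hasDerivAt).sub
            ((hasDerivAt_id w).const_mul (deriv g 0))
          rw [mul_one, hder w hw, sub_self] at h2
          have h3 : deriv (fun w => g w - deriv g 0 * w) w = 0 := h2.deriv
          rw [h3, norm_zero]) h0 hz
    rw [zero_mul] at h1
    have h2 := sub_eq_zero.1 (norm_eq_zero.1 (le_antisymm h1 (norm_nonneg _)))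
    simp only [mul_zero, sub_zero] at h2
    linear_combination h2
  refine ⟨deriv g 0, g 0, fun z => ?_, haff⟩
  refine holP_ext (h.hol _ hP) (holP_aff (h.hol _ hQ) _ _) (z0 := 0) ?_ z
  filter_upwards [isOpen_ball.mem_nhds h0] with w hw
  rw [← haff w hw]
  exact sub_eq_zero.1 (norm_eq_zero.1 (le_antisymm (ht.1 w (ball_subset_closedBall hw))
    (norm_nonneg _)))

/-- the bounds of the linear part -/
theorem Cls.alpha (h : Cls T c0 𝒞) (hP : 𝒞 P) (hQ : 𝒞 Q) {α β : ℂ}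
    (heq : ∀ z, P z = Q (α * z + β)) : c0 / 2 ≤ ‖α‖ ∧ ‖α‖ ≤ 2 / c0 := by
  have hpos := h.pos
  have key : ∀ {P Q : ℂ → Mat N}, 𝒞 P → 𝒞 Q → ∀ {α β : ℂ}, (∀ z, P z = Q (α * z + β)) →
      c0 / 2 ≤ ‖α‖ := by
    intro P Q hP hQ α β heq
    have h1 : ‖fderiv ℝ P 0‖ ≤ 2 * ‖α‖ := by
      apply norm_fderiv_le_of_lip' ℝ (by positivity)
      refine Eventually.of_forall fun z => ?_
      rw [heq z, heq 0]
      refine (h.lip hQ _ _).trans (le_of_eq ?_)
      have e1 : α * z + β - (α * 0 + β) = α * (z - 0) := by ring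
      rw [e1, norm_mul]
      ring
    have h2 := h.low P hP 0
    linarith
  have h1 := key hP hQ heq
  have hα : α ≠ 0 := by
    intro h0
    rw [h0, norm_zero] at h1
    linarith
  refine ⟨h1, ?_⟩
  have h2 := key hQ hP (α := α⁻¹) (β := -β * α⁻¹) (fun z => by
    rw [heq]
    congr 1
    field_simp
    ring)
  rw [norm_inv] at h2
  have h3 : 0 < ‖α‖ := norm_pos_iff.2 hα
  rw [le_div_iff₀ hpos]
  have h4 := mul_le_mul_of_nonneg_right h2 h3.le
  rw [inv_mul_cancel₀ h3.ne'] at h4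
  linarith

end Pool.Agent.N155
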