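import Pool.Agent.N155.A.Fnl
import Pool.Agent.N155.A.Ext

/-! The contraction of the leaf distance. -/

set_option autoImplicit false

open Filter Topology Metric Set MvPolynomial

namespace Pool.Agent.N155

open FF Pool.Agent.Y190.OP Pool.Agent.W602.GT Pool.Agent.TH143.GT

/-- the distance of the point `P z` to the part of the curve `Q` near the parameter `v` -/
noncomputable def EN {N : ℕ} (r : ℝ) (P Q : ℂ → Mat N) (z v : ℂ) : ℝ :=
  infDist (P z) (Q '' closedBall v r)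

section

variable {N : ℕ} {r : ℝ} {P Q : ℂ → Mat N}

theorem EN_nonneg (z v : ℂ) : 0 ≤ EN r P Q z v := infDist_nonneg

theorem EN_le {z v w : ℂ} (hw : ‖w - v‖ ≤ r) : EN r P Q z v ≤ ‖P z - Q w‖ := by
  rw [← dist_eq_norm]
  exact infDist_le_dist_of_mem ⟨w, by rwa [mem_closedBall, dist_eq_norm], rfl⟩

theorem EN_spec (hr : 0 ≤ r) (hQ : Continuous Q) (z v : ℂ) :
    ∃ w : ℂ, ‖w - v‖ ≤ r ∧ EN r P Q z v = ‖P z - Q w‖ := by
  have hc : IsCompact (Q '' closedBall v r) := (isCompact_closedBall v r).image hQ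
  obtain ⟨_, ⟨w, hw, rfl⟩, h⟩ := hc.exists_infDist_eq_dist
    ⟨Q v, v, mem_closedBall_self hr, rfl⟩ (P z)
  refine ⟨w, ?_, ?_⟩
  · rwa [mem_closedBall, dist_eq_norm] at hw
  · rw [← dist_eq_norm]
    exact h

end

theorem chain_gen {g : ℂ → ℂ} {R X' η : ℝ} (hstep : ∀ z ∈ closedBall (0 : ℂ) R,
    ∀ z' ∈ closedBall (0 : ℂ) R, ‖z - z'‖ ≤ η → ‖g z - g z'‖ ≤ X') {z z' : ℂ}
    (hz : z ∈ closedBall (0 : ℂ) R) (hz' : z' ∈ closedBall (0 : ℂ) R) {m : ℕ} (hm : 0 < m)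
    (hzz : ‖z - z'‖ ≤ m * η) : ‖g z - g z'‖ ≤ m * X' := by
  have hm' : (0 : ℝ) < m := by exact_mod_cast hm
  have hmem : ∀ j : ℕ, j ≤ m → z' + ((j / m : ℝ) : ℂ) * (z - z') ∈ closedBall (0 : ℂ) R := by
    intro j hj
    have h1 : (j / m : ℝ) ≤ 1 := by
      rw [div_le_one hm']
      exact_mod_cast hj
    have h2 := (convex_closedBall (0 : ℂ) R).add_smul_sub_mem hz' hz
      (t := (j / m : ℝ)) ⟨by positivity, h1⟩
    rwa [Complex.real_smul] at h2
  have h1 := chain_lin (c1 := 1) (X := X') (n := m)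
    (t := fun j => g (z' + ((j / m : ℝ) : ℂ) * (z - z'))) zero_le_one (fun j hj => by
      rw [one_mul]
      apply hstep _ (hmem _ hj) _ (hmem _ hj.le)
      have e1 : z' + (((j + 1 : ℕ) / m : ℝ) : ℂ) * (z - z') - (z' + ((j / m : ℝ) : ℂ) * (z - z')) =
          ((1 / m : ℝ) : ℂ) * (z - z') := by
        push_cast
        ring
      rw [e1, norm_mul, Complex.norm_real, Real.norm_of_nonneg (by positivity), one_div,
        inv_mul_le_iff₀ hm']
      exact hzz)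
  simp only [Nat.cast_zero, zero_div, Complex.ofReal_zero, zero_mul, add_zero, one_mul,
    div_self hm'.ne', Complex.ofReal_one, add_sub_cancel] at h1
  exact h1

variable {n : ℕ} {K : Type} [Field K] [Algebra ℂ K] {y : Fin (n + 1) → K}
  {ω : Fin (n + 1) → (Fin 2 → Derivation ℂ K K) → K} {N : ℕ}
  {ι : Type} {F : ι → MvPolynomial (Fin (n + 1)) ℂ}
  {c0 : ℝ} {𝒞 : (ℂ → Mat (n + 1)) → Prop} {r c1 η : ℝ}

/-- the contraction property -/
def CTt (y : Fin (n + 1) → K) (ρ δ θ η r : ℝ) (𝒞 : (ℂ → Mat (n + 1)) → Prop) : Prop :=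
  ∀ P Q, 𝒞 P → Cv y P → 𝒞 Q → ∀ (g : ℂ → ℂ) (z0 : ℂ),
    (∀ z ∈ closedBall z0 ρ, ‖P z - Q (g z)‖ ≤ δ) →
    (∀ z ∈ closedBall z0 ρ, ∀ z' ∈ closedBall z0 ρ, ‖z - z'‖ ≤ η → ‖g z - g z'‖ ≤ r) →
    ∀ a : ℂ, ∃ z ∈ closedBall z0 ρ,
      EN r P Q z0 (g z0) ≤ θ * (EN r P Q z (g z) * ‖Complex.exp (a * (z - z0))‖)

/-- **Contraction.** -/
theorem contr_leaf (hX : SmoothSurface F y) (R : ∀ h : K, Frac y h) (hω : Pluricanonical N ω y)
    (h : Cls (TX y) c0 𝒞) (hi : Inj r c1 𝒞) (hr : 0 < r) (hc1 : 0 < c1)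
    (hη : 0 < η) (hsm : 2 * η ≤ c1 * (r / 8)) {η0 : ℝ} (hηη : η < η0)
    (hule : ∀ H1 H2, 𝒞 H1 → 𝒞 H2 →
      ∀ (b v : ℂ) (S : Set ℂ) (g : ℂ → ℂ), IsOpen S → b ∈ closure S → Tendsto g (𝓝[S] b) (𝓝 v) →
      (∀ z ∈ S, H1 z = H2 (g z)) → H1 b = H2 v →
      ∀ z ∈ ball b η0, ∃ w : ℂ, ‖w - v‖ ≤ r / 2 ∧ H1 z = H2 w) :
    ∃ ρ δ θ : ℝ, 0 < ρ ∧ 0 < δ ∧ 0 < θ ∧ θ < 1 ∧ CTt y ρ δ θ η r 𝒞 := by
  classical
  by_contra hcon
  push Not at hcon
  have hseq : ∀ m : ℕ, ∃ (P Q : ℂ → Mat (n + 1)) (g : ℂ → ℂ) (a : ℂ), 𝒞 P ∧ Cv y P ∧ 𝒞 Q ∧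
      (∀ z ∈ closedBall (0 : ℂ) (m + 1), ‖P z - Q (g z)‖ ≤ 1 / (m + 1 : ℝ)) ∧
      (∀ z ∈ closedBall (0 : ℂ) (m + 1), ∀ z' ∈ closedBall (0 : ℂ) (m + 1), ‖z - z'‖ ≤ η →
        ‖g z - g z'‖ ≤ r) ∧
      ∀ z ∈ closedBall (0 : ℂ) (m + 1),
        (1 - 1 / (m + 2 : ℝ)) * (EN r P Q z (g z) * ‖Complex.exp (a * z)‖) < EN r P Q 0 (g 0) := by
    intro m
    have h1 : 1 / (m + 2 : ℝ) < 1 := by
      rw [div_lt_one (by positivity)]
      have : (0 : ℝ) ≤ m := Nat.cast_nonneg m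
      linarith
    have h2 := hcon (m + 1) (1 / (m + 1)) (1 - 1 / (m + 2)) (by positivity)
      (by positivity) (by linarith) (by linarith [show (0 : ℝ) < 1 / (m + 2) by positivity])
    unfold CTt at h2
    push Not at h2
    obtain ⟨P, Q, hP, hPc, hQ, g, z0, hz1, hz2, a, ha⟩ := h2
    have hmem : ∀ z, z ∈ closedBall (0 : ℂ) (m + 1) → z0 + z ∈ closedBall z0 (m + 1 : ℝ) := by
      intro z hz
      rw [mem_closedBall_zero_iff] at hz
      rw [mem_closedBall, dist_eq_norm, add_sub_cancel_left]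
      exact hz
    refine ⟨fun w => P (z0 + w), Q, fun w => g (z0 + w), a, h.shift _ hP z0,
      ⟨holP_shift hPc.hol z0, fun z => hPc.mem _, fun G hG hG0 => ?_⟩, hQ,
      fun z hz => hz1 _ (hmem z hz), fun z hz z' hz' hzz => hz2 _ (hmem z hz) _ (hmem z' hz') (by
        rwa [add_sub_add_left_eq_sub]), fun z hz => ?_⟩
    · obtain ⟨w, hw⟩ := hPc.dense G hG hG0
      exact ⟨w - z0, by rwa [add_sub_cancel]⟩
    · have h2 := ha _ (hmem z hz)
      rw [add_sub_cancel_left] at h2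
      unfold EN at h2 ⊢
      simp only [add_zero]
      exact h2
  choose P Q g a hP hPc hQ hsm1 hsm2 hex using hseq
  set 𝓤 : Ultrafilter ℕ := hyperfilter ℕ with h𝓤
  have hzero : Tendsto (fun m : ℕ => 1 / (m + 1 : ℝ)) 𝓤 (𝓝 0) := hyp_inv
  -- the nearest points
  choose v hv1 hv2 using fun (m : ℕ) (z : ℂ) =>
    EN_spec (P := P m) (Q := Q m) hr.le (h.cont (hQ m)) z (g m z)
  set e : ℕ → ℝ := fun m => EN r (P m) (Q m) 0 (g m 0) with he
  have hbig : ∀ L : ℝ, ∀ᶠ m : ℕ in (𝓤 : Filter ℕ), ∀ z ∈ closedBall (0 : ℂ) L,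
      z ∈ closedBall (0 : ℂ) (m + 1 : ℝ) := by
    intro L
    filter_upwards [hyp_ge L] with m hm z hz
    rw [mem_closedBall_zero_iff] at hz ⊢
    linarith
  have hENle : ∀ m : ℕ, ∀ z ∈ closedBall (0 : ℂ) (m + 1 : ℝ),
      EN r (P m) (Q m) z (g m z) ≤ 1 / (m + 1 : ℝ) := fun m z hz =>
    (EN_le (w := g m z) (by rw [sub_self, norm_zero]; exact hr.le)).trans (hsm1 m z hz)
  have hvg : ∀ m : ℕ, ∀ z ∈ closedBall (0 : ℂ) (m + 1 : ℝ),
      c1 * ‖v m z - g m z‖ ≤ 2 * (1 / (m + 1 : ℝ)) := by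
    intro m z hz
    have h1 := imp h hi (hP m) (hQ m) (z := z) (z' := z) (v := v m z) (v' := g m z)
      ((hv2 m z).symm.le.trans (hENle m z hz)) (hsm1 m z hz) ((hv1 m z).trans (by linarith))
    rw [sub_self, norm_zero] at h1
    linarith
  have hsmall : ∀ᶠ m : ℕ in (𝓤 : Filter ℕ), 2 * (1 / (m + 1 : ℝ)) < c1 * (r / 2) := by
    have := hzero.const_mul 2
    rw [mul_zero] at this
    exact this.eventually_lt_const (by positivity)
  have hvg2 : ∀ᶠ m : ℕ in (𝓤 : Filter ℕ), ∀ z ∈ closedBall (0 : ℂ) (m + 1 : ℝ),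
      ‖v m z - g m z‖ ≤ r / 2 := by
    filter_upwards [hsmall] with m hm z hz
    have h1 := hvg m z hz
    have h2 : c1 * ‖v m z - g m z‖ ≤ c1 * (r / 2) := by linarith
    exact le_of_mul_le_mul_left h2 hc1
  have hvstep : ∀ L : ℝ, ∀ᶠ m : ℕ in (𝓤 : Filter ℕ), ∀ z ∈ closedBall (0 : ℂ) L,
      ∀ z' ∈ closedBall (0 : ℂ) L, ‖z - z'‖ ≤ η →
      ‖v m z - v m z'‖ ≤ (2 * (1 / (m + 1 : ℝ)) + 2 * ‖z - z'‖) / c1 := by
    intro L
    filter_upwards [hbig L, hvg2] with m hm1 hm2 z hz z' hz' hzz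
    have k1 := hm2 z (hm1 z hz)
    have k2 := hm2 z' (hm1 z' hz')
    have k3 := hsm2 m z (hm1 z hz) z' (hm1 z' hz') hzz
    have k4 : ‖v m z - v m z'‖ ≤ 2 * r := by
      have e1 : v m z - v m z' = (v m z - g m z) + (g m z - g m z') - (v m z' - g m z') := by ring
      rw [e1]
      have j1 := norm_sub_le ((v m z - g m z) + (g m z - g m z')) (v m z' - g m z')
      have j2 := norm_add_le (v m z - g m z) (g m z - g m z')
      linarith
    have k5 := imp h hi (hP m) (hQ m) ((hv2 m z).symm.le.trans (hENle m z (hm1 z hz)))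
      ((hv2 m z').symm.le.trans (hENle m z' (hm1 z' hz'))) k4
    rw [le_div_iff₀ hc1]
    linarith
  -- the limit of the trackings
  set H : ℕ → ℂ → ℂ := fun m z => v m z - v m 0 with hH
  have hHstep : ∀ L : ℝ, ∀ᶠ m : ℕ in (𝓤 : Filter ℕ), ∀ z ∈ closedBall (0 : ℂ) L,
      ∀ z' ∈ closedBall (0 : ℂ) L, ‖z - z'‖ ≤ η →
      ‖H m z - H m z'‖ ≤ (2 * (1 / (m + 1 : ℝ)) + 2 * ‖z - z'‖) / c1 := by
    intro L
    filter_upwards [hvstep L] with m hm z hz z' hz' hzz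
    have := hm z hz z' hz' hzz
    simp only [hH]
    rwa [sub_sub_sub_cancel_right]
  have hHbd : ∀ z : ℂ, ∃ C : ℝ, ∀ᶠ m in (𝓤 : Filter ℕ), ‖H m z‖ ≤ C := by
    intro z
    refine ⟨(⌈‖z‖ / η⌉₊ + 1 : ℕ) * ((2 + 2 * η) / c1), ?_⟩
    filter_upwards [hHstep ‖z‖] with m hm
    have h1 := chain_gen (g := H m) (R := ‖z‖) (X' := (2 + 2 * η) / c1) (η := η)
      (fun w hw w' hw' hww => by
        refine (hm w hw w' hw' hww).trans ?_
        apply div_le_div_of_nonneg_right _ hc1.le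
        have h2 : 1 / (m + 1 : ℝ) ≤ 1 := by
          rw [div_le_one (by positivity)]
          linarith [show (0 : ℝ) ≤ m from Nat.cast_nonneg m]
        linarith) (z := z) (z' := 0) (mem_closedBall_zero_iff.2 le_rfl)
      (mem_closedBall_self (norm_nonneg _)) (m := ⌈‖z‖ / η⌉₊ + 1) (Nat.succ_pos _) (by
        rw [sub_zero]
        have h3 := Nat.le_ceil (‖z‖ / η)
        rw [div_le_iff₀ hη] at h3
        push_cast
        nlinarith)
    have e1 : H m 0 = 0 := by simp only [hH, sub_self]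
    rwa [e1, sub_zero] at h1
  choose H0 hH0 using fun z => exists_lim (hHbd z).choose_spec
  have hH00 : H0 0 = 0 := by
    refine tendsto_nhds_unique (hH0 0) ?_
    refine tendsto_const_nhds.congr fun m => ?_
    simp only [hH, sub_self]
  have hH0lip : ∀ z z' : ℂ, ‖z - z'‖ ≤ η → ‖H0 z - H0 z'‖ ≤ 2 / c1 * ‖z - z'‖ := by
    intro z z' hzz
    have h1 : Tendsto (fun m : ℕ => (2 * (1 / (m + 1 : ℝ)) + 2 * ‖z - z'‖) / c1) 𝓤
        (𝓝 ((2 * 0 + 2 * ‖z - z'‖) / c1)) := ((hzero.const_mul 2).add_const _).div_const _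
    have h2 : (2 * 0 + 2 * ‖z - z'‖) / c1 = 2 / c1 * ‖z - z'‖ := by ring
    rw [h2] at h1
    refine le_of_tendsto_of_tendsto ((hH0 z).sub (hH0 z')).norm h1 ?_
    filter_upwards [hHstep (max ‖z‖ ‖z'‖)] with m hm
    exact hm z (mem_closedBall_zero_iff.2 (le_max_left _ _)) z'
      (mem_closedBall_zero_iff.2 (le_max_right _ _)) hzz
  have hHconv : CConv (𝓤 : Filter ℕ) univ H H0 := by
    intro z0 _
    rw [Metric.tendsto_nhds]
    intro ε hε
    have h1 : ∀ᶠ m in (𝓤 : Filter ℕ), ‖H m z0 - H0 z0‖ < ε / 2 := by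
      have := ((hH0 z0).sub_const (H0 z0)).norm
      rw [sub_self, norm_zero] at this
      exact this.eventually_lt_const (by positivity)
    have h2 : ∀ᶠ m : ℕ in (𝓤 : Filter ℕ), 2 * (1 / (m + 1 : ℝ)) / c1 < ε / 4 := by
      have := (hzero.const_mul 2).div_const c1
      rw [mul_zero, zero_div] at this
      exact this.eventually_lt_const (by positivity)
    have h3 : ∀ᶠ w in 𝓝 z0, ‖w - z0‖ ≤ η ∧ ‖w - z0‖ ≤ 1 ∧ 2 * ‖w - z0‖ / c1 < ε / 4 := by
      have k1 : Tendsto (fun w => ‖w - z0‖) (𝓝 z0) (𝓝 0) := by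
        have : Continuous fun w : ℂ => ‖w - z0‖ := by fun_prop
        simpa using this.tendsto z0
      have k2 := (k1.const_mul 2).div_const c1
      rw [mul_zero, zero_div] at k2
      filter_upwards [k1.eventually_lt_const hη, k1.eventually_lt_const one_pos,
        k2.eventually_lt_const (show 0 < ε / 4 by positivity)] with w j1 j2 j3
      exact ⟨j1.le, j2.le, j3⟩
    rw [eventually_prod_iff]
    refine ⟨_, h1.and (h2.and (hHstep (‖z0‖ + 1))), _, h3, ?_⟩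
    rintro m ⟨k1, k2, k3⟩ w ⟨j1, j2, j3⟩
    rw [dist_eq_norm]
    have k4 := k3 w (by
      rw [mem_closedBall_zero_iff]
      have := norm_add_le (w - z0) z0
      rw [sub_add_cancel] at this
      linarith) z0 (by
      rw [mem_closedBall_zero_iff]
      linarith) j1
    rw [add_div] at k4
    have e1 : H m w - H0 z0 = (H m w - H m z0) + (H m z0 - H0 z0) := by ring
    simp only
    rw [e1]
    refine (norm_add_le _ _).trans_lt ?_
    linarith
  -- the limits of the curves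
  obtain ⟨χ1, hχ1, hcP⟩ := h.lim 𝓤 P hP
  have hQ' : ∀ m, 𝒞 (fun w => Q m (v m 0 + w)) := fun m => h.shift _ (hQ m) _
  obtain ⟨χ2, hχ2, hcQ⟩ := h.lim 𝓤 _ hQ'
  have hexact : ∀ z, χ1 z = χ2 (H0 z) := by
    intro z
    have h1 : Tendsto (fun m => ‖P m z - Q m (v m 0 + H m z)‖) 𝓤 (𝓝 ‖χ1 z - χ2 (H0 z)‖) :=
      ((hcP.pointwise (mem_univ z)).sub (CConv.seq hcQ (mem_univ (H0 z)) (hH0 z))).norm
    have h2 : ‖χ1 z - χ2 (H0 z)‖ ≤ 0 := by
      refine le_of_tendsto_of_tendsto h1 hzero ?_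
      filter_upwards [hbig ‖z‖] with m hm
      have e1 : v m 0 + H m z = v m z := by simp only [hH]; ring
      rw [e1, ← hv2]
      exact hENle m z (hm z (mem_closedBall_zero_iff.2 le_rfl))
    exact sub_eq_zero.1 (norm_eq_zero.1 (le_antisymm h2 (norm_nonneg _)))
  have htrs : ∀ L : ℝ, Trs η r 0 L χ1 χ2 H0 := by
    intro L
    refine ⟨fun z _ => by rw [hexact z, sub_self, norm_zero], fun z _ z' _ hzz => ?_⟩
    refine (hH0lip z z' hzz).trans ?_
    rw [div_mul_eq_mul_div, div_le_iff₀ hc1]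
    nlinarith
  obtain ⟨α, β, hαβ, hαβ1⟩ := (htrs 1).affine h hi hr hc1 hη hsm hηη hule hχ1 hχ2 one_pos
  have hβ : β = 0 := by
    have := hαβ1 0 (mem_ball_self one_pos)
    rw [hH00, mul_zero, zero_add] at this
    exact this.symm
  have hHα : ∀ z, H0 z = α * z := by
    intro z
    have hL : 0 < ‖z‖ + 1 := by positivity
    obtain ⟨α', β', -, hαβ2⟩ := (htrs (‖z‖ + 1)).affine h hi hr hc1 hη hsm hηη hule hχ1 hχ2 hL
    have h1 := hαβ2 0 (mem_ball_self hL)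
    rw [hH00, mul_zero, zero_add] at h1
    have hhalf : ‖((1 / 2 : ℝ) : ℂ)‖ = 1 / 2 := by
      rw [Complex.norm_real, Real.norm_of_nonneg (by norm_num)]
    have h2 := hαβ2 ((1 / 2 : ℝ) : ℂ) (by
      rw [mem_ball_zero_iff, hhalf]
      linarith [norm_nonneg z])
    have h3 := hαβ1 ((1 / 2 : ℝ) : ℂ) (by
      rw [mem_ball_zero_iff, hhalf]
      norm_num)
    rw [h2, hβ, ← h1, add_zero, add_zero] at h3
    have h4 : α' = α := by
      have h5 : ((1 / 2 : ℝ) : ℂ) ≠ 0 := by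
        rw [← norm_pos_iff, hhalf]
        norm_num
      exact mul_right_cancel₀ h5 h3
    have h5 := hαβ2 z (by
      rw [mem_ball_zero_iff]
      linarith)
    rw [h5, h4, ← h1, add_zero]
  obtain ⟨hα1, hα2⟩ := h.alpha hχ1 hχ2 hαβ
  have hα0 : α ≠ 0 := by
    intro h0
    rw [h0, norm_zero] at hα1
    have := h.pos
    linarith
  -- the distances
  have hepos : ∀ m, 0 < e m := by
    intro m
    have h1 := hex m 0 (mem_closedBall_self (by positivity))
    rw [mul_zero, Complex.exp_zero, norm_one, mul_one] at h1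
    by_contra hcon
    have h2 : EN r (P m) (Q m) 0 (g m 0) = 0 := le_antisymm (not_lt.1 hcon) (EN_nonneg _ _)
    rw [h2, mul_zero] at h1
    exact lt_irrefl _ h1
  have he0 : Tendsto e 𝓤 (𝓝 0) :=
    squeeze_zero (fun m => (hepos m).le) (fun m => hENle m 0 (mem_closedBall_self (by positivity)))
      hzero
  have hexz : ∀ m : ℕ, ∀ z ∈ closedBall (0 : ℂ) (m + 1 : ℝ),
      EN r (P m) (Q m) z (g m z) * ‖Complex.exp (a m * z)‖ ≤ 2 * e m := by
    intro m z hz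
    have h1 := hex m z hz
    have h2 : (1 : ℝ) / 2 ≤ 1 - 1 / (m + 2 : ℝ) := by
      have : 1 / (m + 2 : ℝ) ≤ 1 / 2 := by
        apply one_div_le_one_div_of_le (by norm_num)
        have : (0 : ℝ) ≤ m := Nat.cast_nonneg m
        linarith
      linarith
    have h3 : 0 ≤ EN r (P m) (Q m) z (g m z) * ‖Complex.exp (a m * z)‖ :=
      mul_nonneg (EN_nonneg _ _) (norm_nonneg _)
    nlinarith
  set κ : ℕ → ℂ := fun m => ((1 / e m : ℝ) : ℂ) with hκ
  have hκn : ∀ m, ‖κ m‖ = 1 / e m := fun m => by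
    rw [Complex.norm_real, Real.norm_of_nonneg (one_div_nonneg.2 (hepos m).le)]
  have hpr : Pr y 𝓤 χ1 P (fun m z => Q m (v m 0 + α * z)) (fun m z => H m z / α - z)
      (fun m z => κ m * Complex.exp (a m * z)) (max 2 (2 * ‖α‖)) 2 := by
    refine ⟨hPc, fun m => ?_, fun m z => h.mem _ (hQ m) _, h.hol _ hχ1, h.mem _ hχ1, h.im hχ1,
      fun z => (h.bd _ hχ1 z).trans (le_max_left _ _), fun m z => ?_, hcP, ?_, ?_,
      fun m => by fun_prop, fun L => ?_⟩
    · exact holP_comp (h.hol _ (hQ m)) (g := fun z => v m 0 + α * z) (by fun_prop)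
        (fun _ _ => mem_univ _)
    · refine le_trans ?_ (le_max_right _ _)
      apply norm_fderiv_le_of_lip' ℝ (by positivity)
      refine Eventually.of_forall fun w => ?_
      refine (h.lip (hQ m) _ _).trans (le_of_eq ?_)
      have e1 : v m 0 + α * w - (v m 0 + α * z) = α * (w - z) := by ring
      rw [e1, norm_mul]
      ring
    · intro z _
      have h3 : Tendsto (fun p : ℕ × ℂ => (p.1, α * p.2)) ((𝓤 : Filter ℕ) ×ˢ 𝓝 z)
          ((𝓤 : Filter ℕ) ×ˢ 𝓝 (α * z)) :=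
        tendsto_fst.prodMk ((tendsto_snd (f := (𝓤 : Filter ℕ)) (g := 𝓝 z)).const_mul α)
      have h4 := (hcQ (α * z) (mem_univ _)).comp h3
      have h5 : χ1 z = χ2 (α * z) := by rw [hexact, hHα]
      rw [h5]
      exact h4
    · intro z _
      have h3 := hHconv z (mem_univ z)
      have h4 : Tendsto (fun p : ℕ × ℂ => H p.1 p.2 / α - p.2) ((𝓤 : Filter ℕ) ×ˢ 𝓝 z)
          (𝓝 (H0 z / α - z)) := (h3.div_const α).sub tendsto_snd
      rwa [hHα, mul_div_cancel_left₀ _ hα0, sub_self] at h4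
    · filter_upwards [hbig L] with m hm z hz
      have h1 := hexz m z (hm z hz)
      have e1 : v m 0 + α * (z + (H m z / α - z)) = v m z := by
        simp only [hH]
        field_simp
        ring
      rw [e1, norm_sub_rev, ← hv2, norm_mul, hκn, ← mul_assoc,
        mul_comm (EN r (P m) (Q m) z (g m z)) (1 / e m), mul_assoc, one_div_mul_eq_div,
        div_le_iff₀ (hepos m)]
      exact h1
  obtain ⟨c, hc, hW⟩ := hpr.W_zero hX R hω h.comp
  have hwt0 : ∀ m, ‖κ m * Complex.exp (a m * 0)‖ = 1 / e m := fun m => by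
    rw [mul_zero, Complex.exp_zero, mul_one, hκn]
  obtain ⟨t, ht, htend⟩ := hpr.final (fun m => by simp only [hH, sub_self, zero_div]) (by
    have h1 : Tendsto (fun m => 1 / e m) 𝓤 atTop := by
      have h2 : Tendsto e 𝓤 (𝓝[>] 0) := tendsto_nhdsWithin_iff.2
        ⟨he0, Eventually.of_forall fun m => hepos m⟩
      have h3 := tendsto_inv_nhdsGT_zero.comp h2
      exact h3.congr fun m => (one_div _).symm
    exact h1.congr fun m => (hwt0 m).symm) c hc hW
  have h1 : Tendsto (fun _ : ℕ => (1 : ℝ)) 𝓤 (𝓝 0) := by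
    refine squeeze_zero' (Eventually.of_forall fun _ => zero_le_one) ?_ htend
    have h2 : ∀ᶠ m in (𝓤 : Filter ℕ), ‖α * t m‖ < r / 2 := by
      have := (ht.const_mul α).norm
      rw [mul_zero, norm_zero] at this
      exact this.eventually_lt_const (by positivity)
    filter_upwards [hvg2, h2] with m k1 k2
    have k3 := k1 0 (mem_closedBall_self (by positivity))
    have k4 : EN r (P m) (Q m) 0 (g m 0) ≤ ‖P m 0 - Q m (v m 0 + α * t m)‖ := by
      apply EN_le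
      have e1 : v m 0 + α * t m - g m 0 = (v m 0 - g m 0) + α * t m := by ring
      rw [e1]
      refine (norm_add_le _ _).trans ?_
      linarith
    rw [hwt0, norm_sub_rev, mul_one_div, le_div_iff₀ (hepos m), one_mul]
    exact k4
  exact one_ne_zero (tendsto_nhds_unique h1 tendsto_const_nhds).symm

end Pool.Agent.N155
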