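import Pool.Agent.N155.A.Tc

/-! A deformation with vanishing normal component is a reparametrisation to the first order. -/

set_option autoImplicit false

open Filter Topology Metric Set MvPolynomial

namespace Pool.Agent.N155

open FF Pool.Agent.Y190.OP Pool.Agent.W602.GT Pool.Agent.TH143.GT

variable {n : ℕ} {K : Type} [Field K] [Algebra ℂ K]
variable {y : Fin (n + 1) → K} {𝓤 : Ultrafilter ℕ} {χ : ℂ → Mat (n + 1)}
  {P Q : ℕ → ℂ → Mat (n + 1)} {s wt : ℕ → ℂ → ℂ} {B C0 : ℝ}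
variable {R : ∀ h : K, Frac y h} {ω : Fin (n + 1) → (Fin 2 → Derivation ℂ K K) → K} {N : ℕ}

theorem Pr.final (h : Pr y 𝓤 χ P Q s wt B C0) (hs0 : ∀ m, s m 0 = 0)
    (hwt : Tendsto (fun m => ‖wt m 0‖) 𝓤 atTop) (c : Chb y R ω) (hz0 : χ 0 ∈ c.O)
    (hW : c.W 𝓤 χ P Q s wt 0 = 0) :
    ∃ t : ℕ → ℂ, Tendsto t 𝓤 (𝓝 0) ∧
      Tendsto (fun m => ‖Q m (t m) - P m 0‖ * ‖wt m 0‖) 𝓤 (𝓝 0) := by
  have hnz := c.cht.nz _ hz0
  have hUo : IsOpen {w | nz (X c.i) (χ w)} := (isOpen_nz (X c.i)).preimage h.cont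
  -- the multiplier
  obtain ⟨β, hβj, hβk⟩ : ∃ β : ℂ,
      DD 𝓤 P Q s wt (qv (X c.j) (X c.i)) 0 = β * VV χ (qv (X c.j) (X c.i)) 0 ∧
      DD 𝓤 P Q s wt (qv (X c.k) (X c.i)) 0 = β * VV χ (qv (X c.k) (X c.i)) 0 := by
    unfold Chb.W at hW
    rcases h.pivot c hz0 with h1 | h1
    · refine ⟨DD 𝓤 P Q s wt (qv (X c.j) (X c.i)) 0 / VV χ (qv (X c.j) (X c.i)) 0, ?_, ?_⟩
      · rw [div_mul_cancel₀ _ h1]
      · rw [div_mul_eq_mul_div, eq_div_iff h1]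
        linear_combination hW
    · refine ⟨DD 𝓤 P Q s wt (qv (X c.k) (X c.i)) 0 / VV χ (qv (X c.k) (X c.i)) 0, ?_, ?_⟩
      · rw [div_mul_eq_mul_div, eq_div_iff h1]
        linear_combination -hW
      · rw [div_mul_cancel₀ _ h1]
  have hβ : ∀ r : Fin (n + 1), DD 𝓤 P Q s wt (qv (X r) (X c.i)) 0 =
      β * VV χ (qv (X r) (X c.i)) 0 := by
    intro r
    obtain ⟨k1, k2⟩ := h.key c hz0 hnz r
    rw [k1, k2, hβj, hβk]
    ring
  have hwne : ∀ᶠ m in (𝓤 : Filter ℕ), wt m 0 ≠ 0 := by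
    filter_upwards [hwt.eventually_gt_atTop 0] with m hm
    exact norm_pos_iff.1 hm
  set t : ℕ → ℂ := fun m => -β / wt m 0 with ht
  have ht0 : Tendsto t 𝓤 (𝓝 0) := by
    rw [tendsto_zero_iff_norm_tendsto_zero]
    have h1 : Tendsto (fun m => ‖β‖ / ‖wt m 0‖) 𝓤 (𝓝 0) := tendsto_const_nhds.div_atTop hwt
    refine h1.congr fun m => ?_
    simp only [ht, norm_div, norm_neg]
  have htw : Tendsto (fun m => t m * wt m 0) 𝓤 (𝓝 (-β)) := by
    refine tendsto_const_nhds.congr' ?_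
    filter_upwards [hwne] with m hm
    simp only [ht]
    rw [div_mul_cancel₀ _ hm]
  refine ⟨t, ht0, ?_⟩
  have hcoord : ∀ r : Fin (n + 1), Tendsto (fun m => ‖qv (X r) (X c.i) (Q m (t m)) -
      qv (X r) (X c.i) (P m 0)‖ * ‖wt m 0‖) 𝓤 (𝓝 0) := by
    intro r
    have h1 := quot_seq (cc_qv h.lQ (G1 := X r) (G0 := X c.i)) hUo hnz
      (cc_diff h.lQ h.hQ (isHomogeneous_X _ _) (isHomogeneous_X _ _) hnz) (z := fun _ => 0)
      (s := t) (w := fun m => wt m 0) tendsto_const_nhds ht0 htw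
    have h2 := (h.ddc c hz0 r).1
    rw [hβ r] at h2
    have h3 := (h1.add h2).norm
    have e1 : -β * deriv (fun w => qv (X r) (X c.i) (χ w)) 0 +
        β * VV χ (qv (X r) (X c.i)) 0 = 0 := by
      unfold VV
      ring
    rw [e1, norm_zero] at h3
    refine h3.congr fun m => ?_
    rw [← norm_mul, hs0, zero_add, zero_add]
    congr 1
    ring
  obtain ⟨C, O, hC, hO, hL⟩ := chart_lip (TX_PM (h.mχ 0)) hnz
  have hsum : Tendsto (fun m => C * ∑ r, (‖qv (X r) (X c.i) (Q m (t m)) -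
      qv (X r) (X c.i) (P m 0)‖ * ‖wt m 0‖)) 𝓤 (𝓝 0) := by
    have h1 : Tendsto (fun m => ∑ r, (‖qv (X r) (X c.i) (Q m (t m)) -
        qv (X r) (X c.i) (P m 0)‖ * ‖wt m 0‖)) 𝓤 (𝓝 (∑ r : Fin (n + 1), (0 : ℝ))) :=
      tendsto_finsetSum _ fun r _ => hcoord r
    have h2 := h1.const_mul C
    simpa using h2
  refine squeeze_zero' (Eventually.of_forall fun m => by positivity) ?_ hsum
  have hQt : Tendsto (fun m => Q m (t m)) 𝓤 (𝓝 (χ 0)) := CConv.seq h.lQ (mem_univ 0) ht0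
  filter_upwards [(h.tP 0).eventually hO, hQt.eventually hO] with m h1 h2
  obtain ⟨-, -, h3⟩ := hL _ ⟨h2, TX_PM (h.mQ m _)⟩ _ ⟨h1, TX_PM ((h.cP m).mem _)⟩
  rw [← Finset.sum_mul, ← mul_assoc]
  exact mul_le_mul_of_nonneg_right h3 (norm_nonneg _)

end Pool.Agent.N155
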