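import Pool.Agent.N155.A.Cov

/-! Transition functions of charts, and their derivatives at generic points. -/

set_option autoImplicit false

open Filter Topology Metric Set MvPolynomial

namespace Pool.Agent.N155

open FF Pool.Agent.Y190.OP Pool.Agent.W602.GT Pool.Agent.TH143.GT

variable {n : ℕ} {K : Type} [Field K] [Algebra ℂ K] {y : Fin (n + 1) → K}
  {R : ∀ h : K, Frac y h} {ω : Fin (n + 1) → (Fin 2 → Derivation ℂ K K) → K}

/-! ### residual sets -/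

theorem resid {p : ℂ → Prop} (h : ∀ᶠ z in codiscrete ℂ, p z) : ∀ᶠ z in residual ℂ, p z := by
  apply residual_of_dense_open (codis_open h)
  intro z
  rw [mem_closure_iff_frequently]
  have h1 := codis_ev h z
  exact h1.frequently.filter_mono nhdsWithin_le_nhds

theorem resid_ex {p : ℂ → Prop} (h : ∀ᶠ z in residual ℂ, p z) {V : Set ℂ} (hV : IsOpen V)
    (hne : V.Nonempty) : ∃ z ∈ V, p z := by
  obtain ⟨z, hz, hz'⟩ := (dense_of_mem_residual h).inter_open_nonempty V hV hne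
  exact ⟨z, hz, hz'⟩

/-- functions which agree on a residual set -/
theorem resid_eq {f g : ℂ → ℂ} {V : Set ℂ} (hV : IsOpen V) (hf : ContinuousOn f V)
    (hg : ContinuousOn g V) (h : ∀ᶠ z in residual ℂ, z ∈ V → f z = g z) :
    ∀ z ∈ V, f z = g z := by
  intro z0 hz0
  by_contra hne
  have h1 : ContinuousAt (fun z => f z - g z) z0 :=
    (hf.continuousAt (hV.mem_nhds hz0)).sub (hg.continuousAt (hV.mem_nhds hz0))
  have h2 : ∀ᶠ z in 𝓝 z0, f z - g z ≠ 0 := h1.eventually_ne (sub_ne_zero.2 hne)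
  obtain ⟨W, hW, hWo, hzW⟩ := _root_.mem_nhds_iff.1 (h2.and (hV.mem_nhds hz0))
  obtain ⟨z, hz, hpz⟩ := resid_ex h hWo ⟨z0, hzW⟩
  exact (hW hz).1 (sub_eq_zero.2 (hpz (hW hz).2))

/-! ### affine coordinates -/

theorem qv_div {M : Mat (n + 1)} (hM : M ∈ PM) {i i' : Fin (n + 1)} (hi : nz (X i) M)
    (hi' : nz (X i') M) : qv (X i') (X i) M ≠ 0 ∧
      ∀ r, qv (X r) (X i') M = qv (X r) (X i) M / qv (X i') (X i) M := by
  obtain ⟨u, hu, rfl⟩ := hM
  rw [nz_Phi (isHomogeneous_X _ _) hu, eval_X] at hi hi'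
  have h1 : ∀ r s : Fin (n + 1), qv (X r) (X s) (Phi u) = u r / u s := by
    intro r s
    rw [qv_Phi (isHomogeneous_X _ _) (isHomogeneous_X _ _) hu, eval_X, eval_X]
  rw [h1]
  refine ⟨div_ne_zero hi' hi, fun r => ?_⟩
  rw [h1, h1]
  field_simp

/-- a nonzero coordinate -/
theorem y_ne {M : Mat (n + 1)} (hM : M ∈ TX y) {i : Fin (n + 1)} (hi : nz (X i) M) : y i ≠ 0 := by
  intro h0
  obtain ⟨u, hu, rfl⟩ := hM
  have h1 := hu.2 (X i) ⟨1, isHomogeneous_X _ _⟩ (by rw [val_X', h0])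
  rw [val_eval, eval_X] at h1
  rw [nz_Phi (isHomogeneous_X _ _) hu.1, eval_X] at hi
  exact hi h1

/-- the coordinates of a chart -/
noncomputable def Chb.pt (c : Chb y R ω) (M : Mat (n + 1)) : ℂ × ℂ :=
  (qv (X c.j) (X c.i) M, qv (X c.k) (X c.i) M)

/-- the affine coordinate `r / s` as a function of the coordinates of the chart -/
noncomputable def Chb.tr (c : Chb y R ω) (r s : Fin (n + 1)) (p : ℂ × ℂ) : ℂ := c.Ψ p r / c.Ψ p s

theorem Chb.pt_mem (c : Chb y R ω) {M : Mat (n + 1)} (hM : M ∈ c.O ∩ TX y) : c.pt M ∈ c.U :=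
  (c.cht.graph M hM).1

theorem Chb.qv_eq (c : Chb y R ω) {M : Mat (n + 1)} (hM : M ∈ c.O ∩ TX y) (r : Fin (n + 1)) :
    qv (X r) (X c.i) M = c.Ψ (c.pt M) r := (c.cht.graph M hM).2 r

theorem Chb.tr_eq (c : Chb y R ω) {M : Mat (n + 1)} (hM : M ∈ c.O ∩ TX y) {s : Fin (n + 1)}
    (hs : N155.nz (X s) M) : c.Ψ (c.pt M) s ≠ 0 ∧
      ∀ r, qv (X r) (X s) M = c.tr r s (c.pt M) := by
  obtain ⟨h1, h2⟩ := qv_div (TX_PM hM.2) (c.cht.nz M hM.1) hs
  rw [c.qv_eq hM] at h1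
  refine ⟨h1, fun r => ?_⟩
  rw [h2, c.qv_eq hM, c.qv_eq hM]
  rfl

theorem Chb.an_Ψ (c : Chb y R ω) {p : ℂ × ℂ} (hp : p ∈ c.U) (r : Fin (n + 1)) :
    AnalyticAt ℂ (fun q => c.Ψ q r) p := (analyticAt_pi_iff.1 (c.cht.an p hp)) r

theorem Chb.an_tr (c : Chb y R ω) {p : ℂ × ℂ} (hp : p ∈ c.U) (r : Fin (n + 1)) {s : Fin (n + 1)}
    (hs : c.Ψ p s ≠ 0) : AnalyticAt ℂ (c.tr r s) p := (c.an_Ψ hp r).div (c.an_Ψ hp s) hs

theorem valAt_ev (R : ∀ h : K, Frac y h) {u : Fin (n + 1) → ℂ} (hu : u ≠ 0) {k : K}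
    (hg : good R k (Phi u)) : ValAt y k u (ev R k (Phi u)) := by
  refine ⟨(R k).d, (R k).G1, (R k).G0, (R k).h1, (R k).h0, (R k).hn, (R k).eq, ?_, ?_⟩
  · rw [val_eval]
    exact (good_Phi R hu).1 hg
  · rw [ev_Phi R hu, val_eval, val_eval]

theorem valAt_ratio {u : Fin (n + 1) → ℂ} {r s : Fin (n + 1)} (hs : y s ≠ 0) (hus : u s ≠ 0) :
    ValAt y (y r / y s) u (u r / u s) := by
  refine ⟨1, X r, X s, isHomogeneous_X _ _, isHomogeneous_X _ _, ?_, ?_, ?_, ?_⟩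
  · rw [val_X']
    exact hs
  · rw [val_X', val_X']
  · rw [val_eval, eval_X]
    exact hus
  · rw [val_eval, val_eval, eval_X, eval_X]

/-- **The derivatives of the transition functions at generic points.** -/
theorem Chb.gen_fderiv (c : Chb y R ω) (r : Fin (n + 1)) {s : Fin (n + 1)} (hs : y s ≠ 0) :
    ∃ t : K, t ≠ 0 ∧ ∀ M ∈ c.O ∩ TX y, N155.nz (X s) M → good R t M → ev R t M ≠ 0 →
      (∀ l, good R (c.E l (y r / y s)) M) →
      fderiv ℂ (c.tr r s) (c.pt M) (1, 0) = ev R (c.E 0 (y r / y s)) M ∧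
      fderiv ℂ (c.tr r s) (c.pt M) (0, 1) = ev R (c.E 1 (y r / y s)) M := by
  obtain ⟨t, ht, h⟩ := exists_gen (y := y) c.cht.dual (y r / y s)
  refine ⟨t, ht, ?_⟩
  rintro M hM hnz hg hne hE
  obtain ⟨h0, htr⟩ := c.tr_eq hM hnz
  have hU := c.pt_mem hM
  have hni := c.cht.nz M hM.1
  have hMO := hM.1
  obtain ⟨u, hu, hMu⟩ := hM.2
  subst hMu
  have hui : u c.i ≠ 0 := by rwa [nz_Phi (isHomogeneous_X _ _) hu.1, eval_X] at hni
  have hus : u s ≠ 0 := by rwa [nz_Phi (isHomogeneous_X _ _) hu.1, eval_X] at hnz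
  have hq : ∀ a b : Fin (n + 1), qv (X a) (X b) (Phi u) = u a / u b := by
    intro a b
    rw [qv_Phi (isHomogeneous_X _ _) (isHomogeneous_X _ _) hu.1, eval_X, eval_X]
  refine h u (c.pt (Phi u)) (ev R t (Phi u)) (fun l => ev R (c.E l (y r / y s)) (Phi u))
    (c.tr r s) (fderiv ℂ (c.tr r s) (c.pt (Phi u))) hu ?_ (valAt_ev R hu.1 hg) hne ?_ ?_
    (fun l => valAt_ev R hu.1 (hE l)) (c.an_tr hU r h0).differentiableAt.hasFDerivAt ?_
  · rw [← htr r, hq]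
    exact valAt_ratio hs hus
  · change ValAt y (y c.j / y c.i) u (qv (X c.j) (X c.i) (Phi u))
    rw [hq]
    exact valAt_ratio c.cht.yi hui
  · change ValAt y (y c.k / y c.i) u (qv (X c.k) (X c.i) (Phi u))
    rw [hq]
    exact valAt_ratio c.cht.yi hui
  · have h1 : ∀ᶠ p in 𝓝 (c.pt (Phi u)), c.Ψ p s ≠ 0 :=
      (c.an_Ψ hU s).continuousAt.eventually_ne h0
    filter_upwards [h1, c.cht.Uo.mem_nhds hU] with p hp hpU
    have hi1 : c.Ψ p c.i = 1 := c.cht.Ψi p hpU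
    refine ⟨c.Ψ p, c.cht.mem p hpU, ?_, ?_, ?_⟩
    · have h2 := valAt_ratio (u := c.Ψ p) (r := c.j) c.cht.yi (by rw [hi1]; exact one_ne_zero)
      rw [hi1, div_one, c.cht.Ψj p hpU] at h2
      exact h2
    · have h2 := valAt_ratio (u := c.Ψ p) (r := c.k) c.cht.yi (by rw [hi1]; exact one_ne_zero)
      rw [hi1, div_one, c.cht.Ψk p hpU] at h2
      exact h2
    · exact valAt_ratio hs hp

/-- the generic points of a dense curve -/
theorem Cv.gen {P : ℂ → Mat (n + 1)} (hP : Cv y P) (R : ∀ h : K, Frac y h) {t : K} (ht : t ≠ 0) :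
    ∀ᶠ z in codiscrete ℂ, N155.good R t (P z) ∧ ev R t (P z) ≠ 0 := by
  have h1 : val y (R t).G1 ≠ 0 := by
    intro h0
    apply ht
    rw [(R t).eq, h0, zero_div]
  filter_upwards [hP.good R t, hP.nz ⟨_, (R t).h1⟩ h1] with z h2 h3
  refine ⟨h2, ?_⟩
  obtain ⟨u, hu, hPu⟩ := hP.mem z
  rw [hPu] at h2 h3 ⊢
  rw [good_Phi R hu.1] at h2
  rw [nz_Phi (R t).h1 hu.1] at h3
  rw [ev_Phi R hu.1]
  exact div_ne_zero h3 h2

/-- the Jacobian determinant -/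
noncomputable def jac (τ0 τ1 : ℂ × ℂ → ℂ) (p : ℂ × ℂ) : ℂ :=
  fderiv ℂ τ0 p (1, 0) * fderiv ℂ τ1 p (0, 1) - fderiv ℂ τ1 p (1, 0) * fderiv ℂ τ0 p (0, 1)

/-- **Pluricanonical forms in two charts**, at the generic points of a dense curve. -/
theorem Chb.change (c c' : Chb y R ω) {N : ℕ} (hω : Pluricanonical N ω y) (l : Fin (n + 1))
    {P : ℂ → Mat (n + 1)} (hP : Cv y P) : ∀ᶠ z in codiscrete ℂ, P z ∈ c.O → P z ∈ c'.O →
      ev R (ω l c.E) (P z) = jac (c.tr c'.j c'.i) (c.tr c'.k c'.i) (c.pt (P z)) ^ N *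
        ev R (ω l c'.E) (P z) := by
  obtain ⟨t1, ht1, h1⟩ := c.gen_fderiv c'.j c'.cht.yi
  obtain ⟨t2, ht2, h2⟩ := c.gen_fderiv c'.k c'.cht.yi
  filter_upwards [hP.gen R ht1, hP.gen R ht2, hP.good R (c.E 0 (y c'.j / y c'.i)),
    hP.good R (c.E 1 (y c'.j / y c'.i)), hP.good R (c.E 0 (y c'.k / y c'.i)),
    hP.good R (c.E 1 (y c'.k / y c'.i)), hP.good R (ω l c.E), hP.good R (ω l c'.E)]
    with z g1 g2 g3 g4 g5 g6 g7 g8 hzc hzc'
  obtain ⟨a1, a2⟩ := h1 (P z) ⟨hzc, hP.mem z⟩ (c'.cht.nz _ hzc') g1.1 g1.2 (by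
    intro l
    fin_cases l
    · exact g3
    · exact g4)
  obtain ⟨b1, b2⟩ := h2 (P z) ⟨hzc, hP.mem z⟩ (c'.cht.nz _ hzc') g2.1 g2.2 (by
    intro l
    fin_cases l
    · exact g5
    · exact g6)
  obtain ⟨u, hu, hPu⟩ := hP.mem z
  rw [hPu] at g3 g4 g5 g6 g7 g8 a1 a2 b1 b2 ⊢
  unfold jac
  rw [a1, a2, b1, b2]
  have v3 := valAt_ev R hu.1 g3
  have v4 := valAt_ev R hu.1 g4
  have v5 := valAt_ev R hu.1 g5
  have v6 := valAt_ev R hu.1 g6
  have v7 := valAt_ev R hu.1 g7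
  have v8 := valAt_ev R hu.1 g8
  have hch := pluri_change (E := c.E) (hω.form l) c'.cht.dual
  simp only [Matrix.cons_val_zero, Matrix.cons_val_one] at hch
  have hneg : ∀ {k : K} {a : ℂ}, ValAt y k u a → ValAt y (-k) u (-a) := by
    intro k a hk
    have := (ValAt.const (y := y) (u := u) (-1 : ℂ)).mul hk
    rwa [map_neg, map_one, neg_one_mul, neg_one_mul] at this
  have hpow : ∀ (m : ℕ) {k : K} {a : ℂ}, ValAt y k u a → ValAt y (k ^ m) u (a ^ m) := by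
    intro m k a hk
    induction m with
    | zero =>
      have := ValAt.const (y := y) (u := u) (1 : ℂ)
      rw [pow_zero, pow_zero]
      rwa [map_one] at this
    | succ m ih =>
      rw [pow_succ, pow_succ]
      exact ih.mul hk
  have v9 := (hpow N ((v3.mul v6).add (hneg (v5.mul v4)))).mul v8
  rw [← sub_eq_add_neg, ← sub_eq_add_neg, ← hch] at v9
  exact v7.unique hu v9

end Pool.Agent.N155
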