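import Pool.Agent.N155.L.Ana

/-! Local inverses of the members of a converging sequence of holomorphic functions. -/

set_option autoImplicit false

open Filter Topology Metric Set

namespace Pool.Agent.N155

open Pool.Agent.Y190.OP

/-- a function which is nearly linear is locally onto -/
theorem onto_of_lin {f : ℂ → ℂ} {a z0 : ℂ} {ρ : ℝ} (ha : a ≠ 0) (hρ : 0 < ρ)
    (h : ∀ w ∈ ball z0 ρ, ∀ w' ∈ ball z0 ρ, ‖f w - f w' - (w - w') * a‖ ≤ ‖a‖ / 2 * ‖w - w'‖) :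
    ∀ c ∈ closedBall (f z0) (‖a‖ / 2 * (ρ / 2)), ∃ w ∈ closedBall z0 (ρ / 2), f w = c := by
  let f' : ℂ →L[ℂ] ℂ := a • ContinuousLinearMap.id ℂ ℂ
  obtain ⟨cc, hcc⟩ : ∃ cc : NNReal, (cc : ℝ) = ‖a‖ / 2 := ⟨⟨‖a‖ / 2, by positivity⟩, rfl⟩
  have h1 : ApproximatesLinearOn f f' (ball z0 ρ) cc := by
    intro w hw w' hw'
    have := h w hw w' hw'
    change ‖f w - f w' - a * (w - w')‖ ≤ cc * ‖w - w'‖
    rwa [mul_comm a, hcc]
  obtain ⟨g, hg⟩ : ∃ g : f'.NonlinearRightInverse, (g.nnnorm : ℝ) = ‖a⁻¹‖ :=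
    ⟨{ toFun := fun y => a⁻¹ * y
       nnnorm := ‖a⁻¹‖₊
       bound' := fun y => by rw [norm_mul]; rfl
       right_inv' := fun y => by
        change a * (a⁻¹ * y) = y
        rw [← mul_assoc, mul_inv_cancel₀ ha, one_mul] }, rfl⟩
  have h2 := h1.surjOn_closedBall_of_nonlinearRightInverse g (ε := ρ / 2) (b := z0) (by positivity)
    (closedBall_subset_ball (by linarith))
  rw [hg, hcc, norm_inv, inv_inv, sub_half] at h2
  intro c hc
  obtain ⟨w, hw, hwc⟩ := h2 hc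
  exact ⟨w, hw, hwc⟩

/-- **Local inverses.** -/
theorem loc_inv {l : Filter ℕ} [l.NeBot] {U : Set ℂ} {A : ℕ → ℂ → ℂ} {A0 : ℂ → ℂ}
    (hc : CConv l U A A0) {z0 : ℂ} (hU : IsOpen U) (hz : z0 ∈ U)
    (hd : ∃ V ∈ 𝓝 z0, ∀ᶠ n in l, DifferentiableOn ℂ (A n) V) (h0 : deriv A0 z0 ≠ 0) {ρ0 : ℝ}
    (hρ0 : 0 < ρ0) : ∃ ρ σ : ℝ, 0 < ρ ∧ ρ ≤ ρ0 ∧ 0 < σ ∧ ∀ᶠ n in l,
      DifferentiableOn ℂ (A n) (ball z0 ρ) ∧
      (∀ w ∈ ball z0 ρ, ∀ w' ∈ ball z0 ρ, ‖deriv A0 z0‖ / 2 * ‖w - w'‖ ≤ ‖A n w - A n w'‖) ∧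
      ∃ I : ℂ → ℂ, DifferentiableOn ℂ I (ball (A0 z0) σ) ∧
        ∀ c ∈ ball (A0 z0) σ, I c ∈ ball z0 ρ ∧ A n (I c) = c := by
  classical
  set a := deriv A0 z0 with ha
  have hapos : 0 < ‖a‖ := norm_pos_iff.2 h0
  obtain ⟨ρ1, hρ1, hquot⟩ := CConv.quot hc hU hz hd (show 0 < ‖a‖ / 2 by positivity)
  obtain ⟨V, hV, hdV⟩ := hd
  obtain ⟨ρ2, hρ2, hsub⟩ := Metric.mem_nhds_iff.1 hV
  set ρ := min ρ0 (min ρ1 ρ2) with hρdef
  have hρ : 0 < ρ := by positivity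
  have hρ01 : ρ ≤ ρ1 := (min_le_right _ _).trans (min_le_left _ _)
  have hρ02 : ρ ≤ ρ2 := (min_le_right _ _).trans (min_le_right _ _)
  refine ⟨ρ, ‖a‖ * ρ / 8, hρ, min_le_left _ _, by positivity, ?_⟩
  have h1 : ∀ᶠ n in l, ‖A n z0 - A0 z0‖ < ‖a‖ * ρ / 8 := by
    have h2 : Tendsto (fun n => A n z0) l (𝓝 (A0 z0)) := CConv.seq hc hz tendsto_const_nhds
    have h3 := (h2.sub_const (A0 z0)).norm
    rw [sub_self, norm_zero] at h3
    exact h3.eventually_lt_const (by positivity)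
  filter_upwards [hquot, hdV, h1] with n hq hdn hn
  have hq' : ∀ w ∈ ball z0 ρ, ∀ w' ∈ ball z0 ρ,
      ‖A n w - A n w' - (w - w') * a‖ ≤ ‖a‖ / 2 * ‖w - w'‖ := fun w hw w' hw' =>
    hq w (ball_subset_ball hρ01 hw) w' (ball_subset_ball hρ01 hw')
  have hlow : ∀ w ∈ ball z0 ρ, ∀ w' ∈ ball z0 ρ, ‖a‖ / 2 * ‖w - w'‖ ≤ ‖A n w - A n w'‖ := by
    intro w hw w' hw'
    have k1 := hq' w hw w' hw'
    have k2 := norm_sub_norm_le ((w - w') * a) (A n w - A n w')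
    rw [norm_sub_rev ((w - w') * a), norm_mul] at k2
    linarith
  have hdiff : DifferentiableOn ℂ (A n) (ball z0 ρ) :=
    hdn.mono fun w hw => hsub (ball_subset_ball hρ02 hw)
  refine ⟨hdiff, hlow, ?_⟩
  have hex : ∀ c, ∃ w, c ∈ ball (A0 z0) (‖a‖ * ρ / 8) → w ∈ closedBall z0 (ρ / 2) ∧ A n w = c := by
    intro c
    by_cases hcm : c ∈ ball (A0 z0) (‖a‖ * ρ / 8)
    · obtain ⟨w, hw, hwc⟩ := onto_of_lin h0 hρ hq' c (by
        rw [mem_ball, dist_eq_norm] at hcm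
        rw [mem_closedBall, dist_eq_norm]
        have e1 : c - A n z0 = (c - A0 z0) - (A n z0 - A0 z0) := by ring
        rw [e1]
        refine (norm_sub_le _ _).trans ?_
        nlinarith)
      exact ⟨w, fun _ => ⟨hw, hwc⟩⟩
    · exact ⟨0, fun h => absurd h hcm⟩
  choose I hI using hex
  have hIm : ∀ c ∈ ball (A0 z0) (‖a‖ * ρ / 8), I c ∈ ball z0 ρ := fun c hc =>
    closedBall_subset_ball (by linarith) (hI c hc).1
  refine ⟨I, ?_, fun c hc => ⟨hIm c hc, (hI c hc).2⟩⟩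
  intro c hc
  have hb : ball (A0 z0) (‖a‖ * ρ / 8) ∈ 𝓝 c := isOpen_ball.mem_nhds hc
  have hcont : ContinuousAt I c := by
    rw [ContinuousAt, tendsto_iff_norm_sub_tendsto_zero]
    have h2 : Tendsto (fun c' => 2 / ‖a‖ * ‖c' - c‖) (𝓝 c) (𝓝 0) := by
      have h3 : Continuous fun c' : ℂ => 2 / ‖a‖ * ‖c' - c‖ := by fun_prop
      have := h3.tendsto c
      simpa using this
    refine squeeze_zero' (Eventually.of_forall fun _ => norm_nonneg _) ?_ h2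
    filter_upwards [hb] with c' hc'
    have h3 := hlow _ (hIm c' hc') _ (hIm c hc)
    rw [(hI c' hc').2, (hI c hc).2] at h3
    rw [div_mul_eq_mul_div, le_div_iff₀ hapos]
    linarith
  have hdA : DifferentiableAt ℂ (A n) (I c) :=
    (hdiff _ (hIm c hc)).differentiableAt (isOpen_ball.mem_nhds (hIm c hc))
  have hne : deriv (A n) (I c) ≠ 0 := by
    intro hz0
    have h3 := hdA.hasDerivAt
    rw [hz0] at h3
    have h4 := h3.tendsto_slope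
    have h5 : ∀ᶠ w in 𝓝[≠] (I c), ‖a‖ / 2 ≤ ‖slope (A n) (I c) w‖ := by
      have h6 : ∀ᶠ w in 𝓝[≠] (I c), w ∈ ball z0 ρ :=
        mem_nhdsWithin_of_mem_nhds (isOpen_ball.mem_nhds (hIm c hc))
      filter_upwards [h6, self_mem_nhdsWithin] with w hw hwne
      have h7 := hlow w hw _ (hIm c hc)
      rw [slope_def_field, norm_div, le_div_iff₀ (norm_pos_iff.2 (sub_ne_zero.2 hwne))]
      exact h7
    have h6 := ge_of_tendsto h4.norm h5
    rw [norm_zero] at h6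
    linarith
  have h3 := HasDerivAt.of_local_left_inverse hcont hdA.hasDerivAt hne (by
    filter_upwards [hb] with c' hc'
    exact (hI c' hc').2)
  exact h3.differentiableAt.differentiableWithinAt

end Pool.Agent.N155
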