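import Pool.Agent.N155.A.Pd
import Pool.Agent.N155.L.OFin
import Pool.Agent.N155.L.Ell1
import Pool.Agent.N155.L.SFin

/-! Dense entire curves in pluricanonically embedded surfaces. -/

set_option autoImplicit false

open Filter Topology Metric Set MvPolynomial LinearAlgebra.Projectivization

namespace Pool.Agent.N155

open FF Pool.Agent.Y190.OP Pool.Agent.W602.GT Pool.Agent.TH143.GT

variable {n : ℕ} {ι : Type} {F : ι → MvPolynomial (Fin (n + 1)) ℂ} {K : Type} [Field K]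
  [Algebra ℂ K] {y : Fin (n + 1) → K}
  {ω : Fin (n + 1) → (Fin 2 → Derivation ℂ K K) → K} {N : ℕ}

/-- the curves whose derivative is bounded above and below -/
structure BC (y : Fin (n + 1) → K) (c0 : ℝ) (φ : ℂ → Mat (n + 1)) : Prop where
  hol : HolP univ φ
  mem : ∀ z, φ z ∈ TX y
  bd : ∀ z, ‖fderiv ℝ φ z‖ ≤ 2
  low : ∀ z, c0 ≤ ‖fderiv ℝ φ z‖

theorem BC.cls {c0 : ℝ} (hc0 : 0 < c0) : Cls (TX y) c0 (BC y c0) where
  comp := isCompact_TX
  sub := TX_PM
  pos := hc0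
  hol := fun φ h => h.hol
  mem := fun φ h => h.mem
  bd := fun φ h => h.bd
  low := fun φ h => h.low
  shift := fun φ h t => ⟨holP_shift h.hol t, fun z => h.mem _,
    fun z => by rw [fderiv_shift]; exact h.bd _, fun z => by rw [fderiv_shift]; exact h.low _⟩
  lim := fun 𝓤 P hP => by
    obtain ⟨φ, h1, h2, h3, h4⟩ := exists_limit isCompact_TX TX_PM (𝓤 := 𝓤) (K := 2)
      (fun m => (hP m).hol) (fun m => (hP m).mem) (fun m => (hP m).bd)
    exact ⟨φ, ⟨h1, h2, fun z => le_of_tendsto (h4 z).norm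
      (Eventually.of_forall fun m => (hP m).bd z), fun z => ge_of_tendsto (h4 z).norm
      (Eventually.of_forall fun m => (hP m).low z)⟩, h3⟩

theorem aff0 {ρ : ℝ} (hρ : ρ ≠ 0) (z : ℂ) : aff 0 ρ (z / ρ) = z := by
  unfold aff
  have : (ρ : ℂ) ≠ 0 := by exact_mod_cast hρ
  field_simp
  simp

/-- **Dense curves whose derivative is bounded above and below.** -/
theorem no_dense' (hX : SmoothSurface F y) (R : ∀ h : K, Frac y h) (hω : Pluricanonical N ω y)
    {φ : ℂ → Mat (n + 1)} (hcv : Cv y φ) {B : ℝ} (hB : ∀ z, ‖fderiv ℝ φ z‖ ≤ B) {c : ℝ}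
    (hc : 0 < c) (hlow : ∀ z, c ≤ ‖fderiv ℝ φ z‖) : False := by
  have hB0 : 0 ≤ B := (norm_nonneg _).trans (hB 0)
  set ρ : ℝ := 2 / (B + 1) with hρ
  have hρ0 : 0 < ρ := by positivity
  have hLB := (lb_of_graph hX.sub hX.form hX.irred hX.smooth R).lbc
  obtain ⟨i, j, k, E, -, -, hdual, -⟩ := hLB (φ 0) (hcv.mem 0)
  refine no_dense hX R hω (BC.cls (y := y) (c0 := ρ * c) (by positivity))
    (f := fun z => φ (aff 0 ρ z)) ⟨?_, fun z => hcv.mem _, fun z => ?_, fun z => ?_⟩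
    ⟨?_, fun z => hcv.mem _, fun G hG hG0 => ?_⟩ hdual.1.1
  · have := hcv.hol.aff 0 ρ
    rwa [preimage_univ] at this
  · rw [norm_fderiv_aff hρ0.le (hcv.hol.differentiableAt (mem_univ _))]
    have h1 := hB (aff 0 ρ z)
    rw [hρ, div_mul_eq_mul_div, div_le_iff₀ (by positivity)]
    linarith
  · rw [norm_fderiv_aff hρ0.le (hcv.hol.differentiableAt (mem_univ _))]
    exact mul_le_mul_of_nonneg_left (hlow _) hρ0.le
  · have := hcv.hol.aff 0 ρ
    rwa [preimage_univ] at this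
  · obtain ⟨z, hz⟩ := hcv.dense G hG hG0
    refine ⟨z / ρ, ?_⟩
    rwa [aff0 hρ0.ne']

/-- **Dense curves are tangent to the symmetric differentials.** -/
theorem tangent_dense (hX : SmoothSurface F y) (R : ∀ h : K, Frac y h) (hω : Pluricanonical N ω y)
    {σ : SymD K} (hd : 0 < σ.d) (hreg : σ.Regular 2) {φ : ℂ → Mat (n + 1)} (hcv : Cv y φ) {B : ℝ}
    (hB : ∀ z, ‖fderiv ℝ φ z‖ ≤ B) : SEq R σ 0 φ := by
  have hLB0 := (lb_of_graph hX.sub hX.form hX.irred hX.smooth R).lbc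
  obtain ⟨C, hC, hex⟩ := exists_const R isCompact_TX hLB0 (fun v hv _ => hreg v hv)
  obtain ⟨c, hseq, hlow⟩ := hex φ hcv hcv.mem B hB
  by_cases hc : c = 0
  · rwa [hc] at hseq
  exfalso
  have hcpos : 0 < ‖c‖ := norm_pos_iff.2 hc
  have hc0 : 0 < min 1 (‖c‖ / (C + 1)) := lt_min one_pos (by positivity)
  refine no_dense' hX R hω hcv hB hc0 fun z => ?_
  rcases le_total 1 ‖fderiv ℝ φ z‖ with h1 | h1
  · exact (min_le_left _ _).trans h1
  · refine (min_le_right _ _).trans ?_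
    rw [div_le_iff₀ (by positivity)]
    have h2 : ‖fderiv ℝ φ z‖ ^ σ.d ≤ ‖fderiv ℝ φ z‖ := by
      have := pow_le_pow_of_le_one (norm_nonneg _) h1 hd
      rwa [pow_one] at this
    have h3 := hlow z
    have h4 := norm_nonneg (fderiv ℝ φ z)
    nlinarith

/-- nondegenerate maps are dense curves -/
theorem cv_of_map (hX : SmoothSurface F y) {f : ℂ → ℙ ℂ (Fin (n + 1) → ℂ)} (hf : HolMap f)
    (hfX : ∀ z, (f z).rep ∈ Cone F) (hnd : ¬ Degenerate y f) : Cv y fun z => Phi (f z).rep := by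
  refine ⟨holP_of_map hf, fun z => ⟨(f z).rep, hX.irred (hfX z), rfl⟩, fun G hG hG0 => ?_⟩
  by_contra hcon
  push Not at hcon
  refine hnd ⟨G, hG, hG0, fun z => ?_⟩
  obtain ⟨d, hd⟩ := hG
  have h1 := hcon z
  rw [nz_Phi hd (f z).rep_nonzero, not_not] at h1
  rw [val_eval]
  exact h1

/-- (1) -/
theorem degenerate_of_below (hX : SmoothSurface F y) (hω : Pluricanonical N ω y)
    {f : ℂ → ℙ ℂ (Fin (n + 1) → ℂ)} (hf : HolMap f) (hfX : ∀ z, (f z).rep ∈ Cone F)
    (hb : BoundedDer f) (hlow : DerBelow f) : Degenerate y f := by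
  by_contra hnd
  have hcv := cv_of_map hX hf hfX hnd
  obtain ⟨B, hB⟩ := bounded_phi hf hb
  obtain ⟨c, hc, hlow⟩ := hlow
  refine no_dense' hX (fr hX.sub.gen) hω hcv hB (c := c / (4 * ((n : ℝ) + 1) ^ 2)) (by positivity)
    fun z => ?_
  obtain ⟨V, g, hV, hzV, hg, hfg⟩ := hf z
  obtain ⟨i, j, hij⟩ := hlow V g hV hg hfg z hzV
  have h1 := derBound_of_fderiv (f := f) (z := z) (C := ‖fderiv ℝ (fun z => Phi (f z).rep) z‖)
    le_rfl (hcv.hol.differentiableAt (mem_univ z)) V g hV hzV hg hfg i j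
  have hg0 : g z ≠ 0 := (hfg z hzV).1
  have hpos : 0 < ∑ k, ‖g z k‖ ^ 2 := by
    obtain ⟨k, hk⟩ : ∃ k, g z k ≠ 0 := by
      by_contra hcon
      push Not at hcon
      exact hg0 (funext hcon)
    refine lt_of_lt_of_le (b := ‖g z k‖ ^ 2) (by
      have := norm_pos_iff.2 hk
      positivity) ?_
    exact Finset.single_le_sum (f := fun l => ‖g z l‖ ^ 2) (fun _ _ => by positivity)
      (Finset.mem_univ k)
  rw [div_le_iff₀ (by positivity)]
  have h2 := hij.trans h1
  have h3 := le_of_mul_le_mul_right h2 hpos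
  linarith

/-- (2) -/
theorem tangent_of_nondeg (hX : SmoothSurface F y) (hω : Pluricanonical N ω y)
    {f : ℂ → ℙ ℂ (Fin (n + 1) → ℂ)} (hf : HolMap f) (hfX : ∀ z, (f z).rep ∈ Cone F)
    (hb : BoundedDer f) (hnd : ¬ Degenerate y f) {σ : SymD K} (hd : 0 < σ.d)
    (hreg : σ.Regular 2) : σ.Tangent y f := by
  intro V H Φ hV hH hΦ z0 hz0
  set φ : ℂ → Mat (n + 1) := fun z => Phi (f z).rep with hφ
  have hcv : Cv y φ := cv_of_map hX hf hfX hnd
  have hol : HolP univ φ := hcv.hol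
  have hcont : Continuous φ := continuous_iff_continuousAt.2 fun _ => hol.continuousAt (mem_univ _)
  obtain ⟨B, hB⟩ := bounded_phi hf hb
  have hne : ∀ z, (f z).rep ≠ 0 := fun z => (f z).rep_nonzero
  set R : ∀ h : K, Frac y h := frAt hX.sub.gen (f z0).rep with hR
  have hsg : sgood R σ (φ z0) :=
    ⟨fun j => frAt_good _ (hne z0) (hH z0 hz0 j), fun j l => frAt_good _ (hne z0) (hΦ z0 hz0 j l)⟩
  have h1 : ∀ j, H j z0 = ev R (σ.h j) (φ z0) := fun j =>
    ev_of_valAt R (hX.irred (hfX z0)) (hH z0 hz0 j) (hsg.1 j)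
  have h2 : ∀ j l, deriv (Φ j l) z0 = deriv (fun w => ev R (σ.f j l) (φ w)) z0 := by
    intro j l
    apply EventuallyEq.deriv_eq
    filter_upwards [hV.mem_nhds hz0,
      ((isOpen_good R (σ.f j l)).preimage hcont).mem_nhds (hsg.2 j l)] with w hw hw'
    exact ev_of_valAt R (hX.irred (hfX w)) (hΦ w hw j l) hw'
  have h3 : ∑ j, H j z0 * ∏ l, deriv (Φ j l) z0 = sval R σ φ z0 := by
    unfold sval
    simp only [h1, h2]
  rw [h3]
  exact tangent_dense hX R hω hd hreg hcv hB z0 hsg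

/-- (3) -/
theorem degenerate_of_sym (hX : SmoothSurface F y) (hω : Pluricanonical N ω y)
    (h : ∀ (L : Type) [Field L] [Algebra ℂ L] [Algebra K L] [IsScalarTower ℂ K L]
      (D : Derivation ℂ K L), (∀ k, D k = 0 → ∃ c : ℂ, k = algebraMap ℂ K c) →
      ∃ σ : SymD K, 0 < σ.d ∧ σ.Regular 2 ∧ σ.app D ≠ 0)
    {f : ℂ → ℙ ℂ (Fin (n + 1) → ℂ)} (hf : HolMap f) (hfX : ∀ z, (f z).rep ∈ Cone F)
    (hb : BoundedDer f) : Degenerate y f := by
  by_contra hnd
  set H : ℂ → Mat (n + 1) := fun z => Phi (f z).rep with hφ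
  have hcv : Cv y H := cv_of_map hX hf hfX hnd
  obtain ⟨B, hB⟩ := bounded_phi hf hb
  let R : ∀ h : K, Frac y h := fr hX.sub.gen
  set e := hcv.emb R with he
  let _ : Algebra K MK := e.toRingHom.toAlgebra
  have hal : ∀ k : K, algebraMap K MK k = e k := fun k => rfl
  have _ : IsScalarTower ℂ K MK := IsScalarTower.of_algebraMap_eq fun c => by
    rw [hal, e.commutes]
  have hder := hcv.isDer R
  let D : Derivation ℂ K MK := Derivation.mk'
    { toFun := fun k => MD (e k)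
      map_add' := fun a b => hder.add a b
      map_smul' := fun c a => by
        have h1 : MD (e (algebraMap ℂ K c * a)) = e (algebraMap ℂ K c) * MD (e a) +
            e a * MD (e (algebraMap ℂ K c)) := hder.mul (algebraMap ℂ K c) a
        have h2 : MD (e (algebraMap ℂ K c)) = 0 := hder.const c
        rw [RingHom.id_apply, Algebra.smul_def, h1, h2, mul_zero, add_zero, e.commutes,
          Algebra.smul_def] } (fun a b => by
        have h1 : MD (e (a * b)) = e a * MD (e b) + e b * MD (e a) := hder.mul a b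
        change MD (e (a * b)) = a • MD (e b) + b • MD (e a)
        rw [h1, Algebra.smul_def, Algebra.smul_def, hal, hal])
  obtain ⟨σ, hσd, hσr, hσ⟩ := h MK D (fun k hk => by
    have h1 : MD (e k) = 0 := hk
    obtain ⟨c, hc⟩ := MD_eq_zero h1
    refine ⟨c, e.toRingHom.injective ?_⟩
    change e _ = e _
    rw [hc, e.commutes])
  apply hσ
  have h1 : σ.app D = cl (sval R σ H) (mero_sval R hcv σ) := by
    rw [cl_sval]
    rfl
  rw [h1, cl_eq_zero]
  have h2 := tangent_dense hX R hω hσd hσr hcv hB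
  filter_upwards [hcv.sgood R σ] with z hz
  exact h2 z hz

/-- (4) -/
theorem degenerate_of_prod (hX : SmoothSurface F y) (hω : Pluricanonical N ω y) {d : ℕ}
    (hd : 0 < d) {h : K} (hh : h ≠ 0) {a : Fin d → K} (ha : ∀ l, Transcendental ℂ (a l))
    (hreg : (⟨d, 1, fun _ => h, fun _ => a⟩ : SymD K).Regular 2)
    {f : ℂ → ℙ ℂ (Fin (n + 1) → ℂ)} (hf : HolMap f) (hfX : ∀ z, (f z).rep ∈ Cone F)
    (hb : BoundedDer f) : Degenerate y f := by
  refine degenerate_of_sym hX hω (fun L _ _ _ _ D hD => ⟨_, hd, hreg, ?_⟩) hf hfX hb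
  unfold SymD.app
  rw [Fin.sum_univ_one]
  refine mul_ne_zero ?_ (Finset.prod_ne_zero_iff.2 fun l _ h0 => ?_)
  · exact (map_ne_zero_iff _ (algebraMap K L).injective).2 hh
  · obtain ⟨c, hc⟩ := hD _ h0
    apply ha l
    have hc' : a l = algebraMap ℂ K c := hc
    rw [hc']
    exact isAlgebraic_algebraMap _

/-- (5) -/
theorem degenerate_of_elliptic (hX : SmoothSurface F y) (hω : Pluricanonical N ω y) {a b : K}
    {g2 g3 : ℂ} (hab : b ^ 2 = 4 * a ^ 3 - algebraMap ℂ K g2 * a - algebraMap ℂ K g3)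
    (hdisc : g2 ^ 3 ≠ 27 * g3 ^ 2) (ha : Transcendental ℂ a)
    {f : ℂ → ℙ ℂ (Fin (n + 1) → ℂ)} (hf : HolMap f) (hfX : ∀ z, (f z).rep ∈ Cone F)
    (hb : BoundedDer f) : Degenerate y f := by
  have hb0 : b ≠ 0 := by
    rintro rfl
    apply ha
    refine ⟨4 * Polynomial.X ^ 3 - Polynomial.C g2 * Polynomial.X - Polynomial.C g3, ?_, ?_⟩
    · intro h0
      have h1 := congrArg (fun p => Polynomial.coeff p 3) h0
      have h4 : (4 : Polynomial ℂ) = Polynomial.C 4 := rfl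
      simp only [Polynomial.coeff_sub, Polynomial.coeff_zero] at h1
      rw [h4, Polynomial.coeff_C_mul_X_pow] at h1
      simp [Polynomial.coeff_C, Polynomial.coeff_X] at h1
    · simp only [map_sub, map_mul, map_pow, Polynomial.aeval_X, Polynomial.aeval_C, map_ofNat]
      rw [← hab]
      ring
  exact degenerate_of_prod hX hω one_pos (inv_ne_zero hb0) (fun _ => ha)
    (ell_regular hab hdisc 2) hf hfX hb

end Pool.Agent.N155
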