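import Pool.Agent.N155.A.Sq
import Pool.Agent.N155.L.Per2

/-! The dense curves in the class are doubly periodic. -/

set_option autoImplicit false

open Filter Topology Metric Set MvPolynomial

namespace Pool.Agent.N155

open FF Pool.Agent.Y190.OP Pool.Agent.W602.GT Pool.Agent.TH143.GT

/-- the affine symmetries of a curve are translations -/
theorem affsym {N : ℕ} {𝒞 : (ℂ → Mat N) → Prop} {r c1 : ℝ} (hi : Inj r c1 𝒞) (hr : 0 < r)
    (hc1 : 0 < c1) {f : ℂ → Mat N} (hf : 𝒞 f) {a b : ℂ} (hs : ∀ w, f w = f (a * w + b)) :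
    a = 1 := by
  by_contra hne
  have h1 : a - 1 ≠ 0 := sub_ne_zero.2 hne
  have h2 : 1 - a ≠ 0 := sub_ne_zero.2 (Ne.symm hne)
  have h3 := hi f hf (b / (1 - a) + r / (a - 1)) r (by
    rw [Complex.norm_real, Real.norm_of_nonneg hr.le]
    linarith)
  have h4 : b / (1 - a) + r / (a - 1) + r = a * (b / (1 - a) + r / (a - 1)) + b := by
    field_simp
    ring
  rw [h4, ← hs, sub_self, norm_zero, Complex.norm_real, Real.norm_of_nonneg hr.le] at h3
  have : 0 < c1 * r := mul_pos hc1 hr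
  linarith

variable {n : ℕ} {K : Type} [Field K] [Algebra ℂ K] {y : Fin (n + 1) → K}
  {ω : Fin (n + 1) → (Fin 2 → Derivation ℂ K K) → K} {N : ℕ}
  {ι : Type} {F : ι → MvPolynomial (Fin (n + 1)) ℂ}
  {c0 : ℝ} {𝒞 : (ℂ → Mat (n + 1)) → Prop}

/-- **Periods.** -/
theorem period_aff (hX : SmoothSurface F y) (R : ∀ h : K, Frac y h) (hω : Pluricanonical N ω y)
    (h : Cls (TX y) c0 𝒞) {f : ℂ → Mat (n + 1)} (hf : 𝒞 f) (hcv : Cv y f) {ζ : ℂ} :
    ∃ (p : ℂ) (k : ℝ), 1 ≤ k ∧ ‖p - k * ζ‖ ≤ 1 / 4 ∧ ∀ z, f (z + p) = f z := by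
  have hc0 := h.pos
  obtain ⟨r0, c1, hr0, hc1, hinj0⟩ := h.inj
  set r : ℝ := min r0 (c0 / 4) with hrdef
  have hr : 0 < r := by positivity
  have hi : Inj r c1 𝒞 := by
    intro φ hφ z t ht
    exact hinj0 φ hφ z t (ht.trans (by linarith [min_le_left r0 (c0 / 4)]))
  obtain ⟨η0, hη0, hule⟩ := h.ule hr
  set η : ℝ := min (min (η0 / 2) 1) (min (r / 8) (min (c0 * (r / 16)) (c1 * (r / 32)))) with hηdef
  have hη : 0 < η := by positivity
  have e1 : η ≤ η0 / 2 := (min_le_left _ _).trans (min_le_left _ _)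
  have e2 : η ≤ 1 := (min_le_left _ _).trans (min_le_right _ _)
  have e3 : η ≤ r / 8 := (min_le_right _ _).trans (min_le_left _ _)
  have e4 : η ≤ c0 * (r / 16) := (min_le_right _ _).trans ((min_le_right _ _).trans
    (min_le_left _ _))
  have e5 : η ≤ c1 * (r / 32) := (min_le_right _ _).trans ((min_le_right _ _).trans
    (min_le_right _ _))
  have hηc : 2 / c0 * η ≤ r / 8 := by
    rw [div_mul_eq_mul_div, div_le_iff₀ hc0]
    linarith
  have hηη : η < η0 := by linarith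
  obtain ⟨ρ, δ, θ, hρ, hδ, hθ0, hθ, hCT⟩ := contr_leaf hX R hω h hi hr hc1 hη (by linarith) hηη hule
  have hψ : ∀ m : ℕ, 𝒞 (fun w => f (m * ζ + w)) := fun m => h.shift f hf _
  have hψc : ∀ m : ℕ, Cv y (fun w => f (m * ζ + w)) := fun m =>
    ⟨holP_shift hcv.hol _, fun z => hcv.mem _, fun G hG hG0 => by
      obtain ⟨w, hw⟩ := hcv.dense G hG hG0
      exact ⟨w - m * ζ, by rwa [add_sub_cancel]⟩⟩
  obtain ⟨χ, hχ, hlim⟩ := h.lim (hyperfilter ℕ) _ hψ
  have hQlim : CConv (hyperfilter ℕ : Filter ℕ) univ (fun _ => χ) χ := by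
    intro z _
    have h1 : ContinuousAt χ z := (h.hol χ hχ).continuousAt (mem_univ z)
    exact h1.tendsto.comp tendsto_snd
  have hsep := sep_aff h hi hr hc1 hη e2 e3 hηc (by linarith) hηη hule hCT hψ hψc (fun _ => hχ)
    hρ hδ hθ0 hθ hlim hQlim
  obtain ⟨m, α, β, hβ, hm⟩ := hsep.exists
  obtain ⟨m', ⟨α', β', hβ', hm'⟩, hmm⟩ := (hsep.and (hyp_ge ((m : ℝ) + 1))).exists
  obtain ⟨hα1, -⟩ := h.alpha (hψ m) hχ hm
  have hα : α ≠ 0 := by
    intro h0
    rw [h0, norm_zero] at hα1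
    linarith
  -- the symmetry
  have hsym : ∀ w, f w = f (α' / α * w + (m * ζ - α' / α * (m' * ζ) + (β' - β) / α)) := by
    intro w
    have h1 := hm' (w - m' * ζ)
    have h2 := hm (α' / α * (w - m' * ζ) + (β' - β) / α)
    have k1 : (m' : ℂ) * ζ + (w - m' * ζ) = w := by ring
    have k2 : α * (α' / α * (w - m' * ζ) + (β' - β) / α) + β = α' * (w - m' * ζ) + β' := by
      field_simp
      ring
    have k3 : (m : ℂ) * ζ + (α' / α * (w - m' * ζ) + (β' - β) / α) =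
        α' / α * w + (m * ζ - α' / α * (m' * ζ) + (β' - β) / α) := by ring
    simp only [k1] at h1
    simp only [k2, k3] at h2
    rw [h1, h2]
  have hone := affsym hi hr hc1 hf hsym
  have hsym' : ∀ w, f w = f (w + (m * ζ - m' * ζ + (β' - β) / α)) := by
    intro w
    have h1 := hsym w
    rwa [hone, one_mul, one_mul] at h1
  refine ⟨m' * ζ - m * ζ - (β' - β) / α, (m' : ℝ) - m, by linarith, ?_, fun z => ?_⟩
  · have h1 : m' * ζ - m * ζ - (β' - β) / α - ((m' : ℝ) - m : ℝ) * ζ = -((β' - β) / α) := by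
      push_cast
      ring
    rw [h1, norm_neg, norm_div, div_le_iff₀ (norm_pos_iff.2 hα)]
    have h2 := norm_sub_le β' β
    have h3 : r ≤ c0 / 4 := min_le_right _ _
    linarith
  · rw [hsym' (z + (m' * ζ - m * ζ - (β' - β) / α))]
    congr 1
    ring

/-- **There are no dense curves in the class.** -/
theorem no_dense (hX : SmoothSurface F y) (R : ∀ h : K, Frac y h) (hω : Pluricanonical N ω y)
    (h : Cls (TX y) c0 𝒞) {f : ℂ → Mat (n + 1)} (hf : 𝒞 f) (hcv : Cv y f) {x : Fin 2 → K}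
    (hx : AlgebraicIndependent ℂ x) : False := by
  obtain ⟨p, k, hk, hpk, hp⟩ := period_aff hX R hω h hf hcv (ζ := 1)
  obtain ⟨q, l, hl, hql, hq⟩ := period_aff hX R hω h hf hcv (ζ := Complex.I)
  exact not_ell R hcv hx (indep_of_close hk hl hpk hql) hp hq

end Pool.Agent.N155
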