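import Pool.Agent.N155.A.Gen
import Pool.Agent.N155.A.Inv
import Pool.Agent.N155.L.Nd

/-! Deformations of a curve, up to reparametrisations. -/

set_option autoImplicit false

open Filter Topology Metric Set MvPolynomial

namespace Pool.Agent.N155

open FF Pool.Agent.Y190.OP Pool.Agent.W602.GT Pool.Agent.TH143.GT

variable {n : ℕ} {K : Type} [Field K] [Algebra ℂ K]

/-- a deformation of the curve `χ`, up to reparametrisations -/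
structure Pr (y : Fin (n + 1) → K) (𝓤 : Ultrafilter ℕ) (χ : ℂ → Mat (n + 1))
    (P Q : ℕ → ℂ → Mat (n + 1)) (s wt : ℕ → ℂ → ℂ) (B C0 : ℝ) : Prop where
  cP : ∀ m, Cv y (P m)
  hQ : ∀ m, HolP univ (Q m)
  mQ : ∀ m z, Q m z ∈ TX y
  hχ : HolP univ χ
  mχ : ∀ z, χ z ∈ TX y
  im : ∀ z, fderiv ℝ χ z ≠ 0
  bχ : ∀ z, ‖fderiv ℝ χ z‖ ≤ B
  bQ : ∀ m z, ‖fderiv ℝ (Q m) z‖ ≤ B
  lP : CConv (𝓤 : Filter ℕ) univ P χ
  lQ : CConv (𝓤 : Filter ℕ) univ Q χ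
  ls : CConv (𝓤 : Filter ℕ) univ s (fun _ => 0)
  wd : ∀ m, Differentiable ℂ (wt m)
  bd : ∀ L : ℝ, ∀ᶠ m in (𝓤 : Filter ℕ), ∀ z ∈ closedBall (0 : ℂ) L,
    ‖Q m (z + s m z) - P m z‖ * ‖wt m z‖ ≤ C0

variable {y : Fin (n + 1) → K} {𝓤 : Ultrafilter ℕ} {χ : ℂ → Mat (n + 1)}
  {P Q : ℕ → ℂ → Mat (n + 1)} {s wt : ℕ → ℂ → ℂ} {B C0 : ℝ}

/-- the displacement of the function `F` -/
noncomputable def DD (𝓤 : Ultrafilter ℕ) (P Q : ℕ → ℂ → Mat (n + 1)) (s wt : ℕ → ℂ → ℂ)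
    (F : Mat (n + 1) → ℂ) (z : ℂ) : ℂ :=
  ulim 𝓤 fun m => (F (Q m (z + s m z)) - F (P m z)) * wt m z

/-- the derivative of the function `F` -/
noncomputable def VV (χ : ℂ → Mat (n + 1)) (F : Mat (n + 1) → ℂ) (z : ℂ) : ℂ :=
  deriv (fun w => F (χ w)) z

theorem Pr.cont (h : Pr y 𝓤 χ P Q s wt B C0) : Continuous χ :=
  continuous_iff_continuousAt.2 fun _ => h.hχ.continuousAt (mem_univ _)

theorem Pr.lip (h : Pr y 𝓤 χ P Q s wt B C0) (z w : ℂ) : ‖χ w - χ z‖ ≤ B * ‖w - z‖ :=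
  (convex_univ).norm_image_sub_le_of_norm_fderiv_le
    (fun x _ => h.hχ.differentiableAt (mem_univ x)) (fun x _ => h.bχ x) (mem_univ z) (mem_univ w)

theorem Pr.tP (h : Pr y 𝓤 χ P Q s wt B C0) (z : ℂ) :
    Tendsto (fun m => P m z) 𝓤 (𝓝 (χ z)) := h.lP.pointwise (mem_univ z)

theorem Pr.ts (h : Pr y 𝓤 χ P Q s wt B C0) (z : ℂ) :
    Tendsto (fun m => s m z) 𝓤 (𝓝 0) := h.ls.pointwise (mem_univ z)

theorem Pr.tQ (h : Pr y 𝓤 χ P Q s wt B C0) (z : ℂ) :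
    Tendsto (fun m => Q m (z + s m z)) 𝓤 (𝓝 (χ z)) := by
  apply CConv.seq h.lQ (mem_univ z)
  have := (h.ts z).const_add z
  rwa [add_zero] at this

theorem Pr.bdz (h : Pr y 𝓤 χ P Q s wt B C0) (z : ℂ) :
    ∀ᶠ m in (𝓤 : Filter ℕ), ‖Q m (z + s m z) - P m z‖ * ‖wt m z‖ ≤ C0 := by
  filter_upwards [h.bd ‖z‖] with m hm
  exact hm z (mem_closedBall_zero_iff.2 le_rfl)

theorem Pr.C0_nonneg (h : Pr y 𝓤 χ P Q s wt B C0) : 0 ≤ C0 := by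
  obtain ⟨m, hm⟩ := (h.bdz 0).exists
  exact le_trans (by positivity) hm

theorem Pr.B_nonneg (h : Pr y 𝓤 χ P Q s wt B C0) : 0 ≤ B := (norm_nonneg _).trans (h.bχ 0)

theorem Pr.dd (h : Pr y 𝓤 χ P Q s wt B C0) {z : ℂ} {F : Mat (n + 1) → ℂ} {C : ℝ} (hC : 0 ≤ C)
    {O : Set (Mat (n + 1))} (hO : O ∈ 𝓝 (χ z))
    (hL : ∀ M ∈ O, ∀ M' ∈ O, ‖F M - F M'‖ ≤ C * ‖M - M'‖) :
    Tendsto (fun m => (F (Q m (z + s m z)) - F (P m z)) * wt m z) 𝓤 (𝓝 (DD 𝓤 P Q s wt F z)) ∧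
      ‖DD 𝓤 P Q s wt F z‖ ≤ C * C0 := by
  have h1 : ∀ᶠ m in (𝓤 : Filter ℕ), ‖(F (Q m (z + s m z)) - F (P m z)) * wt m z‖ ≤ C * C0 := by
    filter_upwards [h.bdz z, (h.tQ z).eventually hO, (h.tP z).eventually hO] with m h2 h3 h4
    rw [norm_mul]
    calc _ ≤ C * ‖Q m (z + s m z) - P m z‖ * ‖wt m z‖ :=
          mul_le_mul_of_nonneg_right (hL _ h3 _ h4) (norm_nonneg _)
      _ = C * (‖Q m (z + s m z) - P m z‖ * ‖wt m z‖) := by ring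
      _ ≤ C * C0 := mul_le_mul_of_nonneg_left h2 hC
  obtain ⟨d, hd⟩ := exists_lim h1
  have h2 : DD 𝓤 P Q s wt F z = d := ulim_eq hd
  rw [h2]
  exact ⟨hd, le_of_tendsto hd.norm h1⟩

/-- **The chain rule.** -/
theorem Pr.dd_comp (h : Pr y 𝓤 χ P Q s wt B C0) {z : ℂ} {F a b : Mat (n + 1) → ℂ}
    {τ : ℂ × ℂ → ℂ} {τ' : ℂ × ℂ →L[ℂ] ℂ} (hτ : HasStrictFDerivAt τ τ' (a (χ z), b (χ z)))
    (ha : ContinuousAt a (χ z)) (hb : ContinuousAt b (χ z)) {O : Set (Mat (n + 1))}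
    (hO : O ∈ 𝓝 (χ z)) (hF : ∀ M ∈ O ∩ TX y, F M = τ (a M, b M)) {da db : ℂ}
    (hda : Tendsto (fun m => (a (Q m (z + s m z)) - a (P m z)) * wt m z) 𝓤 (𝓝 da))
    (hdb : Tendsto (fun m => (b (Q m (z + s m z)) - b (P m z)) * wt m z) 𝓤 (𝓝 db)) :
    Tendsto (fun m => (F (Q m (z + s m z)) - F (P m z)) * wt m z) 𝓤 (𝓝 (τ' (da, db))) := by
  set p0 : ℂ × ℂ := (a (χ z), b (χ z)) with hp0
  set u : ℕ → ℂ × ℂ := fun m => (a (Q m (z + s m z)), b (Q m (z + s m z))) with hu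
  set v : ℕ → ℂ × ℂ := fun m => (a (P m z), b (P m z)) with hv
  have hut : Tendsto u 𝓤 (𝓝 p0) :=
    (ha.tendsto.comp (h.tQ z)).prodMk_nhds (hb.tendsto.comp (h.tQ z))
  have hvt : Tendsto v 𝓤 (𝓝 p0) :=
    (ha.tendsto.comp (h.tP z)).prodMk_nhds (hb.tendsto.comp (h.tP z))
  have huv : Tendsto (fun m => (u m, v m)) 𝓤 (𝓝 (p0, p0)) := hut.prodMk_nhds hvt
  have hw : Tendsto (fun m => wt m z • (u m - v m)) 𝓤 (𝓝 (da, db)) := by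
    have h1 := hda.prodMk_nhds hdb
    refine h1.congr fun m => ?_
    apply Prod.ext
    · exact mul_comm _ _
    · exact mul_comm _ _
  have h1 : Tendsto (fun m => wt m z • τ' (u m - v m)) 𝓤 (𝓝 (τ' (da, db))) := by
    have h2 := (τ'.continuous.tendsto (da, db)).comp hw
    refine h2.congr fun m => ?_
    simp only [Function.comp_apply, map_smul]
  have h2 : Tendsto (fun m => wt m z * (τ (u m) - τ (v m) - τ' (u m - v m))) 𝓤 (𝓝 0) := by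
    obtain ⟨Cw, hCw, hbw⟩ : ∃ Cw : ℝ, 0 < Cw ∧ ∀ᶠ m in (𝓤 : Filter ℕ),
        ‖wt m z • (u m - v m)‖ ≤ Cw := by
      refine ⟨‖((da, db) : ℂ × ℂ)‖ + 1, by positivity, ?_⟩
      have := hw.norm.eventually_lt_const (lt_add_one _)
      exact this.mono fun m hm => hm.le
    rw [Metric.tendsto_nhds]
    intro ε hε
    have h3 := (hτ.isLittleO.def (show 0 < ε / (2 * Cw) by positivity))
    have h4 := huv.eventually h3
    filter_upwards [h4, hbw] with m k1 k2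
    rw [dist_zero_right, norm_mul]
    rw [norm_smul] at k2
    calc ‖wt m z‖ * ‖τ (u m) - τ (v m) - τ' (u m - v m)‖ ≤
          ‖wt m z‖ * (ε / (2 * Cw) * ‖u m - v m‖) := mul_le_mul_of_nonneg_left k1 (norm_nonneg _)
      _ = ε / (2 * Cw) * (‖wt m z‖ * ‖u m - v m‖) := by ring
      _ ≤ ε / (2 * Cw) * Cw := mul_le_mul_of_nonneg_left k2 (by positivity)
      _ = ε / 2 := by field_simp
      _ < ε := by linarith
  have h3 := h1.add h2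
  rw [add_zero] at h3
  refine h3.congr' ?_
  filter_upwards [(h.tQ z).eventually hO, (h.tP z).eventually hO] with m k1 k2
  rw [hF _ ⟨k1, h.mQ m _⟩, hF _ ⟨k2, (h.cP m).mem z⟩]
  rw [smul_eq_mul]
  change _ = (τ (u m) - τ (v m)) * wt m z
  ring

theorem Pr.vv_comp (h : Pr y 𝓤 χ P Q s wt B C0) {z : ℂ} {F a b : Mat (n + 1) → ℂ}
    {τ : ℂ × ℂ → ℂ} {τ' : ℂ × ℂ →L[ℂ] ℂ} (hτ : HasFDerivAt τ τ' (a (χ z), b (χ z)))
    {O : Set (Mat (n + 1))} (hO : O ∈ 𝓝 (χ z)) (hF : ∀ M ∈ O ∩ TX y, F M = τ (a M, b M))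
    (hda : DifferentiableAt ℂ (fun w => a (χ w)) z)
    (hdb : DifferentiableAt ℂ (fun w => b (χ w)) z) :
    VV χ F z = τ' (VV χ a z, VV χ b z) := by
  have h1 : HasDerivAt (fun w => (a (χ w), b (χ w))) (VV χ a z, VV χ b z) z :=
    hda.hasDerivAt.prodMk hdb.hasDerivAt
  have h2 := hτ.comp_hasDerivAt z h1
  have h3 : (fun w => F (χ w)) =ᶠ[𝓝 z] (τ ∘ fun w => (a (χ w), b (χ w))) := by
    filter_upwards [h.cont.continuousAt.eventually hO] with w hw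
    exact hF _ ⟨hw, h.mχ w⟩
  unfold VV
  rw [h3.deriv_eq]
  exact h2.deriv

variable {R : ∀ h : K, Frac y h} {ω : Fin (n + 1) → (Fin 2 → Derivation ℂ K K) → K}

theorem Pr.diff_qv (h : Pr y 𝓤 χ P Q s wt B C0) {z : ℂ} (r : Fin (n + 1)) {i : Fin (n + 1)}
    (hi : nz (X i) (χ z)) : DifferentiableAt ℂ (fun w => qv (X r) (X i) (χ w)) z :=
  (an_qv h.hχ (mem_univ z) (isHomogeneous_X _ _) (isHomogeneous_X _ _) hi).differentiableAt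

/-- the normal component of the displacement, in a chart -/
noncomputable def Chb.W (c : Chb y R ω) (𝓤 : Ultrafilter ℕ) (χ : ℂ → Mat (n + 1))
    (P Q : ℕ → ℂ → Mat (n + 1)) (s wt : ℕ → ℂ → ℂ) (z : ℂ) : ℂ :=
  VV χ (qv (X c.j) (X c.i)) z * DD 𝓤 P Q s wt (qv (X c.k) (X c.i)) z -
    VV χ (qv (X c.k) (X c.i)) z * DD 𝓤 P Q s wt (qv (X c.j) (X c.i)) z

theorem Pr.ddc (h : Pr y 𝓤 χ P Q s wt B C0) (c : Chb y R ω) {z : ℂ} (hz : χ z ∈ c.O)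
    (r : Fin (n + 1)) : Tendsto (fun m => (qv (X r) (X c.i) (Q m (z + s m z)) -
      qv (X r) (X c.i) (P m z)) * wt m z) 𝓤 (𝓝 (DD 𝓤 P Q s wt (qv (X r) (X c.i)) z)) ∧
      ‖DD 𝓤 P Q s wt (qv (X r) (X c.i)) z‖ ≤ c.C * C0 :=
  h.dd c.C0 (c.cht.Oo.mem_nhds hz) (c.lip r)

theorem Pr.vvc (h : Pr y 𝓤 χ P Q s wt B C0) (c : Chb y R ω) {z : ℂ} (hz : χ z ∈ c.O)
    (r : Fin (n + 1)) : ‖VV χ (qv (X r) (X c.i)) z‖ ≤ c.C * B := by
  apply norm_deriv_le_of_lip' (mul_nonneg c.C0 h.B_nonneg)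
  filter_upwards [h.cont.continuousAt.eventually (c.cht.Oo.mem_nhds hz)] with w hw
  refine (c.lip r _ hw _ hz).trans ?_
  rw [mul_assoc]
  exact mul_le_mul_of_nonneg_left (h.lip z w) c.C0

theorem Pr.W_bound (h : Pr y 𝓤 χ P Q s wt B C0) (c : Chb y R ω) {z : ℂ} (hz : χ z ∈ c.O) :
    ‖c.W 𝓤 χ P Q s wt z‖ ≤ 2 * ((c.C * B) * (c.C * C0)) := by
  unfold Chb.W
  refine (norm_sub_le _ _).trans ?_
  rw [norm_mul, norm_mul, two_mul]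
  have hB := h.B_nonneg
  have hC := c.C0
  exact add_le_add (mul_le_mul (h.vvc c hz _) (h.ddc c hz _).2 (norm_nonneg _) (by positivity))
    (mul_le_mul (h.vvc c hz _) (h.ddc c hz _).2 (norm_nonneg _) (by positivity))

theorem Pr.key (h : Pr y 𝓤 χ P Q s wt B C0) (c : Chb y R ω) {z : ℂ} (hz : χ z ∈ c.O)
    {i' : Fin (n + 1)} (hnz' : N155.nz (X i') (χ z)) (r : Fin (n + 1)) :
    VV χ (qv (X r) (X i')) z =
      VV χ (qv (X c.j) (X c.i)) z * fderiv ℂ (c.tr r i') (c.pt (χ z)) (1, 0) +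
        VV χ (qv (X c.k) (X c.i)) z * fderiv ℂ (c.tr r i') (c.pt (χ z)) (0, 1) ∧
      DD 𝓤 P Q s wt (qv (X r) (X i')) z =
      DD 𝓤 P Q s wt (qv (X c.j) (X c.i)) z * fderiv ℂ (c.tr r i') (c.pt (χ z)) (1, 0) +
        DD 𝓤 P Q s wt (qv (X c.k) (X c.i)) z * fderiv ℂ (c.tr r i') (c.pt (χ z)) (0, 1) := by
  have hO : c.O ∩ {M | N155.nz (X i') M} ∈ 𝓝 (χ z) :=
    inter_mem (c.cht.Oo.mem_nhds hz) ((isOpen_nz _).mem_nhds hnz')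
  have hnz : N155.nz (X c.i) (χ z) := c.cht.nz _ hz
  obtain ⟨hp0, -⟩ := c.tr_eq ⟨hz, h.mχ z⟩ hnz'
  have hU := c.pt_mem ⟨hz, h.mχ z⟩
  have key : VV χ (qv (X r) (X i')) z =
      fderiv ℂ (c.tr r i') (c.pt (χ z)) (VV χ (qv (X c.j) (X c.i)) z,
        VV χ (qv (X c.k) (X c.i)) z) ∧
      DD 𝓤 P Q s wt (qv (X r) (X i')) z = fderiv ℂ (c.tr r i') (c.pt (χ z))
        (DD 𝓤 P Q s wt (qv (X c.j) (X c.i)) z, DD 𝓤 P Q s wt (qv (X c.k) (X c.i)) z) := by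
    have han := c.an_tr hU r hp0
    have hF : ∀ M ∈ (c.O ∩ {M | N155.nz (X i') M}) ∩ TX y, qv (X r) (X i') M =
        c.tr r i' (qv (X c.j) (X c.i) M, qv (X c.k) (X c.i) M) := fun M hM =>
      (c.tr_eq ⟨hM.1.1, hM.2⟩ hM.1.2).2 r
    refine ⟨h.vv_comp han.differentiableAt.hasFDerivAt hO hF (h.diff_qv _ hnz)
      (h.diff_qv _ hnz), ?_⟩
    exact ulim_eq (h.dd_comp han.hasStrictFDerivAt (continuousAt_qv hnz) (continuousAt_qv hnz) hO hF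
      (h.ddc c hz _).1 (h.ddc c hz _).1)
  have hlin : ∀ (L : ℂ × ℂ →L[ℂ] ℂ) (a b : ℂ), L (a, b) = a * L (1, 0) + b * L (0, 1) := by
    intro L a b
    have h1 : ((a, b) : ℂ × ℂ) = a • ((1, 0) : ℂ × ℂ) + b • ((0, 1) : ℂ × ℂ) := by
      apply Prod.ext <;> simp
    rw [h1, map_add, map_smul, map_smul, smul_eq_mul, smul_eq_mul]
  exact ⟨key.1.trans (hlin _ _ _), key.2.trans (hlin _ _ _)⟩

/-- **The normal component in two charts.** -/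
theorem Pr.W_change (h : Pr y 𝓤 χ P Q s wt B C0) (c c' : Chb y R ω) {z : ℂ} (hz : χ z ∈ c.O)
    (hz' : χ z ∈ c'.O) : c'.W 𝓤 χ P Q s wt z =
      jac (c.tr c'.j c'.i) (c.tr c'.k c'.i) (c.pt (χ z)) * c.W 𝓤 χ P Q s wt z := by
  have key2 := h.key c hz (c'.cht.nz _ hz')
  unfold Chb.W jac
  rw [(key2 c'.j).1, (key2 c'.j).2, (key2 c'.k).1, (key2 c'.k).2]
  ring

/-- a coordinate with nonvanishing derivative -/
theorem Pr.pivot (h : Pr y 𝓤 χ P Q s wt B C0) (c : Chb y R ω) {z : ℂ} (hz : χ z ∈ c.O) :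
    VV χ (qv (X c.j) (X c.i)) z ≠ 0 ∨ VV χ (qv (X c.k) (X c.i)) z ≠ 0 := by
  by_contra hcon
  push Not at hcon
  obtain ⟨i, r, hi, hd⟩ := exists_coord h.hχ (h.im z)
  apply hd
  have := (h.key c hz hi r).1
  rw [hcon.1, hcon.2, zero_mul, zero_mul, add_zero] at this
  exact this

end Pool.Agent.N155
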