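import Pool.Agent.N155.A.Ctt

/-! Separation of the curves in a class, up to affine maps. -/

set_option autoImplicit false

open Filter Topology Metric Set MvPolynomial

namespace Pool.Agent.N155

open Pool.Agent.Y190.OP Pool.Agent.W602.GT Pool.Agent.TH143.GT

section

variable {N : ℕ} {T : Set (Mat N)} {c0 : ℝ} {𝒞 : (ℂ → Mat N) → Prop} {r c1 η δ : ℝ}
  {P Q : ℂ → Mat N}

/-- two trackings stay close -/
theorem Trs.two (h : Cls T c0 𝒞) (hi : Inj r c1 𝒞) (hr : 0 < r) (hc1 : 0 < c1) (hη : 0 < η)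
    (hsm : 2 * δ + 2 * η ≤ c1 * (r / 8)) (hP : 𝒞 P) (hQ : 𝒞 Q) {R : ℝ} {g b : ℂ → ℂ}
    (ht : Trs η r δ R P Q g) {p0 p1 : ℂ} (hp0 : p0 ∈ closedBall (0 : ℂ) R)
    (hp1 : p1 ∈ closedBall (0 : ℂ) R)
    (hb : ∀ t : ℝ, 0 ≤ t → t ≤ 1 → ‖P (p0 + t * (p1 - p0)) - Q (b (p0 + t * (p1 - p0)))‖ ≤ δ)
    (hb2 : ∀ z z' : ℂ, ‖z - z'‖ ≤ η → ‖b z - b z'‖ ≤ r / 8) (h0 : ‖g p0 - b p0‖ ≤ 2 * r) :
    ‖g p1 - b p1‖ ≤ r / 8 := by
  set n : ℕ := ⌈‖p1 - p0‖ / η⌉₊ + 1 with hn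
  have hn' : (0 : ℝ) < n := by
    rw [hn]
    positivity
  have hnη : ‖p1 - p0‖ ≤ n * η := by
    rw [← div_le_iff₀ hη, hn]
    push_cast
    have := Nat.le_ceil (‖p1 - p0‖ / η)
    linarith
  have hj : ∀ j : ℕ, j ≤ n → 0 ≤ (j / n : ℝ) ∧ (j / n : ℝ) ≤ 1 := by
    intro j hj
    refine ⟨by positivity, ?_⟩
    rw [div_le_one hn']
    exact_mod_cast hj
  have hmem : ∀ j : ℕ, j ≤ n → p0 + ((j / n : ℝ) : ℂ) * (p1 - p0) ∈ closedBall (0 : ℂ) R := by
    intro j hj'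
    have h2 := (convex_closedBall (0 : ℂ) R).add_smul_sub_mem hp0 hp1
      (t := (j / n : ℝ)) (hj j hj')
    rwa [Complex.real_smul] at h2
  have hfin : ∀ z : ℂ, z ∈ closedBall (0 : ℂ) R → ‖P z - Q (b z)‖ ≤ δ → ‖g z - b z‖ ≤ 2 * r →
      ‖g z - b z‖ ≤ r / 8 := by
    intro z hz h1 h2
    have h3 := imp h hi hP hQ (ht.1 z hz) h1 h2
    rw [sub_self, norm_zero, mul_zero, add_zero] at h3
    have h4 : c1 * ‖g z - b z‖ ≤ c1 * (r / 8) := by linarith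
    exact le_of_mul_le_mul_left h4 hc1
  have key : ∀ j : ℕ, j ≤ n → ‖g (p0 + ((j / n : ℝ) : ℂ) * (p1 - p0)) -
      b (p0 + ((j / n : ℝ) : ℂ) * (p1 - p0))‖ ≤ r / 8 := by
    intro j
    induction j with
    | zero =>
      intro _
      have e2 : p0 + (((0 : ℕ) / n : ℝ) : ℂ) * (p1 - p0) = p0 := by simp
      rw [e2]
      refine hfin p0 hp0 ?_ h0
      have h1 := hb 0 le_rfl zero_le_one
      rwa [Complex.ofReal_zero, zero_mul, add_zero] at h1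
    | succ j ih =>
      intro hjn
      have h1 := ih (by omega)
      set z := p0 + ((j / n : ℝ) : ℂ) * (p1 - p0) with hz
      set z' := p0 + (((j + 1 : ℕ) / n : ℝ) : ℂ) * (p1 - p0) with hz'
      have hzz : ‖z' - z‖ ≤ η := by
        have e1 : z' - z = ((1 / n : ℝ) : ℂ) * (p1 - p0) := by
          rw [hz, hz']
          push_cast
          ring
        rw [e1, norm_mul, Complex.norm_real, Real.norm_of_nonneg (by positivity), one_div,
          inv_mul_le_iff₀ hn']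
        exact hnη
      have hzm := hmem j (by omega)
      have hzm' := hmem (j + 1) hjn
      refine hfin z' hzm' (hb _ (hj (j + 1) hjn).1 (hj (j + 1) hjn).2) ?_
      have h2 := ht.step h hi hr hc1 hsm hP hQ hzm' hzm hzz
      have h3 := hb2 z' z hzz
      have e1 : g z' - b z' = (g z' - g z) + (g z - b z) - (b z' - b z) := by ring
      rw [e1]
      have h4 := norm_sub_le ((g z' - g z) + (g z - b z)) (b z' - b z)
      have h5 := norm_add_le (g z' - g z) (g z - b z)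
      linarith
  have := key n le_rfl
  rwa [div_self hn'.ne', Complex.ofReal_one, one_mul, add_sub_cancel] at this

theorem Trs.en_le (hr : 0 ≤ r) {R : ℝ} {g : ℂ → ℂ} (ht : Trs η r δ R P Q g) {z : ℂ}
    (hz : z ∈ closedBall (0 : ℂ) R) : EN r P Q z (g z) ≤ δ :=
  (EN_le (w := g z) (by rw [sub_self, norm_zero]; exact hr)).trans (ht.1 z hz)

/-- the nearest point -/
theorem Trs.near (h : Cls T c0 𝒞) (hi : Inj r c1 𝒞) (hr : 0 < r) (hc1 : 0 < c1)
    (hη : 0 < η) (hsm : 2 * δ + 2 * η ≤ c1 * (r / 8)) (hP : 𝒞 P) (hQ : 𝒞 Q) {R : ℝ} {g : ℂ → ℂ}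
    (ht : Trs η r δ R P Q g) {z : ℂ} (hz : z ∈ closedBall (0 : ℂ) R) :
    ∃ w : ℂ, ‖w - g z‖ ≤ r / 8 ∧ EN r P Q z (g z) = ‖P z - Q w‖ := by
  obtain ⟨w, hw1, hw2⟩ := EN_spec (P := P) hr.le (h.cont hQ) z (g z)
  refine ⟨w, ?_, hw2⟩
  have h1 := ht.en_le hr.le hz
  rw [hw2] at h1
  have h3 := imp h hi hP hQ h1 (ht.1 z hz) (hw1.trans (by linarith))
  rw [sub_self, norm_zero, mul_zero, add_zero] at h3
  have h4 : c1 * ‖w - g z‖ ≤ c1 * (r / 8) := by linarith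
  exact le_of_mul_le_mul_left h4 hc1

theorem Trs.en_lip (h : Cls T c0 𝒞) (hi : Inj r c1 𝒞) (hr : 0 < r) (hc1 : 0 < c1)
    (hη : 0 < η) (hsm : 2 * δ + 2 * η ≤ c1 * (r / 8)) (hP : 𝒞 P) (hQ : 𝒞 Q) {R : ℝ} {g : ℂ → ℂ}
    (ht : Trs η r δ R P Q g) {z z' : ℂ} (hz : z ∈ closedBall (0 : ℂ) R)
    (hz' : z' ∈ closedBall (0 : ℂ) R) (hzz : ‖z - z'‖ ≤ η) :
    EN r P Q z' (g z') ≤ EN r P Q z (g z) + 2 * ‖z' - z‖ := by
  obtain ⟨w, hw1, hw2⟩ := ht.near h hi hr hc1 hη hsm hP hQ hz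
  have h1 := ht.step h hi hr hc1 hsm hP hQ hz hz' hzz
  have h2 : ‖w - g z'‖ ≤ r := by
    have e1 : w - g z' = (w - g z) + (g z - g z') := by ring
    rw [e1]
    refine (norm_add_le _ _).trans ?_
    linarith
  refine (EN_le h2).trans ?_
  rw [hw2]
  have h3 := h.lip hP z z'
  have e1 : P z' - Q w = (P z - Q w) + (P z' - P z) := by abel
  rw [e1]
  refine (norm_add_le _ _).trans ?_
  linarith

end

variable {n : ℕ} {K : Type} [Field K] [Algebra ℂ K] {y : Fin (n + 1) → K}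
  {T : Set (Mat (n + 1))} {c0 : ℝ} {𝒞 : (ℂ → Mat (n + 1)) → Prop} {r c1 η δ δ' : ℝ}

theorem Trs.barrier (h : Cls T c0 𝒞) (hi : Inj r c1 𝒞) (hr : 0 < r) (hc1 : 0 < c1)
    (hη : 0 < η) (hsm : 2 * δ' + 2 * η ≤ c1 * (r / 8)) {ρ θ κ : ℝ} (hCT : CTt y ρ δ θ η r 𝒞)
    {P Q : ℂ → Mat (n + 1)} (hP : 𝒞 P) (hPc : Cv y P) (hQ : 𝒞 Q) (hρ : 0 < ρ) (hδ' : 0 ≤ δ')
    (hδδ : δ' ≤ δ) (hκ : 0 ≤ κ) (hκθ : θ * Real.exp (κ * ρ ^ 2) < 1) (hθ : 0 ≤ θ) {R : ℝ}
    (hR : ρ ≤ R) {g : ℂ → ℂ} (ht : Trs η r δ' R P Q g) :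
    ∀ z ∈ closedBall (0 : ℂ) R,
      EN r P Q z (g z) ≤ δ' * Real.exp (κ * (‖z‖ ^ 2 - (R - ρ) ^ 2)) := by
  classical
  let d : ℂ → ℝ := fun z => if z ∈ closedBall (0 : ℂ) R then EN r P Q z (g z) else δ' + 1
  have hd : ∀ z ∈ closedBall (0 : ℂ) R, d z = EN r P Q z (g z) := fun z hz => if_pos hz
  have hd0 : ∀ z, 0 ≤ d z := by
    intro z
    simp only [d]
    split_ifs
    · exact EN_nonneg z _
    · linarith
  have hmem : ∀ z, d z ≤ δ' → z ∈ closedBall (0 : ℂ) R := by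
    intro z hz
    by_contra hcon
    simp only [d] at hz
    rw [if_neg hcon] at hz
    linarith
  have hC : Contr ρ δ' θ d := by
    intro z0 hz0 a
    have h1 : ∀ z ∈ closedBall z0 ρ, z ∈ closedBall (0 : ℂ) R := fun z hz => hmem z (hz0 z hz)
    obtain ⟨z, hz, hz2⟩ := hCT P Q hP hPc hQ g z0
      (fun z hz => (ht.1 z (h1 z hz)).trans hδδ)
      (fun z hz z' hz' hzz => ht.2 z (h1 z hz) z' (h1 z' hz') hzz) a
    refine ⟨z, hz, ?_⟩
    rw [hd z (h1 z hz), hd z0 (h1 z0 (mem_closedBall_self hρ.le))]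
    exact hz2
  have hc0 : ContinuousOn (fun z => EN r P Q z (g z)) (closedBall 0 R) := by
    intro z hz
    rw [ContinuousWithinAt, tendsto_iff_norm_sub_tendsto_zero]
    have h1 : Tendsto (fun w => 2 * ‖w - z‖) (𝓝[closedBall 0 R] z) (𝓝 0) := by
      have h2 : Continuous fun w : ℂ => 2 * ‖w - z‖ := by fun_prop
      have h3 := (h2.tendsto z).mono_left (nhdsWithin_le_nhds (s := closedBall 0 R))
      simpa using h3
    refine squeeze_zero' (Eventually.of_forall fun _ => norm_nonneg _) ?_ h1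
    have h4 : ∀ᶠ w in 𝓝[closedBall 0 R] z, w ∈ closedBall z η :=
      mem_nhdsWithin_of_mem_nhds (closedBall_mem_nhds z hη)
    filter_upwards [h4, self_mem_nhdsWithin] with w hw hw'
    rw [mem_closedBall, dist_eq_norm] at hw
    have h5 := ht.en_lip h hi hr hc1 hη hsm hP hQ hw' hz hw
    have h6 := ht.en_lip h hi hr hc1 hη hsm hP hQ hz hw' (by rwa [norm_sub_rev])
    rw [norm_sub_rev] at h5
    rw [Real.norm_eq_abs, abs_le]
    constructor <;> linarith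
  have hc : ContinuousOn d (closedBall 0 R) := hc0.congr hd
  intro z hz
  have := N155.barrier hρ.le hδ' hκ hκθ hθ hc hd0 hC hR (fun z hz => by
    rw [hd z hz]
    exact ht.en_le hr.le hz) z hz
  rwa [hd z hz] at this

/-- the first alternative -/
theorem Trs.alt (h : Cls T c0 𝒞) (hi : Inj r c1 𝒞) (hr : 0 < r) (hc1 : 0 < c1)
    (hη : 0 < η) (hηr : η ≤ r / 8) (hsm : 2 * δ' + 2 * η ≤ c1 * (r / 8)) {η0 : ℝ} (hηη : η < η0)
    (hule : ∀ H1 H2, 𝒞 H1 → 𝒞 H2 →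
      ∀ (b v : ℂ) (S : Set ℂ) (g : ℂ → ℂ), IsOpen S → b ∈ closure S → Tendsto g (𝓝[S] b) (𝓝 v) →
      (∀ z ∈ S, H1 z = H2 (g z)) → H1 b = H2 v →
      ∀ z ∈ ball b η0, ∃ w : ℂ, ‖w - v‖ ≤ r / 2 ∧ H1 z = H2 w)
    {ρ θ κ : ℝ} (hCT : CTt y ρ δ θ η r 𝒞)
    {P Q : ℂ → Mat (n + 1)} (hP : 𝒞 P) (hPc : Cv y P) (hQ : 𝒞 Q) (hρ : 0 < ρ) (hδ' : 0 ≤ δ')
    (hδδ : δ' ≤ δ) (hκ : 0 < κ) (hκθ : θ * Real.exp (κ * ρ ^ 2) < 1) (hθ : 0 ≤ θ) {L : ℝ}
    (hL : 0 < L) (hLt : ∀ z ∈ closedBall (0 : ℂ) L, ‖P z - Q z‖ ≤ δ') :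
    (∃ α β : ℂ, ‖β‖ ≤ r / 8 ∧ ∀ z, P z = Q (α * z + β)) ∨
    ∃ (R : ℝ) (g : ℂ → ℂ) (z : ℂ), L ≤ R ∧ Trs η r δ' R P Q g ∧ R < ‖z‖ ∧ ‖z‖ ≤ R + η ∧
      ∀ w : ℂ, ‖w - g (rp R z)‖ ≤ r / 2 → δ' < ‖P z - Q w‖ := by
  classical
  by_cases hall : ∀ k : ℕ, ∃ g : ℂ → ℂ, (∀ z ∈ closedBall (0 : ℂ) L, g z = z) ∧
      Trs η r δ' (L + k * η) P Q g
  · left
    have hEN : ∀ z ∈ closedBall (0 : ℂ) L, EN r P Q z z ≤ 0 := by
      intro z hz
      have h3 : ∀ k : ℕ, ρ ≤ L + k * η →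
          EN r P Q z z ≤ δ' * Real.exp (κ * (‖z‖ ^ 2 - (L + k * η - ρ) ^ 2)) := by
        intro k hk
        obtain ⟨g, hg1, hg2⟩ := hall k
        have h4 := hg2.barrier h hi hr hc1 hη hsm hCT hP hPc hQ hρ hδ' hδδ hκ.le hκθ hθ hk z
          (closedBall_subset_closedBall (by
            have : 0 ≤ (k : ℝ) * η := by positivity
            linarith) hz)
        rwa [hg1 z hz] at h4
      have hkη : Tendsto (fun k : ℕ => L + (k : ℝ) * η) atTop atTop :=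
        tendsto_atTop_add_const_left _ _ (tendsto_natCast_atTop_atTop.atTop_mul_const hη)
      have h4 : Tendsto (fun k : ℕ => δ' * Real.exp (κ * (‖z‖ ^ 2 - (L + (k : ℝ) * η - ρ) ^ 2)))
          atTop (𝓝 (δ' * 0)) := by
        apply Tendsto.const_mul
        apply Real.tendsto_exp_atBot.comp
        apply Tendsto.const_mul_atBot hκ
        apply tendsto_atBot_add_const_left
        apply tendsto_neg_atTop_atBot.comp
        exact (tendsto_pow_atTop two_ne_zero).comp (tendsto_atTop_add_const_right _ _ hkη)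
      rw [mul_zero] at h4
      refine ge_of_tendsto h4 ?_
      filter_upwards [hkη.eventually_ge_atTop ρ] with k hk
      exact h3 k hk
    have hid : Trs η r δ' L P Q (fun z => z) :=
      ⟨hLt, fun z _ z' _ hzz => hzz.trans (by linarith)⟩
    have hex : ∀ z : ℂ, ∃ w : ℂ, z ∈ closedBall (0 : ℂ) L → ‖w - z‖ ≤ r / 8 ∧ P z = Q w := by
      intro z
      by_cases hz : z ∈ closedBall (0 : ℂ) L
      · obtain ⟨w, hw1, hw2⟩ := hid.near h hi hr hc1 hη hsm hP hQ hz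
        have h1 := hEN z hz
        rw [hw2] at h1
        exact ⟨w, fun _ => ⟨hw1, sub_eq_zero.1 (norm_eq_zero.1 (le_antisymm h1 (norm_nonneg _)))⟩⟩
      · exact ⟨0, fun h => absurd h hz⟩
    choose w hw using hex
    have hw0 : Trs η r 0 L P Q w := by
      refine ⟨fun z hz => ?_, fun z hz z' hz' hzz => ?_⟩
      · rw [(hw z hz).2, sub_self, norm_zero]
      · have h1 := (hw z hz).1
        have h2 := (hw z' hz').1
        have e1 : w z - w z' = (w z - z) - (w z' - z') + (z - z') := by ring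
        rw [e1]
        have h3 := norm_add_le ((w z - z) - (w z' - z')) (z - z')
        have h4 := norm_sub_le (w z - z) (w z' - z')
        linarith
    obtain ⟨α, β, hab, hab2⟩ := hw0.affine h hi hr hc1 hη (by linarith) hηη hule hP hQ hL
    refine ⟨α, β, ?_, hab⟩
    have h1 := hab2 0 (mem_ball_self hL)
    rw [mul_zero, zero_add] at h1
    have h2 := (hw 0 (mem_closedBall_self hL.le)).1
    rwa [sub_zero, h1] at h2
  · right
    push Not at hall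
    have hex : ∃ k : ℕ, ∀ g : ℂ → ℂ, (∀ z ∈ closedBall (0 : ℂ) L, g z = z) →
      ¬ Trs η r δ' (L + k * η) P Q g := hall
    have h1 := Nat.find_spec hex
    have h2 : Nat.find hex ≠ 0 := by
      intro h0
      rw [h0] at h1
      apply h1 (fun z => z) (fun _ _ => rfl)
      rw [Nat.cast_zero, zero_mul, add_zero]
      exact ⟨hLt, fun z _ z' _ hzz => hzz.trans (by linarith)⟩
    obtain ⟨k, hk⟩ := Nat.exists_eq_succ_of_ne_zero h2
    have h3 := Nat.find_min hex (m := k) (by omega)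
    push Not at h3
    obtain ⟨g, hg1, hg2⟩ := h3
    rw [hk] at h1
    have hR0 : 0 ≤ L + k * η := by positivity
    by_contra hcon
    push Not at hcon
    obtain ⟨g', hg'1, hg'2⟩ := hg2.extend h hi hr hc1 hη hsm hP hQ hR0 (by
      intro z hz1 hz2
      obtain ⟨w, hw1, hw2⟩ := hcon (L + k * η) g z (by
        have : 0 ≤ (k : ℝ) * η := by positivity
        linarith) hg2 hz1 hz2
      exact ⟨w, hw1, hw2⟩)
    apply h1 g' (fun z hz => by
      rw [hg'1 z (closedBall_subset_closedBall (by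
        have : 0 ≤ (k : ℝ) * η := by positivity
        linarith) hz), hg1 z hz])
    have e1 : L + ((k.succ : ℕ) : ℝ) * η = L + k * η + η := by
      push_cast
      ring
    rwa [e1]

end Pool.Agent.N155
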