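import Pool.Agent.N155.A.Spt

/-! Separation of the curves in a class, up to affine maps: the limiting argument. -/

set_option autoImplicit false

open Filter Topology Metric Set MvPolynomial

namespace Pool.Agent.N155

open Pool.Agent.Y190.OP Pool.Agent.W602.GT Pool.Agent.TH143.GT

variable {n : ℕ} {K : Type} [Field K] [Algebra ℂ K] {y : Fin (n + 1) → K}
  {T : Set (Mat (n + 1))} {c0 : ℝ} {𝒞 : (ℂ → Mat (n + 1)) → Prop} {r c1 η δ δ' : ℝ}

theorem Trs.close (h : Cls T c0 𝒞) (hi : Inj r c1 𝒞) (hc1 : 0 < c1)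
    (hη : 0 < η) (hsm : 2 * δ' + 2 * η ≤ c1 * (r / 8)) {P Q : ℂ → Mat (n + 1)} (hP : 𝒞 P)
    (hQ : 𝒞 Q) {R : ℝ} {g : ℂ → ℂ} (ht : Trs η r δ' R P Q g) {z w : ℂ}
    (hz : z ∈ closedBall (0 : ℂ) R) (h1 : ‖P z - Q w‖ ≤ δ') (h2 : ‖w - g z‖ ≤ 2 * r) :
    ‖w - g z‖ ≤ r / 8 := by
  have h3 := imp h hi hP hQ h1 (ht.1 z hz) h2
  rw [sub_self, norm_zero, mul_zero, add_zero] at h3
  have h4 : c1 * ‖w - g z‖ ≤ c1 * (r / 8) := by linarith
  exact le_of_mul_le_mul_left h4 hc1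

/-- the second alternative does not occur -/
theorem no_fail (h : Cls T c0 𝒞) (hi : Inj r c1 𝒞) (hr : 0 < r) (hc1 : 0 < c1)
    (hη : 0 < η) (hη1 : η ≤ 1) (hηc : 2 / c0 * η ≤ r / 8)
    (hsm : 2 * δ' + 2 * η ≤ c1 * (r / 8)) {η0 : ℝ} (hηη : η < η0)
    (hule : ∀ H1 H2, 𝒞 H1 → 𝒞 H2 →
      ∀ (b v : ℂ) (S : Set ℂ) (g : ℂ → ℂ), IsOpen S → b ∈ closure S → Tendsto g (𝓝[S] b) (𝓝 v) →
      (∀ z ∈ S, H1 z = H2 (g z)) → H1 b = H2 v →
      ∀ z ∈ ball b η0, ∃ w : ℂ, ‖w - v‖ ≤ r / 2 ∧ H1 z = H2 w)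
    {ρ θ κ : ℝ} (hCT : CTt y ρ δ θ η r 𝒞) {𝓤 : Ultrafilter ℕ}
    {P Q : ℕ → ℂ → Mat (n + 1)} (hP : ∀ m, 𝒞 (P m)) (hPc : ∀ m, Cv y (P m)) (hQ : ∀ m, 𝒞 (Q m))
    (hρ : 0 < ρ) (hδ' : 0 < δ') (hδδ : δ' ≤ δ) (hκ : 0 < κ) (hκθ : θ * Real.exp (κ * ρ ^ 2) < 1)
    (hθ : 0 ≤ θ) {R : ℕ → ℝ} {g : ℕ → ℂ → ℂ} {z : ℕ → ℂ} (hRt : Tendsto R 𝓤 atTop)
    (hfail : ∀ᶠ m in (𝓤 : Filter ℕ), Trs η r δ' (R m) (P m) (Q m) (g m) ∧ R m < ‖z m‖ ∧
      ‖z m‖ ≤ R m + η ∧ ∀ w : ℂ, ‖w - g m (rp (R m) (z m))‖ ≤ r / 2 → δ' < ‖P m (z m) - Q m w‖) :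
    False := by
  set v : ℕ → ℂ := fun m => g m (rp (R m) (z m)) with hv
  obtain ⟨H1, hH1, hcc1⟩ := h.lim 𝓤 (fun m w => P m (z m + w)) fun m => h.shift _ (hP m) _
  obtain ⟨H2, hH2, hcc2⟩ := h.lim 𝓤 (fun m w => Q m (v m + w)) fun m => h.shift _ (hQ m) _
  -- the direction
  obtain ⟨u, hu⟩ := exists_lim (𝓤 := 𝓤) (h := fun n => z n / (‖z n‖ : ℂ)) (C := 1)
    (Eventually.of_forall fun n => by
      rw [norm_div, Complex.norm_real, norm_norm]
      exact div_self_le_one _)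
  have hu1 : ‖u‖ ≤ 1 := le_of_tendsto hu.norm (Eventually.of_forall fun n => by
      rw [norm_div, Complex.norm_real, norm_norm]
      exact div_self_le_one _)
  set s : ℝ := ρ + 4 with hs
  have hs0 : 0 < s := by rw [hs]; linarith
  have hsn : ‖-(s : ℂ) * u‖ ≤ s := by
    rw [norm_mul, norm_neg, Complex.norm_real, Real.norm_of_nonneg hs0.le]
    exact mul_le_of_le_one_right hs0.le hu1
  have hRL : ∀ L : ℝ, ∀ᶠ m in (𝓤 : Filter ℕ), L ≤ R m := fun L => hRt.eventually_ge_atTop L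
  have hsu : ∀ᶠ m in (𝓤 : Filter ℕ), s * ‖z m / (‖z m‖ : ℂ) - u‖ < η := by
    have h3 : Tendsto (fun n => s * ‖z n / (‖z n‖ : ℂ) - u‖) 𝓤 (𝓝 0) := by
      have := ((hu.sub_const u).norm).const_mul s
      simpa using this
    exact h3.eventually_lt_const hη
  have hgood : ∀ᶠ m in (𝓤 : Filter ℕ), ∀ w ∈ closedBall (-(s : ℂ) * u) 1,
      ‖z m + w‖ ≤ R m - ρ - 1 := by
    filter_upwards [hsu, hRL s, hfail] with m hm1 hm2 hm3 w hw
    obtain ⟨-, hz1, hz2, -⟩ := hm3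
    rw [mem_closedBall, dist_eq_norm] at hw
    have hzpos : 0 < ‖z m‖ := by linarith
    have hzc : (‖z m‖ : ℂ) ≠ 0 := by exact_mod_cast hzpos.ne'
    have h4 : z m + w = ((‖z m‖ - s : ℝ) : ℂ) * (z m / (‖z m‖ : ℂ)) +
        (s : ℂ) * (z m / (‖z m‖ : ℂ) - u) + (w - -(s : ℂ) * u) := by
      push_cast
      field_simp
      ring
    have hn : ‖((‖z m‖ - s : ℝ) : ℂ) * (z m / (‖z m‖ : ℂ))‖ = ‖z m‖ - s := by
      rw [norm_mul, Complex.norm_real, Real.norm_of_nonneg (by linarith), norm_div,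
        Complex.norm_real, norm_norm, div_self hzpos.ne', mul_one]
    have hn2 : ‖(s : ℂ) * (z m / (‖z m‖ : ℂ) - u)‖ < η := by
      rw [norm_mul, Complex.norm_real, Real.norm_of_nonneg hs0.le]
      exact hm1
    rw [h4]
    have h5 := norm_add_le (((‖z m‖ - s : ℝ) : ℂ) * (z m / (‖z m‖ : ℂ)) +
        (s : ℂ) * (z m / (‖z m‖ : ℂ) - u)) (w - -(s : ℂ) * u)
    have h6 := norm_add_le (((‖z m‖ - s : ℝ) : ℂ) * (z m / (‖z m‖ : ℂ)))
        ((s : ℂ) * (z m / (‖z m‖ : ℂ) - u))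
    rw [hn] at h6
    linarith
  have hmem : ∀ᶠ m in (𝓤 : Filter ℕ), ∀ w ∈ closedBall (-(s : ℂ) * u) 1,
      z m + w ∈ closedBall (0 : ℂ) (R m) := by
    filter_upwards [hgood] with m hm w hw
    rw [mem_closedBall_zero_iff]
    linarith [hm w hw]
  -- the nearest points
  choose t ht1 ht2 using fun (m : ℕ) (w : ℂ) =>
    EN_spec (P := P m) (Q := Q m) hr.le (h.cont (hQ m)) (z m + w) (g m (z m + w))
  have ht3 : ∀ᶠ m in (𝓤 : Filter ℕ), ∀ w ∈ closedBall (-(s : ℂ) * u) 1,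
      ‖t m w - g m (z m + w)‖ ≤ r / 8 := by
    filter_upwards [hmem, hfail] with m hm1 hm2 w hw
    have h1 := hm2.1.en_le hr.le (hm1 w hw)
    rw [ht2] at h1
    exact hm2.1.close h hi hc1 hη hsm (hP m) (hQ m) (hm1 w hw) h1 ((ht1 m w).trans (by linarith))
  set M : ℕ := ⌈(s + 2) / η⌉₊ + 1 with hM
  have hM1 : s + 2 ≤ M * η := by
    rw [← div_le_iff₀ hη, hM]
    push_cast
    have := Nat.le_ceil ((s + 2) / η)
    linarith
  have ht4 : ∀ᶠ m in (𝓤 : Filter ℕ), ∀ w ∈ closedBall (-(s : ℂ) * u) 1,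
      ‖t m w - v m‖ ≤ r / 8 + M * (r / 8) := by
    filter_upwards [hmem, hfail, ht3, hRL 0] with m hm1 hm2 hm3 hm4 w hw
    have h1 : ‖z m + w - rp (R m) (z m)‖ ≤ M * η := by
      have h2 := rp_dist hm4 hη.le hm2.2.2.1
      have e1 : z m + w - rp (R m) (z m) = (z m - rp (R m) (z m)) + ((w - -(s : ℂ) * u) +
          -(s : ℂ) * u) := by ring
      rw [e1]
      rw [mem_closedBall, dist_eq_norm] at hw
      have h3 := norm_add_le (z m - rp (R m) (z m)) ((w - -(s : ℂ) * u) + -(s : ℂ) * u)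
      have h4 := norm_add_le (w - -(s : ℂ) * u) (-(s : ℂ) * u)
      linarith
    have h2 := hm2.1.chain h hi hr hc1 hsm (hP m) (hQ m) (hm1 w hw) (rp_mem hm4 (z m))
      (by omega : 0 < M) h1
    have e1 : t m w - v m = (t m w - g m (z m + w)) + (g m (z m + w) - g m (rp (R m) (z m))) := by
      rw [hv]
      ring
    rw [e1]
    exact (norm_add_le _ _).trans (add_le_add (hm3 w hw) h2)
  have hτ : ∀ w : ℂ, ∃ τ : ℂ, w ∈ closedBall (-(s : ℂ) * u) 1 →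
      Tendsto (fun m => t m w - v m) 𝓤 (𝓝 τ) := by
    intro w
    by_cases hw : w ∈ closedBall (-(s : ℂ) * u) 1
    · obtain ⟨τ, hτ⟩ := exists_lim (𝓤 := 𝓤) (h := fun m => t m w - v m) (C := r / 8 + M * (r / 8))
        (ht4.mono fun m hm => hm w hw)
      exact ⟨τ, fun _ => hτ⟩
    · exact ⟨0, fun h => absurd h hw⟩
  choose τ hτ using hτ
  have hexact : ∀ w ∈ closedBall (-(s : ℂ) * u) 1, H1 w = H2 (τ w) := by
    intro w hw
    have hbd : ∀ᶠ m in (𝓤 : Filter ℕ), ‖P m (z m + w) - Q m (v m + (t m w - v m))‖ ≤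
        δ' * Real.exp (κ * (-2 * R m + (2 * ρ + 1))) := by
      filter_upwards [hgood, hmem, hfail, hRL (ρ + 1)] with m hm1 hm2 hm3 hm4
      have h1 := hm3.1.barrier h hi hr hc1 hη hsm hCT (hP m) (hPc m) (hQ m) hρ hδ'.le hδδ hκ.le hκθ
        hθ (by linarith) (z m + w) (hm2 w hw)
      rw [ht2] at h1
      rw [add_sub_cancel]
      refine h1.trans ?_
      apply mul_le_mul_of_nonneg_left _ hδ'.le
      apply Real.exp_le_exp.2
      apply mul_le_mul_of_nonneg_left _ hκ.le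
      have h2 := hm1 w hw
      have h3 : ‖z m + w‖ ^ 2 ≤ (R m - ρ - 1) ^ 2 := pow_le_pow_left₀ (norm_nonneg _) h2 2
      nlinarith
    have h3 : Tendsto (fun m => δ' * Real.exp (κ * (-2 * R m + (2 * ρ + 1)))) 𝓤 (𝓝 (δ' * 0)) := by
      apply Tendsto.const_mul
      apply Real.tendsto_exp_atBot.comp
      apply Tendsto.const_mul_atBot hκ
      apply tendsto_atBot_add_const_right
      exact Tendsto.const_mul_atTop_of_neg (by norm_num) hRt
    rw [mul_zero] at h3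
    have h4 : Tendsto (fun m => ‖P m (z m + w) - Q m (v m + (t m w - v m))‖) 𝓤
        (𝓝 ‖H1 w - H2 (τ w)‖) :=
      ((hcc1.pointwise (mem_univ w)).sub (CConv.seq hcc2 (mem_univ (τ w)) (hτ w hw))).norm
    have h5 : ‖H1 w - H2 (τ w)‖ ≤ 0 := le_of_tendsto_of_tendsto h4 h3 hbd
    exact sub_eq_zero.1 (norm_eq_zero.1 (le_antisymm h5 (norm_nonneg _)))
  have hstep : ∀ w ∈ closedBall (-(s : ℂ) * u) 1, ∀ w' ∈ closedBall (-(s : ℂ) * u) 1,
      ‖w - w'‖ ≤ η → ‖τ w - τ w'‖ ≤ r := by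
    intro w hw w' hw' hww
    refine le_of_tendsto ((hτ w hw).sub (hτ w' hw')).norm ?_
    filter_upwards [hmem, hfail, ht3] with m hm1 hm2 hm3
    have h1 := hm2.1.step h hi hr hc1 hsm (hP m) (hQ m) (hm1 w hw) (hm1 w' hw') (by
      rwa [add_sub_add_left_eq_sub])
    have h2 := hm3 w hw
    have h3 := hm3 w' hw'
    have e1 : t m w - v m - (t m w' - v m) = (t m w - g m (z m + w)) - (t m w' - g m (z m + w')) +
        (g m (z m + w) - g m (z m + w')) := by ring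
    rw [e1]
    have h4 := norm_add_le ((t m w - g m (z m + w)) - (t m w' - g m (z m + w')))
      (g m (z m + w) - g m (z m + w'))
    have h5 := norm_sub_le (t m w - g m (z m + w)) (t m w' - g m (z m + w'))
    linarith
  have hball : ∀ w ∈ closedBall (0 : ℂ) 1, -(s : ℂ) * u + w ∈ closedBall (-(s : ℂ) * u) 1 := by
    intro w hw
    rw [mem_closedBall_zero_iff] at hw
    rwa [mem_closedBall, dist_eq_norm, add_sub_cancel_left]
  have hTr : Trs η r 0 1 (fun w => H1 (-(s : ℂ) * u + w)) H2 (fun w => τ (-(s : ℂ) * u + w)) := by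
    refine ⟨fun w hw => ?_, fun w hw w' hw' hww => ?_⟩
    · have h1 := hexact _ (hball w hw)
      simp only
      rw [h1, sub_self, norm_zero]
    · exact hstep _ (hball w hw) _ (hball w' hw') (by rwa [add_sub_add_left_eq_sub])
  obtain ⟨α, β', hab1, hab2⟩ := hTr.affine h hi hr hc1 hη (by linarith) hηη hule
    (h.shift _ hH1 _) hH2 one_pos
  set β : ℂ := α * (s * u) + β' with hβ
  have hall : ∀ w, H1 w = H2 (α * w + β) := by
    intro w
    have h1 := hab1 (w + s * u)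
    have e1 : -(s : ℂ) * u + (w + s * u) = w := by ring
    have e2 : α * (w + s * u) + β' = α * w + β := by
      rw [hβ]
      ring
    simp only [e1, e2] at h1
    exact h1
  have hτ0 : τ (-(s : ℂ) * u) = β' := by
    have h1 := hab2 0 (mem_ball_self one_pos)
    simp only [add_zero, mul_zero, zero_add] at h1
    exact h1
  obtain ⟨-, hα⟩ := h.alpha hH1 hH2 hall
  have hαη : ‖α‖ * η ≤ r / 8 := (mul_le_mul_of_nonneg_right hα hη.le).trans hηc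
  have hcc3 : CConv (𝓤 : Filter ℕ) univ (fun m w => Q m (v m + (α * w + β))) H1 := by
    intro w _
    have h3 : Tendsto (fun p : ℕ × ℂ => (p.1, α * p.2 + β)) ((𝓤 : Filter ℕ) ×ˢ 𝓝 w)
        ((𝓤 : Filter ℕ) ×ˢ 𝓝 (α * w + β)) :=
      tendsto_fst.prodMk (((tendsto_snd (f := (𝓤 : Filter ℕ)) (g := 𝓝 w)).const_mul α).add_const β)
    have h4 := (hcc2 (α * w + β) (mem_univ _)).comp h3
    rw [hall w]
    exact h4
  have hfin := CConv.compact hcc1 hcc3 (isCompact_closedBall (0 : ℂ) (s + 2)) hδ'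
  have hτlim : ∀ᶠ m in (𝓤 : Filter ℕ), ‖t m (-(s : ℂ) * u) - v m - β'‖ < r / 8 := by
    have h1 := ((hτ (-(s : ℂ) * u) (mem_closedBall_self zero_le_one)).sub_const β').norm
    rw [hτ0, sub_self, norm_zero] at h1
    exact h1.eventually_lt_const (by positivity)
  obtain ⟨m, k1, k2, k3, k4, k5, k6, k7⟩ := (hfail.and (hsu.and (hfin.and (hτlim.and (ht3.and
    (hmem.and (hRL s))))))).exists
  obtain ⟨l1, l2, l3, l4⟩ := k1
  have hzpos : 0 < ‖z m‖ := by linarith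
  have hzc : (‖z m‖ : ℂ) ≠ 0 := by exact_mod_cast hzpos.ne'
  have hR0 : 0 ≤ R m := by linarith
  set um : ℂ := z m / (‖z m‖ : ℂ) with hum
  have hum1 : ‖um‖ = 1 := by
    rw [hum, norm_div, Complex.norm_real, norm_norm, div_self hzpos.ne']
  have hzu : z m = (‖z m‖ : ℂ) * um := by
    rw [hum]
    field_simp
  set p0 : ℂ := z m - s * um with hp0
  set p1 : ℂ := rp (R m) (z m) with hp1
  have hp0m : p0 ∈ closedBall (0 : ℂ) (R m) := by
    have e1 : p0 = ((‖z m‖ - s : ℝ) : ℂ) * um := by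
      rw [hp0]
      conv_lhs => rw [hzu]
      push_cast
      ring
    rw [mem_closedBall_zero_iff, e1, norm_mul, hum1, mul_one, Complex.norm_real,
      Real.norm_of_nonneg (by linarith)]
    linarith
  have hp1m : p1 ∈ closedBall (0 : ℂ) (R m) := rp_mem hR0 _
  have hp0n : ‖p0 - z m‖ = s := by
    have e1 : p0 - z m = -((s : ℂ) * um) := by
      rw [hp0]
      ring
    rw [e1, norm_neg, norm_mul, hum1, mul_one, Complex.norm_real, Real.norm_of_nonneg hs0.le]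
  have hp1n : ‖p1 - z m‖ ≤ η := by
    rw [norm_sub_rev]
    exact rp_dist hR0 hη.le l3
  have hfinal := l1.two h hi hr hc1 hη hsm (hP m) (hQ m) hp0m hp1m
    (b := fun p => v m + (α * (p - z m) + β)) (fun t' ht0 ht1' => by
      have h1 := k3 (p0 + t' * (p1 - p0) - z m) (by
        rw [mem_closedBall_zero_iff]
        have e1 : p0 + t' * (p1 - p0) - z m = ((1 - t' : ℝ) : ℂ) * (p0 - z m) +
            (t' : ℂ) * (p1 - z m) := by
          push_cast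
          ring
        rw [e1]
        refine (norm_add_le _ _).trans ?_
        rw [norm_mul, norm_mul, Complex.norm_real, Complex.norm_real,
          Real.norm_of_nonneg (by linarith), Real.norm_of_nonneg ht0, hp0n]
        nlinarith [norm_nonneg (p1 - z m)])
      rw [add_sub_cancel] at h1
      exact h1.le) (fun a b hab => by
      have e1 : v m + (α * (a - z m) + β) - (v m + (α * (b - z m) + β)) = α * (a - b) := by ring
      rw [e1, norm_mul]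
      exact (mul_le_mul_of_nonneg_left hab (norm_nonneg _)).trans hαη) (by
      have hw0 := mem_closedBall_self (x := (-(s : ℂ) * u)) zero_le_one
      have a1 : ‖g m p0 - g m (z m + -(s : ℂ) * u)‖ ≤ r / 8 := by
        refine l1.step h hi hr hc1 hsm (hP m) (hQ m) hp0m (k6 _ hw0) ?_
        have e1 : p0 - (z m + -(s : ℂ) * u) = -((s : ℂ) * (um - u)) := by
          rw [hp0]
          ring
        rw [e1, norm_neg, norm_mul, Complex.norm_real, Real.norm_of_nonneg hs0.le]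
        exact k2.le
      have a2 := k5 _ hw0
      have a3 := k4
      have a4 : ‖α * ((s : ℂ) * (um - u))‖ ≤ r / 8 := by
        rw [norm_mul, norm_mul, Complex.norm_real, Real.norm_of_nonneg hs0.le]
        exact (mul_le_mul_of_nonneg_left k2.le (norm_nonneg _)).trans hαη
      have e1 : g m p0 - (v m + (α * (p0 - z m) + β)) = (g m p0 - g m (z m + -(s : ℂ) * u)) -
          (t m (-(s : ℂ) * u) - g m (z m + -(s : ℂ) * u)) + (t m (-(s : ℂ) * u) - v m - β') +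
          α * ((s : ℂ) * (um - u)) := by
        rw [hp0, hβ]
        ring
      rw [e1]
      have b1 := norm_add_le ((g m p0 - g m (z m + -(s : ℂ) * u)) -
          (t m (-(s : ℂ) * u) - g m (z m + -(s : ℂ) * u)) + (t m (-(s : ℂ) * u) - v m - β'))
          (α * ((s : ℂ) * (um - u)))
      have b2 := norm_add_le ((g m p0 - g m (z m + -(s : ℂ) * u)) -
          (t m (-(s : ℂ) * u) - g m (z m + -(s : ℂ) * u))) (t m (-(s : ℂ) * u) - v m - β')
      have b3 := norm_sub_le (g m p0 - g m (z m + -(s : ℂ) * u))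
          (t m (-(s : ℂ) * u) - g m (z m + -(s : ℂ) * u))
      linarith)
  have hβr : ‖β‖ ≤ r / 4 := by
    have e1 : β = -(g m p1 - (v m + (α * (p1 - z m) + β))) - α * (p1 - z m) := by
      have : g m p1 = v m := rfl
      rw [this]
      ring
    rw [e1]
    refine (norm_sub_le _ _).trans ?_
    rw [norm_neg, norm_mul]
    have h1 := mul_le_mul_of_nonneg_left hp1n (norm_nonneg α)
    linarith
  have h1 := l4 (v m + β) (by
    change ‖v m + β - v m‖ ≤ r / 2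
    rw [add_sub_cancel_left]
    linarith)
  have h2 := k3 0 (mem_closedBall_self (by linarith))
  rw [mul_zero, zero_add, add_zero] at h2
  linarith

/-- **Separation**, up to affine maps. -/
theorem sep_aff (h : Cls T c0 𝒞) (hi : Inj r c1 𝒞) (hr : 0 < r) (hc1 : 0 < c1)
    (hη : 0 < η) (hη1 : η ≤ 1) (hηr : η ≤ r / 8) (hηc : 2 / c0 * η ≤ r / 8)
    (hsm : 4 * η ≤ c1 * (r / 8)) {η0 : ℝ} (hηη : η < η0)
    (hule : ∀ H1 H2, 𝒞 H1 → 𝒞 H2 →
      ∀ (b v : ℂ) (S : Set ℂ) (g : ℂ → ℂ), IsOpen S → b ∈ closure S → Tendsto g (𝓝[S] b) (𝓝 v) →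
      (∀ z ∈ S, H1 z = H2 (g z)) → H1 b = H2 v →
      ∀ z ∈ ball b η0, ∃ w : ℂ, ‖w - v‖ ≤ r / 2 ∧ H1 z = H2 w)
    {ρ θ : ℝ} (hCT : CTt y ρ δ θ η r 𝒞)
    {P Q : ℕ → ℂ → Mat (n + 1)} (hP : ∀ m, 𝒞 (P m)) (hPc : ∀ m, Cv y (P m)) (hQ : ∀ m, 𝒞 (Q m))
    (hρ : 0 < ρ) (hδ : 0 < δ) (hθ0 : 0 < θ) (hθ : θ < 1) {H : ℂ → Mat (n + 1)}
    (h1 : CConv (hyperfilter ℕ : Filter ℕ) univ P H)
    (h2 : CConv (hyperfilter ℕ : Filter ℕ) univ Q H) :
    ∀ᶠ m in (hyperfilter ℕ : Filter ℕ), ∃ α β : ℂ, ‖β‖ ≤ r / 8 ∧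
      ∀ z, P m z = Q m (α * z + β) := by
  classical
  set 𝓤 : Ultrafilter ℕ := hyperfilter ℕ with h𝓤
  obtain ⟨κ, hκ, hκθ⟩ := exists_kappa hρ hθ0 hθ
  set δ' : ℝ := min δ (c1 * (r / 32)) with hδ'
  have hδ'0 : 0 < δ' := by positivity
  have hδ'1 : δ' ≤ δ := min_le_left _ _
  have hδ'2 : δ' ≤ c1 * (r / 32) := min_le_right _ _
  have hsm' : 2 * δ' + 2 * η ≤ c1 * (r / 8) := by linarith
  by_contra hcon
  rw [← Ultrafilter.eventually_not] at hcon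
  set L : ℕ → ℕ := fun m => Nat.findGreatest
    (fun k => ∀ z ∈ closedBall (0 : ℂ) (k : ℝ), ‖P m z - Q m z‖ ≤ δ') m with hL
  have hLk : ∀ k : ℕ, ∀ᶠ m in (𝓤 : Filter ℕ), k ≤ L m ∧
      ∀ z ∈ closedBall (0 : ℂ) (L m : ℝ), ‖P m z - Q m z‖ ≤ δ' := by
    intro k
    filter_upwards [CConv.compact h1 h2 (isCompact_closedBall (0 : ℂ) (k : ℝ)) hδ'0,
      hyp_ge (k : ℝ)] with m hm1 hm2
    have h3 : ∀ z ∈ closedBall (0 : ℂ) (k : ℝ), ‖P m z - Q m z‖ ≤ δ' := fun z hz => (hm1 z hz).le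
    have h4 : k ≤ m := by exact_mod_cast hm2
    exact ⟨Nat.le_findGreatest h4 h3, Nat.findGreatest_spec
      (P := fun k : ℕ => ∀ z ∈ closedBall (0 : ℂ) (k : ℝ), ‖P m z - Q m z‖ ≤ δ') h4 h3⟩
  have hex : ∀ m, ∃ (R : ℝ) (g : ℂ → ℂ) (z : ℂ),
      (¬ ∃ α β : ℂ, ‖β‖ ≤ r / 8 ∧ ∀ z, P m z = Q m (α * z + β)) → 0 < L m →
      (∀ z ∈ closedBall (0 : ℂ) (L m : ℝ), ‖P m z - Q m z‖ ≤ δ') →
      (L m : ℝ) ≤ R ∧ Trs η r δ' R (P m) (Q m) g ∧ R < ‖z‖ ∧ ‖z‖ ≤ R + η ∧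
      ∀ w : ℂ, ‖w - g (rp R z)‖ ≤ r / 2 → δ' < ‖P m z - Q m w‖ := by
    intro m
    by_cases a1 : ∃ α β : ℂ, ‖β‖ ≤ r / 8 ∧ ∀ z, P m z = Q m (α * z + β)
    · exact ⟨0, 0, 0, fun h => absurd a1 h⟩
    by_cases a2 : 0 < L m
    swap
    · exact ⟨0, 0, 0, fun _ h => absurd h a2⟩
    by_cases a3 : ∀ z ∈ closedBall (0 : ℂ) (L m : ℝ), ‖P m z - Q m z‖ ≤ δ'
    swap
    · exact ⟨0, 0, 0, fun _ _ h => absurd h a3⟩
    rcases Trs.alt h hi hr hc1 hη hηr hsm' hηη hule hCT (hP m) (hPc m) (hQ m) hρ hδ'0.le hδ'1 hκ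
      hκθ hθ0.le (show (0 : ℝ) < L m by exact_mod_cast a2) a3 with b1 | ⟨R, g, z, b2⟩
    · exact absurd b1 a1
    · exact ⟨R, g, z, fun _ _ _ => b2⟩
  choose R g z hall using hex
  have hall' : ∀ k : ℕ, ∀ᶠ m in (𝓤 : Filter ℕ), (k : ℝ) ≤ R m ∧
      Trs η r δ' (R m) (P m) (Q m) (g m) ∧ R m < ‖z m‖ ∧ ‖z m‖ ≤ R m + η ∧
      ∀ w : ℂ, ‖w - g m (rp (R m) (z m))‖ ≤ r / 2 → δ' < ‖P m (z m) - Q m w‖ := by
    intro k
    filter_upwards [hcon, hLk (k + 1)] with m hm1 hm2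
    obtain ⟨c1, c2⟩ := hall m hm1 (by omega) hm2.2
    refine ⟨le_trans ?_ c1, c2⟩
    have : k ≤ L m := by omega
    exact_mod_cast this
  refine no_fail h hi hr hc1 hη hη1 hηc hsm' hηη hule hCT hP hPc hQ hρ hδ'0 hδ'1 hκ hκθ hθ0.le
    (𝓤 := 𝓤) (R := R) (g := g) (z := z) ?_ ?_
  · apply Filter.tendsto_atTop.2
    intro b
    filter_upwards [hall' ⌈b⌉₊] with m hm
    exact (Nat.le_ceil b).trans hm.1
  · filter_upwards [hall' 0] with m hm
    exact hm.2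

end Pool.Agent.N155
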