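import Pool.Agent.N155.A.Wh
import Pool.Agent.N155.IR

/-! The normal component of a deformation vanishes. -/

set_option autoImplicit false

open Filter Topology Metric Set MvPolynomial

namespace Pool.Agent.N155

open FF Pool.Agent.Y190.OP Pool.Agent.W602.GT Pool.Agent.TH143.GT

/-- gluing of bounded holomorphic functions -/
theorem glue {t : ℂ → ℂ} {C : ℝ} (h : ∀ z0 : ℂ, ∃ V : Set ℂ, IsOpen V ∧ z0 ∈ V ∧ ∃ H : ℂ → ℂ,
    (∀ z ∈ V, AnalyticAt ℂ H z) ∧ (∀ z ∈ V, ‖H z‖ ≤ C) ∧ ∀ᶠ z in residual ℂ, z ∈ V → t z = H z) :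
    ∃ κ : ℂ, ∀ z0 : ℂ, ∃ V : Set ℂ, IsOpen V ∧ z0 ∈ V ∧ ∀ᶠ z in residual ℂ, z ∈ V → t z = κ := by
  choose V hVo hzV H hHan hHC hHt using h
  have heq : ∀ z0, ∀ z ∈ V z0, H z z = H z0 z := by
    intro z0 z hz
    refine resid_eq (f := H z) (g := H z0) ((hVo z).inter (hVo z0))
      (fun w hw => (hHan z w hw.1).continuousAt.continuousWithinAt)
      (fun w hw => (hHan z0 w hw.2).continuousAt.continuousWithinAt) ?_ z ⟨hzV z, hz⟩
    filter_upwards [hHt z, hHt z0] with w h1 h2 hw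
    rw [← h1 hw.1, h2 hw.2]
  have hT : Differentiable ℂ fun z => H z z := by
    intro z0
    apply (hHan z0 z0 (hzV z0)).differentiableAt.congr_of_eventuallyEq
    filter_upwards [(hVo z0).mem_nhds (hzV z0)] with z hz
    exact heq z0 z hz
  have hb : Bornology.IsBounded (range fun z => H z z) := by
    rw [isBounded_iff_forall_norm_le]
    refine ⟨C, ?_⟩
    rintro _ ⟨z, rfl⟩
    exact hHC z z (hzV z)
  refine ⟨H 0 0, fun z0 => ⟨V z0, hVo z0, hzV z0, ?_⟩⟩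
  filter_upwards [hHt z0] with z h1 hz
  rw [h1 hz, ← heq z0 z hz]
  exact hT.apply_eq_apply_of_bounded hb z 0

variable {n : ℕ} {K : Type} [Field K] [Algebra ℂ K]
variable {y : Fin (n + 1) → K} {𝓤 : Ultrafilter ℕ} {χ : ℂ → Mat (n + 1)}
  {P Q : ℕ → ℂ → Mat (n + 1)} {s wt : ℕ → ℂ → ℂ} {B C0 : ℝ}
variable {R : ∀ h : K, Frac y h} {ω : Fin (n + 1) → (Fin 2 → Derivation ℂ K K) → K} {N : ℕ}

/-- the value of the form `ω l` along the curve -/
noncomputable def Chb.q (c : Chb y R ω) (𝓤 : Ultrafilter ℕ) (P : ℕ → ℂ → Mat (n + 1))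
    (l : Fin (n + 1)) (z : ℂ) : ℂ := ulim 𝓤 fun m => ev R (ω l c.E) (P m z)

theorem Pr.q_tendsto (h : Pr y 𝓤 χ P Q s wt B C0) (c : Chb y R ω) (l : Fin (n + 1)) {z : ℂ}
    (hz : χ z ∈ c.O) (hg : ∀ m, good R (ω l c.E) (P m z)) :
    Tendsto (fun m => ev R (ω l c.E) (P m z)) 𝓤 (𝓝 (c.q 𝓤 P l z)) := by
  obtain ⟨d, hd⟩ := exists_lim (𝓤 := 𝓤) (h := fun m => ev R (ω l c.E) (P m z)) (C := c.C) (by
    filter_upwards [(h.tP z).eventually (c.cht.Oo.mem_nhds hz)] with m hm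
    exact c.bq l _ ⟨hm, (h.cP m).mem z⟩ (hg m))
  have : c.q 𝓤 P l z = d := ulim_eq hd
  rwa [this]

theorem Pr.good_resid (h : Pr y 𝓤 χ P Q s wt B C0) (k : K) :
    ∀ᶠ z in residual ℂ, ∀ m, good R k (P m z) := by
  rw [eventually_countable_forall]
  exact fun m => resid ((h.cP m).good R k)

/-- the value on the normal component does not depend on the chart -/
theorem Pr.T_change (h : Pr y 𝓤 χ P Q s wt B C0) (hω : Pluricanonical N ω y) (c c' : Chb y R ω)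
    (l : Fin (n + 1)) : ∀ᶠ z in residual ℂ, χ z ∈ c.O → χ z ∈ c'.O →
      c.q 𝓤 P l z * c.W 𝓤 χ P Q s wt z ^ N = c'.q 𝓤 P l z * c'.W 𝓤 χ P Q s wt z ^ N := by
  have h1 : ∀ᶠ z in residual ℂ, ∀ m, P m z ∈ c.O → P m z ∈ c'.O →
      ev R (ω l c.E) (P m z) = jac (c.tr c'.j c'.i) (c.tr c'.k c'.i) (c.pt (P m z)) ^ N *
        ev R (ω l c'.E) (P m z) := by
    rw [eventually_countable_forall]
    exact fun m => resid (c.change c' hω l (h.cP m))
  filter_upwards [h1, h.good_resid (R := R) (ω l c.E), h.good_resid (R := R) (ω l c'.E)]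
    with z h2 h3 h4 hz hz'
  have t1 := h.q_tendsto c l hz h3
  have t2 := h.q_tendsto c' l hz' h4
  have hmem : χ z ∈ c.O ∩ TX y := ⟨hz, h.mχ z⟩
  have hU := c.pt_mem hmem
  obtain ⟨hp0, -⟩ := c.tr_eq hmem (c'.cht.nz _ hz')
  have hnz := c.cht.nz _ hz
  have t3 : Tendsto (fun m => c.pt (P m z)) 𝓤 (𝓝 (c.pt (χ z))) :=
    ((continuousAt_qv hnz).tendsto.comp (h.tP z)).prodMk_nhds
      ((continuousAt_qv hnz).tendsto.comp (h.tP z))
  have hfd : ∀ (r : Fin (n + 1)) (v : ℂ × ℂ),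
      Tendsto (fun m => fderiv ℂ (c.tr r c'.i) (c.pt (P m z)) v) 𝓤
        (𝓝 (fderiv ℂ (c.tr r c'.i) (c.pt (χ z)) v)) := by
    intro r v
    have h5 : ContinuousAt (fun p => fderiv ℂ (c.tr r c'.i) p) (c.pt (χ z)) :=
      (c.an_tr hU r hp0).fderiv.continuousAt
    have h6 : ContinuousAt (fun p => fderiv ℂ (c.tr r c'.i) p v) (c.pt (χ z)) :=
      h5.clm_apply continuousAt_const
    exact h6.tendsto.comp t3
  have t4 : Tendsto (fun m => jac (c.tr c'.j c'.i) (c.tr c'.k c'.i) (c.pt (P m z))) 𝓤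
      (𝓝 (jac (c.tr c'.j c'.i) (c.tr c'.k c'.i) (c.pt (χ z)))) :=
    ((hfd _ _).mul (hfd _ _)).sub ((hfd _ _).mul (hfd _ _))
  have t5 := (t4.pow N).mul t2
  have t6 : c.q 𝓤 P l z = jac (c.tr c'.j c'.i) (c.tr c'.k c'.i) (c.pt (χ z)) ^ N *
      c'.q 𝓤 P l z := by
    refine tendsto_nhds_unique t1 (t5.congr' ?_)
    filter_upwards [(h.tP z).eventually (c.cht.Oo.mem_nhds hz),
      (h.tP z).eventually (c'.cht.Oo.mem_nhds hz')] with m k1 k2
    exact (h2 m k1 k2).symm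
  rw [t6, h.W_change c c' hz hz', mul_pow]
  ring

/-- the values of the forms are holomorphic -/
theorem Pr.q_hol (h : Pr y 𝓤 χ P Q s wt B C0) (c : Chb y R ω) (l : Fin (n + 1)) {z0 : ℂ}
    (hz0 : χ z0 ∈ c.O) : ∃ V : Set ℂ, IsOpen V ∧ z0 ∈ V ∧ ∃ H : ℂ → ℂ,
      (∀ z ∈ V, AnalyticAt ℂ H z) ∧ (∀ z ∈ V, ‖H z‖ ≤ c.C) ∧
      ∀ᶠ z in residual ℂ, z ∈ V → c.q 𝓤 P l z = H z := by
  obtain ⟨V, hV, hz0V, hm⟩ := cc_mem h.lP (c.cht.Oo.mem_nhds hz0)
  set g : ℕ → ℂ → ℂ := fun m => toMeromorphicNFOn (fun z => ev R (ω l c.E) (P m z)) univ with hg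
  have hg' : ∀ᶠ m in (𝓤 : Filter ℕ), ∀ z ∈ V, AnalyticAt ℂ (g m) z ∧ ‖g m z‖ ≤ c.C := by
    filter_upwards [hm] with m hm z hz
    apply nf_bounded ((h.cP m).mero R _)
    filter_upwards [codis_ev ((h.cP m).good R (ω l c.E)) z,
      mem_nhdsWithin_of_mem_nhds (hV.mem_nhds hz)] with w h1 h2
    exact c.bq l _ ⟨hm w h2, (h.cP m).mem w⟩ h1
  obtain ⟨H, hH⟩ := ultra_montel (𝓤 := 𝓤) (U := V) (h := g) (fun z hz =>
    ⟨V, hV.mem_nhds hz, c.C, by
      filter_upwards [hg'] with m hm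
      exact ⟨fun w hw => (hm w hw).1.differentiableAt.differentiableWithinAt,
        fun w hw => (hm w hw).2⟩⟩)
  refine ⟨V, hV, hz0V, H, fun z hz => (CConv.an hH hV hz ⟨V, hV.mem_nhds hz, by
      filter_upwards [hg'] with m hm
      exact fun w hw => (hm w hw).1.differentiableAt.differentiableWithinAt⟩).1, fun z hz => ?_, ?_⟩
  · exact le_of_tendsto (hH.pointwise hz).norm (hg'.mono fun m hm => (hm z hz).2)
  · have h1 : ∀ᶠ z in residual ℂ, ∀ m, ev R (ω l c.E) (P m z) = g m z := by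
      rw [eventually_countable_forall]
      exact fun m => resid (nf_codis ((h.cP m).mero R _))
    filter_upwards [h1] with z h2 hz
    have h3 : Tendsto (fun m => ev R (ω l c.E) (P m z)) 𝓤 (𝓝 (H z)) :=
      (hH.pointwise hz).congr fun m => (h2 m).symm
    exact ulim_eq h3

variable {ι : Type} {F : ι → MvPolynomial (Fin (n + 1)) ℂ}

/-- a finite atlas -/
theorem atlas (hX : SmoothSurface F y) (R : ∀ h : K, Frac y h) (hω : Pluricanonical N ω y)
    (hcomp : IsCompact (TX y)) {M1 : Mat (n + 1)} (hM1 : M1 ∈ TX y) :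
    ∃ (c : Mat (n + 1) → Chb y R ω) (S : Finset (Mat (n + 1))),
      ∀ M ∈ TX y, ∃ M' ∈ S, M ∈ (c M').O := by
  classical
  obtain ⟨c1, -⟩ := exists_chb hX R hω hM1
  have h1 : ∀ M : Mat (n + 1), ∃ c : Chb y R ω, M ∈ TX y → M ∈ c.O := by
    intro M
    by_cases hM : M ∈ TX y
    · obtain ⟨c, hc⟩ := exists_chb hX R hω hM
      exact ⟨c, fun _ => hc⟩
    · exact ⟨c1, fun h => absurd h hM⟩
  choose c hc using h1
  obtain ⟨S, hS, hcov⟩ := hcomp.elim_nhds_subcover (fun M => (c M).O)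
    (fun M hM => ((c M).cht.Oo).mem_nhds (hc M hM))
  refine ⟨c, S, fun M hM => ?_⟩
  obtain ⟨M', hM', hMM⟩ := mem_iUnion₂.1 (hcov hM)
  exact ⟨M', hM', hMM⟩

/-- the values of the forms on the normal component are constant -/
theorem Pr.T_const (h : Pr y 𝓤 χ P Q s wt B C0) (hω : Pluricanonical N ω y)
    {c : Mat (n + 1) → Chb y R ω} {S : Finset (Mat (n + 1))}
    (hcov : ∀ M ∈ TX y, ∃ M' ∈ S, M ∈ (c M').O) (l : Fin (n + 1)) :
    ∃ κ : ℂ, ∀ z0 : ℂ, ∀ M' ∈ S, χ z0 ∈ (c M').O → ∃ V : Set ℂ, IsOpen V ∧ z0 ∈ V ∧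
      ∀ᶠ z in residual ℂ, z ∈ V → (c M').q 𝓤 P l z * (c M').W 𝓤 χ P Q s wt z ^ N = κ := by
  classical
  set T : Mat (n + 1) → ℂ → ℂ := fun M z =>
    (c M).q 𝓤 P l z * (c M).W 𝓤 χ P Q s wt z ^ N with hT
  have hres : ∀ᶠ z in residual ℂ, ∀ M' ∈ S, ∀ M'' ∈ S, χ z ∈ (c M').O → χ z ∈ (c M'').O →
      T M' z = T M'' z := by
    rw [Filter.eventually_all_finset]
    intro M' _
    rw [Filter.eventually_all_finset]
    exact fun M'' _ => h.T_change hω (c M') (c M'') l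
  choose f hfS hf using fun z => hcov (χ z) (h.mχ z)
  have hB := h.B_nonneg
  have hC0 := h.C0_nonneg
  obtain ⟨κ, hκ⟩ := glue (t := fun z => T (f z) z)
    (C := ∑ M ∈ S, (c M).C * (2 * (((c M).C * B) * ((c M).C * C0))) ^ N) (by
      intro z0
      obtain ⟨V1, hV1, hzV1, H, hH1, hH2, hH3⟩ := h.q_hol (c (f z0)) l (hf z0)
      have hV2 : IsOpen (χ ⁻¹' (c (f z0)).O) := (c (f z0)).cht.Oo.preimage h.cont
      refine ⟨V1 ∩ χ ⁻¹' (c (f z0)).O, hV1.inter hV2, ⟨hzV1, hf z0⟩,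
        fun z => H z * (c (f z0)).W 𝓤 χ P Q s wt z ^ N, fun z hz => ?_, fun z hz => ?_, ?_⟩
      · exact (hH1 z hz.1).mul ((h.W_an (c (f z0)) hz.2).pow N)
      · have e1 : ‖H z * (c (f z0)).W 𝓤 χ P Q s wt z ^ N‖ ≤
            (c (f z0)).C * (2 * (((c (f z0)).C * B) * ((c (f z0)).C * C0))) ^ N := by
          rw [norm_mul, norm_pow]
          exact mul_le_mul (hH2 z hz.1) (pow_le_pow_left₀ (norm_nonneg _)
            (h.W_bound (c (f z0)) hz.2) N) (by positivity) (c (f z0)).C0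
        refine e1.trans ?_
        exact Finset.single_le_sum
          (f := fun M => (c M).C * (2 * (((c M).C * B) * ((c M).C * C0))) ^ N)
          (fun M _ => by
            have := (c M).C0
            positivity) (hfS z0)
      · filter_upwards [hres, hH3] with z h1 h2 hz
        have h3 := h1 (f z) (hfS z) (f z0) (hfS z0) (hf z) hz.2
        change T (f z) z = _
        rw [h3, ← h2 hz.1])
  refine ⟨κ, fun z0 M' hM' hz0 => ?_⟩
  obtain ⟨V, hV, hzV, hVt⟩ := hκ z0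
  have hV2 : IsOpen (χ ⁻¹' (c M').O) := (c M').cht.Oo.preimage h.cont
  refine ⟨V ∩ χ ⁻¹' (c M').O, hV.inter hV2, ⟨hzV, hz0⟩, ?_⟩
  filter_upwards [hres, hVt] with z h1 h2 hz
  have h3 := h1 M' hM' (f z) (hfS z) hz.2 (hf z)
  change T M' z = κ
  rw [h3]
  exact h2 hz.1

theorem Pr.q_ratio (h : Pr y 𝓤 χ P Q s wt B C0) (hω : Pluricanonical N ω y) (c : Chb y R ω)
    (l : Fin (n + 1)) : ∀ᶠ z in residual ℂ, χ z ∈ c.O →
      c.q 𝓤 P l z = c.q 𝓤 P c.i z * qv (X l) (X c.i) (χ z) := by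
  filter_upwards [h.good_resid (R := R) (ω l c.E), h.good_resid (R := R) (ω c.i c.E)]
    with z h1 h2 hz
  have t1 := h.q_tendsto c l hz h1
  have t2 := h.q_tendsto c c.i hz h2
  have hnz := c.cht.nz _ hz
  have t3 := t2.mul ((continuousAt_qv (G1 := X l) hnz).tendsto.comp (h.tP z))
  refine tendsto_nhds_unique t1 (t3.congr' ?_)
  filter_upwards [(h.tP z).eventually (c.cht.Oo.mem_nhds hz)] with m hm
  have hnzm := c.cht.nz _ hm
  have g1 := h1 m
  have g2 := h2 m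
  simp only [Function.comp_apply]
  obtain ⟨u, hu, hPu⟩ := (h.cP m).mem z
  rw [hPu] at hnzm g1 g2 ⊢
  have hui : u c.i ≠ 0 := by rwa [nz_Phi (isHomogeneous_X _ _) hu.1, eval_X] at hnzm
  have v1 := valAt_ev R hu.1 g1
  have v2 := (valAt_ev R hu.1 g2).mul (valAt_ratio (r := l) c.cht.yi hui)
  have e1 : ω c.i c.E * (y l / y c.i) = ω l c.E := by
    have := hω.ratio l c.i c.E
    rw [mul_div_assoc', ← this, mul_div_assoc, div_self c.cht.yi, mul_one]
  rw [e1] at v2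
  rw [qv_Phi (isHomogeneous_X _ _) (isHomogeneous_X _ _) hu.1, eval_X, eval_X]
  exact (v1.unique hu v2).symm

theorem Pr.q_ne (h : Pr y 𝓤 χ P Q s wt B C0) (hω : Pluricanonical N ω y) (c : Chb y R ω) :
    ∀ᶠ z in residual ℂ, χ z ∈ c.O → c.q 𝓤 P c.i z ≠ 0 := by
  filter_upwards [h.good_resid (R := R) (ω c.i c.E), h.good_resid (R := R) (ω c.i c.E)⁻¹]
    with z h1 h2 hz h0
  have t1 := h.q_tendsto c c.i hz h1
  rw [h0] at t1
  have h3 : ∀ᶠ m in (𝓤 : Filter ℕ), 1 ≤ ‖ev R (ω c.i c.E) (P m z)‖ * c.C := by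
    filter_upwards [(h.tP z).eventually (c.cht.Oo.mem_nhds hz)] with m hm
    have h4 := c.bi _ ⟨hm, (h.cP m).mem z⟩ (h2 m)
    have g1 := h1 m
    have g2 := h2 m
    have e1 : ev R (ω c.i c.E) (P m z) * ev R (ω c.i c.E)⁻¹ (P m z) = 1 := by
      obtain ⟨u, hu, hPu⟩ := (h.cP m).mem z
      rw [hPu] at g1 g2 ⊢
      have v1 := (valAt_ev R hu.1 g1).mul (valAt_ev R hu.1 g2)
      rw [mul_inv_cancel₀ (hω.ne' c.cht.yi c.cht.dual)] at v1
      have v2 := ValAt.const (y := y) (u := u) (1 : ℂ)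
      rw [map_one] at v2
      exact v1.unique hu v2
    have e2 := congrArg norm e1
    rw [norm_mul, norm_one] at e2
    rw [← e2]
    exact mul_le_mul_of_nonneg_left h4 (norm_nonneg _)
  have h4 := (t1.norm).mul_const c.C
  rw [norm_zero, zero_mul] at h4
  have := ge_of_tendsto h4 h3
  linarith

/-- **The normal component vanishes.** -/
theorem Pr.W_zero (h : Pr y 𝓤 χ P Q s wt B C0) (hX : SmoothSurface F y) (R : ∀ h : K, Frac y h)
    (hω : Pluricanonical N ω y) (hcomp : IsCompact (TX y)) :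
    ∃ c : Chb y R ω, χ 0 ∈ c.O ∧ c.W 𝓤 χ P Q s wt 0 = 0 := by
  classical
  obtain ⟨cc, S, hcov⟩ := atlas hX R hω hcomp (h.mχ 0)
  obtain ⟨M', hM', hz0⟩ := hcov (χ 0) (h.mχ 0)
  refine ⟨cc M', hz0, ?_⟩
  have hTc := fun l => h.T_const hω hcov l
  choose κ hκ using hTc
  have hVl := fun l => hκ l 0 M' hM' hz0
  choose V hVo h0V hV using hVl
  set c := cc M' with hc
  set U : Set ℂ := (⋂ l, V l) ∩ χ ⁻¹' c.O with hU
  have hUo : IsOpen U := (isOpen_iInter_of_finite hVo).inter (c.cht.Oo.preimage h.cont)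
  have h0U : (0 : ℂ) ∈ U := ⟨mem_iInter.2 h0V, hz0⟩
  have hUV : ∀ l, ∀ z ∈ U, z ∈ V l := fun l z hz => mem_iInter.1 hz.1 l
  have hcW : ContinuousOn (c.W 𝓤 χ P Q s wt) U := fun z hz =>
    (h.W_an c hz.2).continuousAt.continuousWithinAt
  have hκ0 : κ c.i = 0 := by
    by_contra hne
    have hconst : ∀ l : Fin (n + 1), ∀ z ∈ U, qv (X l) (X c.i) (χ z) = κ l / κ c.i := by
      intro l
      refine resid_eq hUo (fun z hz => (((continuousAt_qv (c.cht.nz _ hz.2)).comp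
        h.cont.continuousAt)).continuousWithinAt) continuousOn_const ?_
      filter_upwards [hV l, hV c.i, h.q_ratio hω c l] with z h1 h2 h3 hz
      have e1 := h1 (hUV l z hz)
      have e2 := h2 (hUV c.i z hz)
      have e3 := h3 hz.2
      rw [eq_div_iff hne, ← e1, ← e2, e3]
      ring
    have hder : ∀ l : Fin (n + 1), VV χ (qv (X l) (X c.i)) 0 = 0 := by
      intro l
      have h1 : (fun w => qv (X l) (X c.i) (χ w)) =ᶠ[𝓝 0] fun _ => κ l / κ c.i := by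
        filter_upwards [hUo.mem_nhds h0U] with z hz
        exact hconst l z hz
      unfold VV
      rw [h1.deriv_eq, deriv_const]
    rcases h.pivot c hz0 with h1 | h1
    · exact h1 (hder _)
    · exact h1 (hder _)
  refine resid_eq hUo hcW (continuousOn_const (c := (0 : ℂ))) ?_ 0 h0U
  filter_upwards [hV c.i, h.q_ne hω c] with z h1 h2 hz
  have e1 := h1 (hUV c.i z hz)
  rw [hκ0] at e1
  have e2 := (mul_eq_zero.1 e1).resolve_left (h2 hz.2)
  exact (pow_eq_zero_iff hω.pos.ne').1 e2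

end Pool.Agent.N155
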