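import Pool.Agent.N155.L.Cntr
import Pool.Agent.N155.L.Pic
import Pool.Agent.N155.A.Inv

/-! Tracking one curve by another. -/

set_option autoImplicit false

open Filter Topology Metric Set MvPolynomial

namespace Pool.Agent.N155

open Pool.Agent.Y190.OP

variable {N : ℕ} {T : Set (Mat N)} {c0 : ℝ} {𝒞 : (ℂ → Mat N) → Prop} {r c1 η δ : ℝ}
  {P Q : ℂ → Mat N}

/-- a continuous exact tracking is holomorphic -/
theorem hol_of_exact (hP : HolP univ P) (hQ : HolP univ Q) (hQ0 : ∀ z, fderiv ℝ Q z ≠ 0)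
    {h : ℂ → ℂ} {V : Set ℂ} (hV : IsOpen V) (hc : ContinuousOn h V)
    (heq : ∀ z ∈ V, P z = Q (h z)) : DifferentiableOn ℂ h V := by
  intro z0 hz0
  apply DifferentiableAt.differentiableWithinAt
  obtain ⟨i, j, hi, hd⟩ := exists_coord hQ (hQ0 (h z0))
  set A : ℂ → ℂ := fun w => qv (X j) (X i) (Q w) with hA
  have hAan : AnalyticAt ℂ A (h z0) :=
    an_qv hQ (mem_univ _) (isHomogeneous_X _ _) (isHomogeneous_X _ _) hi
  have hst : HasStrictDerivAt A (deriv A (h z0)) (h z0) := hAan.hasStrictDerivAt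
  have hci : ContinuousAt h z0 := hc.continuousAt (hV.mem_nhds hz0)
  have hP0 : nz (X i) (P z0) := by rw [heq z0 hz0]; exact hi
  have hB : DifferentiableAt ℂ (fun z => qv (X j) (X i) (P z)) z0 :=
    (an_qv hP (mem_univ _) (isHomogeneous_X _ _) (isHomogeneous_X _ _) hP0).differentiableAt
  have hli := hst.to_localInverse hd
  have h1 : h =ᶠ[𝓝 z0] fun z => hst.localInverse A _ _ hd (qv (X j) (X i) (P z)) := by
    filter_upwards [hci.eventually (hst.eventually_left_inverse hd), hV.mem_nhds hz0] with z h2 h3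
    have h4 : qv (X j) (X i) (P z) = A (h z) := by rw [heq z h3]
    rw [h4, h2]
  rw [h1.differentiableAt_iff]
  have h2 : qv (X j) (X i) (P z0) = A (h z0) := by rw [heq z0 hz0]
  have h3 := hli.hasDerivAt.differentiableAt
  rw [← h2] at h3
  exact h3.comp z0 hB

theorem Cls.im (h : Cls T c0 𝒞) {φ : ℂ → Mat N} (hφ : 𝒞 φ) (z : ℂ) : fderiv ℝ φ z ≠ 0 := by
  intro h0
  have := h.low φ hφ z
  rw [h0, norm_zero] at this
  exact absurd h.pos (not_lt.2 this)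

/-- the injectivity of the curves in the class -/
def Inj (r c1 : ℝ) (𝒞 : (ℂ → Mat N) → Prop) : Prop :=
  ∀ φ, 𝒞 φ → ∀ z t : ℂ, ‖t‖ ≤ 2 * r → c1 * ‖t‖ ≤ ‖φ (z + t) - φ z‖

theorem imp (h : Cls T c0 𝒞) (hi : Inj r c1 𝒞) (hP : 𝒞 P) (hQ : 𝒞 Q) {z z' v v' : ℂ} {δ δ' : ℝ}
    (h1 : ‖P z - Q v‖ ≤ δ) (h2 : ‖P z' - Q v'‖ ≤ δ') (h3 : ‖v - v'‖ ≤ 2 * r) :
    c1 * ‖v - v'‖ ≤ δ + δ' + 2 * ‖z - z'‖ := by
  have h4 := hi Q hQ v' (v - v') h3
  rw [add_sub_cancel] at h4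
  have h5 := h.lip hP z' z
  have h6 : Q v - Q v' = -(P z - Q v) + (P z' - Q v') + (P z - P z') := by abel
  rw [h6] at h4
  have h7 := norm_add_le (-(P z - Q v) + (P z' - Q v')) (P z - P z')
  have h8 := norm_add_le (-(P z - Q v)) (P z' - Q v')
  rw [norm_neg] at h8
  linarith

/-- the curve `Q` tracks the curve `P` on a disc, along `h` -/
def Trs (η r δ R : ℝ) (P Q : ℂ → Mat N) (h : ℂ → ℂ) : Prop :=
  (∀ z ∈ closedBall (0 : ℂ) R, ‖P z - Q (h z)‖ ≤ δ) ∧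
  ∀ z ∈ closedBall (0 : ℂ) R, ∀ z' ∈ closedBall (0 : ℂ) R, ‖z - z'‖ ≤ η → ‖h z - h z'‖ ≤ r

theorem Trs.step (h : Cls T c0 𝒞) (hi : Inj r c1 𝒞) (hr : 0 < r) (hc1 : 0 < c1)
    (hsm : 2 * δ + 2 * η ≤ c1 * (r / 8)) (hP : 𝒞 P) (hQ : 𝒞 Q) {R : ℝ} {g : ℂ → ℂ}
    (ht : Trs η r δ R P Q g) {z z' : ℂ} (hz : z ∈ closedBall (0 : ℂ) R)
    (hz' : z' ∈ closedBall (0 : ℂ) R) (hzz : ‖z - z'‖ ≤ η) : ‖g z - g z'‖ ≤ r / 8 := by
  have h1 := imp h hi hP hQ (ht.1 z hz) (ht.1 z' hz') ((ht.2 z hz z' hz' hzz).trans (by linarith))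
  have h2 : c1 * ‖g z - g z'‖ ≤ c1 * (r / 8) := by linarith
  exact le_of_mul_le_mul_left h2 hc1

theorem Trs.chain (h : Cls T c0 𝒞) (hi : Inj r c1 𝒞) (hr : 0 < r) (hc1 : 0 < c1)
    (hsm : 2 * δ + 2 * η ≤ c1 * (r / 8)) (hP : 𝒞 P) (hQ : 𝒞 Q) {R : ℝ} {g : ℂ → ℂ}
    (ht : Trs η r δ R P Q g) {z z' : ℂ} (hz : z ∈ closedBall (0 : ℂ) R)
    (hz' : z' ∈ closedBall (0 : ℂ) R) {m : ℕ} (hm : 0 < m) (hzz : ‖z - z'‖ ≤ m * η) :
    ‖g z - g z'‖ ≤ m * (r / 8) := by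
  have hm' : (0 : ℝ) < m := by exact_mod_cast hm
  have hmem : ∀ j : ℕ, j ≤ m → z' + ((j / m : ℝ) : ℂ) * (z - z') ∈ closedBall (0 : ℂ) R := by
    intro j hj
    have h1 : (j / m : ℝ) ≤ 1 := by
      rw [div_le_one hm']
      exact_mod_cast hj
    have h2 := (convex_closedBall (0 : ℂ) R).add_smul_sub_mem hz' hz
      (t := (j / m : ℝ)) ⟨by positivity, h1⟩
    rwa [Complex.real_smul] at h2
  have h1 := chain_lin (c1 := 1) (X := r / 8) (n := m)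
    (t := fun j => g (z' + ((j / m : ℝ) : ℂ) * (z - z'))) zero_le_one (fun j hj => by
      rw [one_mul]
      apply ht.step h hi hr hc1 hsm hP hQ (hmem _ hj) (hmem _ hj.le)
      have e1 : z' + (((j + 1 : ℕ) / m : ℝ) : ℂ) * (z - z') - (z' + ((j / m : ℝ) : ℂ) * (z - z')) =
          ((1 / m : ℝ) : ℂ) * (z - z') := by
        push_cast
        ring
      rw [e1, norm_mul, Complex.norm_real, Real.norm_of_nonneg (by positivity), one_div,
        inv_mul_le_iff₀ hm']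
      exact hzz)
  simp only [Nat.cast_zero, zero_div, Complex.ofReal_zero, zero_mul, add_zero, one_mul,
    div_self hm'.ne', Complex.ofReal_one, add_sub_cancel] at h1
  exact h1

/-- the radial projection to the disc -/
noncomputable def rp (R : ℝ) (z : ℂ) : ℂ := if ‖z‖ ≤ R then z else ((R / ‖z‖ : ℝ) : ℂ) * z

theorem rp_of_le {R : ℝ} {z : ℂ} (hz : ‖z‖ ≤ R) : rp R z = z := if_pos hz

theorem rp_of_gt {R : ℝ} {z : ℂ} (hR : 0 ≤ R) (hz : R < ‖z‖) : ‖rp R z‖ = R ∧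
    ‖z - rp R z‖ = ‖z‖ - R := by
  have h0 : 0 < ‖z‖ := lt_of_le_of_lt hR hz
  unfold rp
  rw [if_neg (not_le.2 hz)]
  constructor
  · rw [norm_mul, Complex.norm_real, Real.norm_of_nonneg (by positivity), div_mul_cancel₀ _ h0.ne']
  · have e1 : z - ((R / ‖z‖ : ℝ) : ℂ) * z = ((1 - R / ‖z‖ : ℝ) : ℂ) * z := by
      push_cast
      ring
    have h1 : R / ‖z‖ ≤ 1 := (div_le_one h0).2 hz.le
    rw [e1, norm_mul, Complex.norm_real, Real.norm_of_nonneg (by linarith), sub_mul, one_mul,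
      div_mul_cancel₀ _ h0.ne']

theorem rp_mem {R : ℝ} (hR : 0 ≤ R) (z : ℂ) : rp R z ∈ closedBall (0 : ℂ) R := by
  rw [mem_closedBall_zero_iff]
  rcases le_or_gt ‖z‖ R with h | h
  · rwa [rp_of_le h]
  · exact (rp_of_gt hR h).1.le

theorem rp_dist {R : ℝ} (hR : 0 ≤ R) (hη : 0 ≤ η) {z : ℂ} (hz : ‖z‖ ≤ R + η) :
    ‖z - rp R z‖ ≤ η := by
  rcases le_or_gt ‖z‖ R with h | h
  · rw [rp_of_le h, sub_self, norm_zero]
    exact hη
  · rw [(rp_of_gt hR h).2]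
    linarith

/-- **Extension of a tracking.** -/
theorem Trs.extend (h : Cls T c0 𝒞) (hi : Inj r c1 𝒞) (hr : 0 < r) (hc1 : 0 < c1) (hη : 0 < η)
    (hsm : 2 * δ + 2 * η ≤ c1 * (r / 8)) (hP : 𝒞 P) (hQ : 𝒞 Q) {R : ℝ} (hR : 0 ≤ R) {g : ℂ → ℂ}
    (ht : Trs η r δ R P Q g) (hex : ∀ z : ℂ, R < ‖z‖ → ‖z‖ ≤ R + η →
      ∃ w : ℂ, ‖w - g (rp R z)‖ ≤ r / 2 ∧ ‖P z - Q w‖ ≤ δ) :
    ∃ g' : ℂ → ℂ, (∀ z ∈ closedBall (0 : ℂ) R, g' z = g z) ∧ Trs η r δ (R + η) P Q g' := by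
  have hex' : ∀ z : ℂ, ∃ w : ℂ, (‖z‖ ≤ R → w = g z) ∧ (‖z‖ ≤ R + η →
      ‖w - g (rp R z)‖ ≤ r / 2 ∧ ‖P z - Q w‖ ≤ δ) := by
    intro z
    rcases le_or_gt ‖z‖ R with h1 | h1
    · refine ⟨g z, fun _ => rfl, fun _ => ?_⟩
      rw [rp_of_le h1, sub_self, norm_zero]
      exact ⟨by positivity, ht.1 z (mem_closedBall_zero_iff.2 h1)⟩
    · rcases le_or_gt ‖z‖ (R + η) with h2 | h2
      · obtain ⟨w, hw⟩ := hex z h1 h2
        exact ⟨w, fun h => absurd h (not_le.2 h1), fun _ => hw⟩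
      · exact ⟨0, fun h => absurd h (not_le.2 h1), fun h => absurd h (not_le.2 h2)⟩
  choose g' hg1 hg2 using hex'
  refine ⟨g', fun z hz => hg1 z (mem_closedBall_zero_iff.1 hz), ?_, ?_⟩
  · intro z hz
    exact (hg2 z (mem_closedBall_zero_iff.1 hz)).2
  · intro z hz z' hz' hzz
    rw [mem_closedBall_zero_iff] at hz hz'
    obtain ⟨a1, a2⟩ := hg2 z hz
    obtain ⟨b1, b2⟩ := hg2 z' hz'
    have h1 : ‖rp R z - rp R z'‖ ≤ (3 : ℕ) * η := by
      have e1 : rp R z - rp R z' = -(z - rp R z) + (z' - rp R z') + (z - z') := by ring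
      rw [e1]
      have h2 := norm_add_le (-(z - rp R z) + (z' - rp R z')) (z - z')
      have h3 := norm_add_le (-(z - rp R z)) (z' - rp R z')
      rw [norm_neg] at h3
      have h4 := rp_dist hR hη.le hz
      have h5 := rp_dist hR hη.le hz'
      push_cast
      linarith
    have h2 := ht.chain h hi hr hc1 hsm hP hQ (rp_mem hR z) (rp_mem hR z') (by norm_num) h1
    push_cast at h2
    have h3 : ‖g' z - g' z'‖ ≤ 2 * r := by
      have e1 : g' z - g' z' = (g' z - g (rp R z)) + (g (rp R z) - g (rp R z')) -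
          (g' z' - g (rp R z')) := by ring
      rw [e1]
      have k1 := norm_sub_le ((g' z - g (rp R z)) + (g (rp R z) - g (rp R z')))
        (g' z' - g (rp R z'))
      have k2 := norm_add_le (g' z - g (rp R z)) (g (rp R z) - g (rp R z'))
      linarith
    have h4 := imp h hi hP hQ a2 b2 h3
    have h5 : c1 * ‖g' z - g' z'‖ ≤ c1 * r := by nlinarith
    exact le_of_mul_le_mul_left h5 hc1

end Pool.Agent.N155
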