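import Pool.Agent.N155.A.Trk

/-! Local extension of exact trackings, with a uniform radius. -/

set_option autoImplicit false

open Filter Topology Metric Set MvPolynomial

namespace Pool.Agent.N155

open Pool.Agent.Y190.OP

variable {N : ℕ} {T : Set (Mat N)} {c0 : ℝ} {𝒞 : (ℂ → Mat N) → Prop} {r c1 η δ : ℝ}
  {P Q : ℂ → Mat N}

theorem eq_of_qv {M M' : Mat N} (hM : M ∈ PM) (hM' : M' ∈ PM) {i : Fin N} (hi : nz (X i) M)
    (hi' : nz (X i) M') (h : ∀ j, qv (X j) (X i) M = qv (X j) (X i) M') : M = M' := by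
  rw [← PM.Phi_chart hM (diag_of_nz hM hi), ← PM.Phi_chart hM' (diag_of_nz hM' hi')]
  congr 1
  funext j
  rw [chart_eq hM hi, chart_eq hM' hi', h]

/-- **Local extension.** -/
theorem Cls.ule (h : Cls T c0 𝒞) (hr : 0 < r) : ∃ η0 : ℝ, 0 < η0 ∧ ∀ H1 H2, 𝒞 H1 → 𝒞 H2 →
    ∀ (b v : ℂ) (S : Set ℂ) (g : ℂ → ℂ), IsOpen S → b ∈ closure S → Tendsto g (𝓝[S] b) (𝓝 v) →
      (∀ z ∈ S, H1 z = H2 (g z)) → H1 b = H2 v →
      ∀ z ∈ ball b η0, ∃ w : ℂ, ‖w - v‖ ≤ r / 2 ∧ H1 z = H2 w := by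
  by_contra hcon
  push Not at hcon
  have hseq : ∀ m : ℕ, ∃ (H1 H2 : ℂ → Mat N) (S : Set ℂ) (g : ℂ → ℂ) (z : ℂ), 𝒞 H1 ∧ 𝒞 H2 ∧
      IsOpen S ∧ (0 : ℂ) ∈ closure S ∧ Tendsto g (𝓝[S] 0) (𝓝 0) ∧ (∀ z ∈ S, H1 z = H2 (g z)) ∧
      H1 0 = H2 0 ∧ ‖z‖ < 1 / (m + 1 : ℝ) ∧ ∀ w : ℂ, ‖w‖ ≤ r / 2 → H1 z ≠ H2 w := by
    intro m
    obtain ⟨H1, H2, h1, h2, b, v, S, g, hS, hb, hg, heq, hbv, z, hz, hw⟩ :=
      hcon (1 / (m + 1)) (by positivity)
    have hc : Continuous fun w : ℂ => b + w := by fun_prop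
    refine ⟨fun w => H1 (b + w), fun w => H2 (v + w), (fun w => b + w) ⁻¹' S,
      fun w => g (b + w) - v, z - b, h.shift _ h1 _, h.shift _ h2 _, hS.preimage hc, ?_, ?_, ?_, ?_,
      ?_, ?_⟩
    · rw [Metric.mem_closure_iff] at hb ⊢
      intro ε hε
      obtain ⟨w, hw, hwd⟩ := hb ε hε
      refine ⟨w - b, ?_, ?_⟩
      · change b + (w - b) ∈ S
        rwa [add_sub_cancel]
      · rw [dist_eq_norm] at hwd ⊢
        rwa [zero_sub, neg_sub]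
    · have h3 : Tendsto (fun w : ℂ => b + w) (𝓝[(fun w => b + w) ⁻¹' S] 0) (𝓝[S] b) := by
        apply tendsto_nhdsWithin_of_tendsto_nhds_of_eventually_within
        · have := hc.tendsto 0
          rw [add_zero] at this
          exact this.mono_left nhdsWithin_le_nhds
        · filter_upwards [self_mem_nhdsWithin] with w hw using hw
      have h4 := (hg.comp h3).sub_const v
      rwa [sub_self] at h4
    · intro w hw
      have := heq (b + w) hw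
      simp only
      rw [this, add_sub_cancel]
    · simp only [add_zero]
      exact hbv
    · rw [mem_ball, dist_eq_norm] at hz
      exact hz
    · intro w hw'
      simp only
      rw [add_sub_cancel]
      exact hw (v + w) (by rwa [add_sub_cancel_left])
  choose H1 H2 S g z h1 h2 hS h0S hg heq hbv hz hw using hseq
  set 𝓤 : Ultrafilter ℕ := hyperfilter ℕ with h𝓤
  obtain ⟨G1, hG1, hc1⟩ := h.lim 𝓤 H1 h1
  obtain ⟨G2, hG2, hc2⟩ := h.lim 𝓤 H2 h2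
  have hG0 : G1 0 = G2 0 := tendsto_nhds_unique (hc1.pointwise (mem_univ 0))
    ((hc2.pointwise (mem_univ 0)).congr fun m => (hbv m).symm)
  obtain ⟨i, j, hi, hd⟩ := exists_coord (h.hol _ hG2) (h.im hG2 0)
  have hUo : IsOpen {w | nz (X i) (G2 w)} := (isOpen_nz (X i)).preimage (h.cont hG2)
  have hO2 : {M | nz (X i) M} ∈ 𝓝 (G2 0) := (isOpen_nz (X i)).mem_nhds hi
  obtain ⟨V0, hV0, h0V0, hm0⟩ := cc_mem hc2 hO2
  obtain ⟨ρ0, hρ0, hρV0⟩ := Metric.isOpen_iff.1 hV0 0 h0V0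
  obtain ⟨ρ, σ, hρ, hρρ, hσ, hinv⟩ := loc_inv (cc_qv hc2 (G1 := X j) (G0 := X i)) hUo hi
    (cc_diff hc2 (fun m => h.hol _ (h2 m)) (isHomogeneous_X _ _) (isHomogeneous_X _ _) hi) hd
    (show 0 < min ρ0 (r / 2) by positivity)
  have hρ1 : ρ ≤ ρ0 := hρρ.trans (min_le_left _ _)
  have hρ2 : ρ ≤ r / 2 := hρρ.trans (min_le_right _ _)
  set A0 : ℂ := qv (X j) (X i) (G2 0) with hA0
  have hO1 : {M | nz (X i) M} ∩ {M | qv (X j) (X i) M ∈ ball A0 σ} ∈ 𝓝 (G1 0) := by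
    rw [hG0]
    exact inter_mem hO2 ((continuousAt_qv hi).eventually (ball_mem_nhds _ hσ))
  obtain ⟨V1, hV1, h0V1, hm1⟩ := cc_mem hc1 hO1
  obtain ⟨ρ1, hρ1', hρV1⟩ := Metric.isOpen_iff.1 hV1 0 h0V1
  have hsmall : ∀ᶠ m : ℕ in (𝓤 : Filter ℕ), 1 / (m + 1 : ℝ) < ρ1 :=
    hyp_inv.eventually_lt_const hρ1'
  obtain ⟨m, ⟨k1, k2, I, k3, k4⟩, k5, k6, k7⟩ :=
    (hinv.and (hm0.and (hm1.and hsmall))).exists
  have hAd : deriv (fun w => qv (X j) (X i) (G2 w)) 0 ≠ 0 := hd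
  have hapos : 0 < ‖deriv (fun w => qv (X j) (X i) (G2 w)) 0‖ := norm_pos_iff.2 hAd
  set gt : ℂ → ℂ := fun w => I (qv (X j) (X i) (H1 m w)) with hgt
  have hgt1 : ∀ w ∈ ball (0 : ℂ) ρ1, gt w ∈ ball (0 : ℂ) ρ ∧
      qv (X j) (X i) (H2 m (gt w)) = qv (X j) (X i) (H1 m w) := fun w hw =>
    k4 _ (k6 w (hρV1 hw)).2
  have hgd : DifferentiableOn ℂ gt (ball 0 ρ1) := by
    intro w hw
    apply DifferentiableAt.differentiableWithinAt
    have d1 : DifferentiableAt ℂ (fun w => qv (X j) (X i) (H1 m w)) w :=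
      (an_qv (h.hol _ (h1 m)) (mem_univ w) (isHomogeneous_X _ _) (isHomogeneous_X _ _)
        (k6 w (hρV1 hw)).1).differentiableAt
    have d2 : DifferentiableAt ℂ I (qv (X j) (X i) (H1 m w)) :=
      (k3 _ (k6 w (hρV1 hw)).2).differentiableAt (isOpen_ball.mem_nhds (k6 w (hρV1 hw)).2)
    exact d2.comp w d1
  have hnz2 : ∀ w ∈ ball (0 : ℂ) ρ1, nz (X i) (H2 m (gt w)) := fun w hw =>
    k5 _ (hρV0 (ball_subset_ball hρ1 (hgt1 w hw).1))
  -- the two trackings agree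
  have hgg : ∀ᶠ w in 𝓝[S m] 0, g m w = gt w := by
    have e1 : ∀ᶠ w in 𝓝[S m] 0, g m w ∈ ball (0 : ℂ) ρ := (hg m).eventually (ball_mem_nhds _ hρ)
    have e2 : ∀ᶠ w in 𝓝[S m] (0 : ℂ), w ∈ ball (0 : ℂ) ρ1 :=
      mem_nhdsWithin_of_mem_nhds (ball_mem_nhds _ hρ1')
    filter_upwards [e1, e2, self_mem_nhdsWithin] with w hw1 hw2 hw3
    have e3 := k2 (g m w) hw1 (gt w) (hgt1 w hw2).1
    rw [(hgt1 w hw2).2, heq m w hw3, sub_self, norm_zero] at e3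
    by_contra hne
    have e4 : 0 < ‖g m w - gt w‖ := norm_pos_iff.2 (sub_ne_zero.2 hne)
    have e5 : 0 < ‖deriv (fun w => qv (X j) (X i) (G2 w)) 0‖ / 2 * ‖g m w - gt w‖ := by positivity
    exact absurd e3 (not_le.2 e5)
  obtain ⟨w0, hw0ball, hw0⟩ : ∃ w0 ∈ ball (0 : ℂ) ρ1, ∀ᶠ w in 𝓝 w0,
      H1 m w = H2 m (gt w) := by
    rw [eventually_nhdsWithin_iff] at hgg
    obtain ⟨ε, hε, hεs⟩ := Metric.eventually_nhds_iff_ball.1 hgg
    obtain ⟨w0, hw0S, hw0d⟩ := Metric.mem_closure_iff.1 (h0S m) (min ε ρ1) (by positivity)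
    rw [dist_comm] at hw0d
    refine ⟨w0, mem_ball.2 (hw0d.trans_le (min_le_right _ _)), ?_⟩
    have h3 : w0 ∈ ball (0 : ℂ) ε := mem_ball.2 (hw0d.trans_le (min_le_left _ _))
    filter_upwards [(hS m).mem_nhds hw0S, isOpen_ball.mem_nhds h3] with w hw1 hw2
    rw [heq m w hw1, hεs w hw2 hw1]
  have hcoord : ∀ l, ∀ w ∈ ball (0 : ℂ) ρ1, qv (X l) (X i) (H1 m w) =
      qv (X l) (X i) (H2 m (gt w)) := by
    intro l
    have a1 : AnalyticOnNhd ℂ (fun w => qv (X l) (X i) (H1 m w)) (ball 0 ρ1) := fun w hw =>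
      an_qv (h.hol _ (h1 m)) (mem_univ w) (isHomogeneous_X _ _) (isHomogeneous_X _ _)
        (k6 w (hρV1 hw)).1
    have a2 : AnalyticOnNhd ℂ (fun w => qv (X l) (X i) (H2 m (gt w))) (ball 0 ρ1) := by
      have d1 : DifferentiableOn ℂ (fun w => qv (X l) (X i) (H2 m (gt w))) (ball 0 ρ1) := by
        intro w hw
        apply DifferentiableAt.differentiableWithinAt
        have d2 : DifferentiableAt ℂ (fun w => qv (X l) (X i) (H2 m w)) (gt w) :=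
          (an_qv (h.hol _ (h2 m)) (mem_univ _) (isHomogeneous_X _ _) (isHomogeneous_X _ _)
            (hnz2 w hw)).differentiableAt
        exact d2.comp w ((hgd w hw).differentiableAt (isOpen_ball.mem_nhds hw))
      exact d1.analyticOnNhd isOpen_ball
    intro w hw
    refine a1.eqOn_of_preconnected_of_eventuallyEq a2 (convex_ball 0 ρ1).isPreconnected hw0ball ?_
      hw
    filter_upwards [hw0] with v hv
    rw [hv]
  have hzb : z m ∈ ball (0 : ℂ) ρ1 := by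
    rw [mem_ball_zero_iff]
    exact (hz m).trans k7
  refine hw m (gt (z m)) ?_ ?_
  · have := (hgt1 _ hzb).1
    rw [mem_ball_zero_iff] at this
    linarith
  · exact eq_of_qv (h.sub (h.mem _ (h1 m) _)) (h.sub (h.mem _ (h2 m) _)) (k6 _ (hρV1 hzb)).1
      (hnz2 _ hzb) fun l => hcoord l _ hzb

end Pool.Agent.N155
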