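import Pool.Agent.N155.A.Pr

/-! The normal component of a deformation is holomorphic. -/

set_option autoImplicit false

open Filter Topology Metric Set MvPolynomial

namespace Pool.Agent.N155

open FF Pool.Agent.Y190.OP Pool.Agent.W602.GT Pool.Agent.TH143.GT

variable {n : ℕ} {K : Type} [Field K] [Algebra ℂ K]
variable {y : Fin (n + 1) → K} {𝓤 : Ultrafilter ℕ} {χ : ℂ → Mat (n + 1)}
  {P Q : ℕ → ℂ → Mat (n + 1)} {s wt : ℕ → ℂ → ℂ} {B C0 : ℝ}
variable {R : ∀ h : K, Frac y h} {ω : Fin (n + 1) → (Fin 2 → Derivation ℂ K K) → K}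

theorem Pr.lipQ (h : Pr y 𝓤 χ P Q s wt B C0) (m : ℕ) (z w : ℂ) :
    ‖Q m w - Q m z‖ ≤ B * ‖w - z‖ :=
  (convex_univ).norm_image_sub_le_of_norm_fderiv_le
    (fun x _ => (h.hQ m).differentiableAt (mem_univ x)) (fun x _ => h.bQ m x) (mem_univ z)
    (mem_univ w)

/-- sequences near a point at which the shifts are small -/
theorem Pr.small (h : Pr y 𝓤 χ P Q s wt B C0) (z0 : ℂ) {ρ : ℝ} (hρ : 0 < ρ) :
    ∃ V : Set ℂ, IsOpen V ∧ z0 ∈ V ∧ ∀ᶠ m in (𝓤 : Filter ℕ), ∀ z ∈ V, z + s m z ∈ ball z0 ρ := by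
  have h1 : ∀ᶠ p : ℕ × ℂ in (𝓤 : Filter ℕ) ×ˢ 𝓝 z0, s p.1 p.2 ∈ ball (0 : ℂ) (ρ / 2) :=
    (h.ls z0 (mem_univ z0)).eventually (ball_mem_nhds _ (by positivity))
  rw [eventually_prod_iff] at h1
  obtain ⟨pa, hpa, pb, hpb, hab⟩ := h1
  obtain ⟨V, hVsub, hV, hzV⟩ := _root_.mem_nhds_iff.1 (inter_mem hpb
    (ball_mem_nhds z0 (show 0 < ρ / 2 by positivity)))
  refine ⟨V, hV, hzV, ?_⟩
  filter_upwards [hpa] with m hm z hz
  have h2 := hab hm (hVsub hz).1
  have h3 := (hVsub hz).2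
  rw [mem_ball_zero_iff] at h2
  rw [mem_ball, dist_eq_norm] at h3 ⊢
  have e1 : z + s m z - z0 = (z - z0) + s m z := by ring
  rw [e1]
  refine (norm_add_le _ _).trans_lt ?_
  simp only at h2
  linarith

theorem Pr.W_an_aux (h : Pr y 𝓤 χ P Q s wt B C0) (c : Chb y R ω) {z0 : ℂ} (hz0 : χ z0 ∈ c.O)
    {a b : Fin (n + 1)} (hpiv : VV χ (qv (X a) (X c.i)) z0 ≠ 0) :
    AnalyticAt ℂ (fun z => VV χ (qv (X a) (X c.i)) z * DD 𝓤 P Q s wt (qv (X b) (X c.i)) z -
      VV χ (qv (X b) (X c.i)) z * DD 𝓤 P Q s wt (qv (X a) (X c.i)) z) z0 := by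
  have hnz0 := c.cht.nz _ hz0
  have hUo : IsOpen {w | nz (X c.i) (χ w)} := (isOpen_nz (X c.i)).preimage h.cont
  -- the neighbourhoods
  obtain ⟨V0, hV0, hz0V0, hm0⟩ := cc_mem h.lQ (c.cht.Oo.mem_nhds hz0)
  obtain ⟨ρ0, hρ0, hρ0V⟩ := Metric.isOpen_iff.1 hV0 z0 hz0V0
  obtain ⟨ρ, σ, hρ, hρρ, hσ, hinv⟩ := loc_inv (cc_qv h.lQ (G1 := X a) (G0 := X c.i)) hUo hnz0
    (cc_diff h.lQ h.hQ (isHomogeneous_X _ _) (isHomogeneous_X _ _) hnz0) hpiv hρ0
  set A0 : ℂ := qv (X a) (X c.i) (χ z0) with hA0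
  have hO1 : c.O ∩ {M | qv (X a) (X c.i) M ∈ ball A0 σ} ∈ 𝓝 (χ z0) :=
    inter_mem (c.cht.Oo.mem_nhds hz0)
      ((continuousAt_qv hnz0).eventually (ball_mem_nhds _ hσ))
  obtain ⟨V1, hV1, hz0V1, hm1⟩ := cc_mem h.lP hO1
  obtain ⟨V2, hV2, hz0V2, hm2⟩ := h.small z0 hρ
  have hV3 : IsOpen (χ ⁻¹' c.O) := c.cht.Oo.preimage h.cont
  obtain ⟨ρ1, hρ1, hsub⟩ := Metric.isOpen_iff.1 ((((hV1.inter hV2).inter hV3).inter
    (isOpen_ball (x := z0) (ε := 1)))) z0 ⟨⟨⟨hz0V1, hz0V2⟩, hz0⟩, mem_ball_self one_pos⟩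
  set V := ball z0 ρ1 with hV
  have hbd := h.bd (‖z0‖ + 1)
  set al : ℝ := ‖VV χ (qv (X a) (X c.i)) z0‖ with hal
  have halpos : 0 < al := norm_pos_iff.2 hpiv
  have hB := h.B_nonneg
  have hC := c.C0
  have hC0 := h.C0_nonneg
  -- the inverse functions
  have hIex : ∀ m, ∃ I : ℂ → ℂ, (∃ I : ℂ → ℂ, DifferentiableOn ℂ I (ball A0 σ) ∧
      ∀ v ∈ ball A0 σ, I v ∈ ball z0 ρ ∧ qv (X a) (X c.i) (Q m (I v)) = v) →
      DifferentiableOn ℂ I (ball A0 σ) ∧
      ∀ v ∈ ball A0 σ, I v ∈ ball z0 ρ ∧ qv (X a) (X c.i) (Q m (I v)) = v := by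
    intro m
    by_cases hI : ∃ I : ℂ → ℂ, DifferentiableOn ℂ I (ball A0 σ) ∧
      ∀ v ∈ ball A0 σ, I v ∈ ball z0 ρ ∧ qv (X a) (X c.i) (Q m (I v)) = v
    · obtain ⟨I, hI⟩ := hI
      exact ⟨I, fun _ => hI⟩
    · exact ⟨fun _ => 0, fun h => absurd h hI⟩
  choose I hI using hIex
  set g : ℕ → ℂ → ℂ := fun m z => I m (qv (X a) (X c.i) (P m z)) with hg
  set Nm : ℕ → ℂ → ℂ := fun m z =>
    (qv (X b) (X c.i) (Q m (g m z)) - qv (X b) (X c.i) (P m z)) * wt m z with hNm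
  -- the main estimates
  have hmain : ∀ᶠ m in (𝓤 : Filter ℕ), DifferentiableOn ℂ (Nm m) V ∧ ∀ z ∈ V,
      g m z ∈ ball z0 ρ ∧ z + s m z ∈ ball z0 ρ ∧ P m z ∈ c.O ∧
      qv (X a) (X c.i) (Q m (g m z)) = qv (X a) (X c.i) (P m z) ∧
      Q m (g m z) ∈ c.O ∧ Q m (z + s m z) ∈ c.O ∧
      ‖z + s m z - g m z‖ ≤ 2 * c.C / al * ‖Q m (z + s m z) - P m z‖ ∧
      ‖Q m (z + s m z) - P m z‖ * ‖wt m z‖ ≤ C0 ∧
      ‖Nm m z‖ ≤ (c.C + c.C * (B * (2 * c.C / al))) * C0 := by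
    filter_upwards [hinv, hm0, hm1, hm2, hbd] with m k1 k2 k3 k4 k5
    obtain ⟨k6, k7, k8⟩ := k1
    obtain ⟨k9, k10⟩ := hI m k8
    have hPv : ∀ z ∈ V, qv (X a) (X c.i) (P m z) ∈ ball A0 σ := fun z hz =>
      (k3 z (hsub hz).1.1.1).2
    have hgz : ∀ z ∈ V, g m z ∈ ball z0 ρ := fun z hz => (k10 _ (hPv z hz)).1
    have hQg : ∀ z ∈ V, Q m (g m z) ∈ c.O := fun z hz =>
      k2 _ (hρ0V (ball_subset_ball hρρ (hgz z hz)))
    refine ⟨?_, ?_⟩
    · intro z hz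
      apply DifferentiableAt.differentiableWithinAt
      have hPnz := c.cht.nz _ (k3 z (hsub hz).1.1.1).1
      have d1 : DifferentiableAt ℂ (fun z => qv (X a) (X c.i) (P m z)) z :=
        (an_qv (h.cP m).hol (mem_univ z) (isHomogeneous_X _ _) (isHomogeneous_X _ _)
          hPnz).differentiableAt
      have d2 : DifferentiableAt ℂ (I m) (qv (X a) (X c.i) (P m z)) :=
        (k9 _ (hPv z hz)).differentiableAt (isOpen_ball.mem_nhds (hPv z hz))
      have d3 : DifferentiableAt ℂ (g m) z := d2.comp z d1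
      have d4 : DifferentiableAt ℂ (fun w => qv (X b) (X c.i) (Q m w)) (g m z) :=
        (an_qv (h.hQ m) (mem_univ _) (isHomogeneous_X _ _) (isHomogeneous_X _ _)
          (c.cht.nz _ (hQg z hz))).differentiableAt
      have d5 : DifferentiableAt ℂ (fun z => qv (X b) (X c.i) (P m z)) z :=
        (an_qv (h.cP m).hol (mem_univ z) (isHomogeneous_X _ _) (isHomogeneous_X _ _)
          hPnz).differentiableAt
      exact (((d4.comp z d3).sub d5).mul ((h.wd m) z))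
    · intro z hz
      have hPO := (k3 z (hsub hz).1.1.1).1
      have hzs := k4 z (hsub hz).1.1.2
      have hQs : Q m (z + s m z) ∈ c.O := k2 _ (hρ0V (ball_subset_ball hρρ hzs))
      have heq : qv (X a) (X c.i) (Q m (g m z)) = qv (X a) (X c.i) (P m z) :=
        (k10 _ (hPv z hz)).2
      have e1 : ‖z + s m z - g m z‖ ≤ 2 * c.C / al * ‖Q m (z + s m z) - P m z‖ := by
        have h1 := k7 _ hzs _ (hgz z hz)
        rw [heq] at h1
        have h2 := c.lip a _ hQs _ hPO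
        have h3 : al / 2 * ‖z + s m z - g m z‖ ≤ c.C * ‖Q m (z + s m z) - P m z‖ := h1.trans h2
        rw [div_mul_eq_mul_div, le_div_iff₀ halpos]
        linarith
      have hzL : z ∈ closedBall (0 : ℂ) (‖z0‖ + 1) := by
        rw [mem_closedBall_zero_iff]
        have h1 := (hsub hz).2
        rw [mem_ball, dist_eq_norm] at h1
        have h2 := norm_add_le (z - z0) z0
        rw [sub_add_cancel] at h2
        linarith
      have e2 := k5 z hzL
      refine ⟨hgz z hz, hzs, hPO, heq, hQg z hz, hQs, e1, e2, ?_⟩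
      have e3 := c.lip b _ (hQg z hz) _ hQs
      have e4 := h.lipQ m (z + s m z) (g m z)
      have e5 := c.lip b _ hQs _ hPO
      have e6 : ‖qv (X b) (X c.i) (Q m (g m z)) - qv (X b) (X c.i) (P m z)‖ ≤
          (c.C + c.C * (B * (2 * c.C / al))) * ‖Q m (z + s m z) - P m z‖ := by
        have e7 : qv (X b) (X c.i) (Q m (g m z)) - qv (X b) (X c.i) (P m z) =
            (qv (X b) (X c.i) (Q m (g m z)) - qv (X b) (X c.i) (Q m (z + s m z))) +
            (qv (X b) (X c.i) (Q m (z + s m z)) - qv (X b) (X c.i) (P m z)) := by ring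
        rw [e7]
        refine (norm_add_le _ _).trans ?_
        rw [norm_sub_rev (g m z)] at e4
        have e8 : c.C * ‖Q m (g m z) - Q m (z + s m z)‖ ≤
            c.C * (B * (2 * c.C / al * ‖Q m (z + s m z) - P m z‖)) :=
          mul_le_mul_of_nonneg_left (e4.trans (mul_le_mul_of_nonneg_left e1 hB)) hC
        have e9 : (c.C + c.C * (B * (2 * c.C / al))) * ‖Q m (z + s m z) - P m z‖ =
            c.C * (B * (2 * c.C / al * ‖Q m (z + s m z) - P m z‖)) +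
              c.C * ‖Q m (z + s m z) - P m z‖ := by ring
        rw [e9]
        exact add_le_add (e3.trans e8) e5
      change ‖(qv (X b) (X c.i) (Q m (g m z)) - qv (X b) (X c.i) (P m z)) * wt m z‖ ≤ _
      rw [norm_mul]
      calc _ ≤ (c.C + c.C * (B * (2 * c.C / al))) * ‖Q m (z + s m z) - P m z‖ * ‖wt m z‖ :=
            mul_le_mul_of_nonneg_right e6 (norm_nonneg _)
        _ = (c.C + c.C * (B * (2 * c.C / al))) * (‖Q m (z + s m z) - P m z‖ * ‖wt m z‖) := by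
            ring
        _ ≤ _ := mul_le_mul_of_nonneg_left e2 (by positivity)
  -- the limit
  obtain ⟨N, hN⟩ := ultra_montel (𝓤 := 𝓤) (U := V) (h := Nm) (fun z hz =>
    ⟨V, isOpen_ball.mem_nhds hz, (c.C + c.C * (B * (2 * c.C / al))) * C0, by
      filter_upwards [hmain] with m hm
      exact ⟨hm.1, fun w hw => (hm.2 w hw).2.2.2.2.2.2.2.2⟩⟩)
  have hNan : ∀ z ∈ V, AnalyticAt ℂ N z := fun z hz => (CConv.an hN isOpen_ball hz
    ⟨V, isOpen_ball.mem_nhds hz, hmain.mono fun m hm => hm.1⟩).1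
  have hz0V : z0 ∈ V := mem_ball_self hρ1
  have hVVan : AnalyticAt ℂ (fun z => VV χ (qv (X a) (X c.i)) z) z0 :=
    (an_qv h.hχ (mem_univ z0) (isHomogeneous_X _ _) (isHomogeneous_X _ _) hnz0).deriv
  have hfin : ∀ z ∈ V, VV χ (qv (X a) (X c.i)) z * DD 𝓤 P Q s wt (qv (X b) (X c.i)) z -
      VV χ (qv (X b) (X c.i)) z * DD 𝓤 P Q s wt (qv (X a) (X c.i)) z =
      VV χ (qv (X a) (X c.i)) z * N z := by
    intro z hz
    have hzO : χ z ∈ c.O := (hsub hz).1.2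
    have hnz := c.cht.nz _ hzO
    have hdiff : Tendsto (fun m => ‖Q m (z + s m z) - P m z‖) 𝓤 (𝓝 0) := by
      have := ((h.tQ z).sub (h.tP z)).norm
      rwa [sub_self, norm_zero] at this
    have hem0 : Tendsto (fun m => z + s m z - g m z) 𝓤 (𝓝 0) := by
      rw [tendsto_zero_iff_norm_tendsto_zero]
      have h1 := hdiff.const_mul (2 * c.C / al)
      rw [mul_zero] at h1
      refine squeeze_zero' (Eventually.of_forall fun _ => norm_nonneg _) ?_ h1
      filter_upwards [hmain] with m hm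
      exact (hm.2 z hz).2.2.2.2.2.2.1
    have hzs : Tendsto (fun m => z + s m z) 𝓤 (𝓝 z) := by
      have := (h.ts z).const_add z
      rwa [add_zero] at this
    have hgz : Tendsto (fun m => g m z) 𝓤 (𝓝 z) := by
      have := hzs.sub hem0
      rw [sub_zero] at this
      refine this.congr fun m => ?_
      ring
    obtain ⟨β, hβ⟩ := exists_lim (𝓤 := 𝓤) (h := fun m => (z + s m z - g m z) * wt m z)
      (C := 2 * c.C / al * C0) (by
        filter_upwards [hmain] with m hm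
        obtain ⟨-, -, -, -, -, -, k7, k8, -⟩ := hm.2 z hz
        rw [norm_mul]
        calc _ ≤ 2 * c.C / al * ‖Q m (z + s m z) - P m z‖ * ‖wt m z‖ :=
              mul_le_mul_of_nonneg_right k7 (norm_nonneg _)
          _ = 2 * c.C / al * (‖Q m (z + s m z) - P m z‖ * ‖wt m z‖) := by ring
          _ ≤ _ := mul_le_mul_of_nonneg_left k8 (by positivity))
    have hq : ∀ r : Fin (n + 1), Tendsto (fun m => (qv (X r) (X c.i) (Q m (z + s m z)) -
        qv (X r) (X c.i) (Q m (g m z))) * wt m z) 𝓤 (𝓝 (β * VV χ (qv (X r) (X c.i)) z)) := by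
      intro r
      have h1 := quot_seq (cc_qv h.lQ (G1 := X r) (G0 := X c.i)) hUo hnz
        (cc_diff h.lQ h.hQ (isHomogeneous_X _ _) (isHomogeneous_X _ _) hnz) (z := fun m => g m z)
        (s := fun m => z + s m z - g m z) (w := fun m => wt m z) hgz hem0 hβ
      refine h1.congr fun m => ?_
      have e1 : g m z + (z + s m z - g m z) = z + s m z := by ring
      rw [e1]
    have hDa : DD 𝓤 P Q s wt (qv (X a) (X c.i)) z = β * VV χ (qv (X a) (X c.i)) z := by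
      refine tendsto_nhds_unique (h.ddc c hzO a).1 ((hq a).congr' ?_)
      filter_upwards [hmain] with m hm
      rw [(hm.2 z hz).2.2.2.1]
    have hDb : DD 𝓤 P Q s wt (qv (X b) (X c.i)) z = β * VV χ (qv (X b) (X c.i)) z + N z := by
      refine tendsto_nhds_unique (h.ddc c hzO b).1 (((hq b).add (hN.pointwise hz)).congr ?_)
      intro m
      simp only [hNm]
      ring
    rw [hDa, hDb]
    ring
  have h1 : AnalyticAt ℂ (fun z => VV χ (qv (X a) (X c.i)) z * N z) z0 :=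
    hVVan.mul (hNan z0 hz0V)
  refine h1.congr ?_
  filter_upwards [isOpen_ball.mem_nhds hz0V] with z hz
  exact (hfin z hz).symm

/-- **The normal component is holomorphic.** -/
theorem Pr.W_an (h : Pr y 𝓤 χ P Q s wt B C0) (c : Chb y R ω) {z0 : ℂ} (hz0 : χ z0 ∈ c.O) :
    AnalyticAt ℂ (c.W 𝓤 χ P Q s wt) z0 := by
  rcases h.pivot c hz0 with h1 | h1
  · exact h.W_an_aux c hz0 (b := c.k) h1
  · have h2 := (h.W_an_aux c hz0 (b := c.j) h1).neg
    refine h2.congr (Eventually.of_forall fun z => ?_)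
    change -(VV χ (qv (X c.k) (X c.i)) z * DD 𝓤 P Q s wt (qv (X c.j) (X c.i)) z -
      VV χ (qv (X c.j) (X c.i)) z * DD 𝓤 P Q s wt (qv (X c.k) (X c.i)) z) = Chb.W c 𝓤 χ P Q s wt z
    unfold Chb.W
    ring

end Pool.Agent.N155
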